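import Pool.Agent.T2H32.EK.Stm

/-! # Package BIGA: the range from `(log Q)^8` to `Q^(1/4)` -/

set_option autoImplicit false

namespace Pool.Agent.T2H32.EK

open Finset Filter Topology

namespace BIGAx

open Pool.Agent.R852.LK (ps ps_left ps_abs)

lemma not_sq {p p' : ℕ} (hp : p.Prime) (hp' : p'.Prime) (h : p ≠ p') :
    ¬ IsSquare ((p : ℤ) * (p' : ℤ)) := by
  rintro ⟨r, hr⟩
  have h1 : p * p' = r.natAbs * r.natAbs := by
    have h2 : ((r.natAbs * r.natAbs : ℕ) : ℤ) = r * r := Int.natAbs_mul_self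
    have h3 : ((p * p' : ℕ) : ℤ) = ((r.natAbs * r.natAbs : ℕ) : ℤ) := by
      rw [h2, ← hr]
      push_cast
      ring
    exact_mod_cast h3
  have h2 : p ∣ r.natAbs := by
    have h3 : p ∣ r.natAbs * r.natAbs := ⟨p', h1.symm⟩
    rcases hp.dvd_mul.mp h3 with h4 | h4 <;> exact h4
  obtain ⟨t, ht⟩ := h2
  have h3 : p' = p * (t * t) := by
    have h4 : p * p' = p * (p * (t * t)) := by rw [h1, ht]; ring
    exact Nat.eq_of_mul_eq_mul_left hp.pos h4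
  have h4 : p ∣ p' := ⟨t * t, h3⟩
  exact h ((Nat.prime_dvd_prime_iff_eq hp hp').mp h4)

lemma sec (F : Finset ℕ) (c : ℕ → ℝ) (hc : ∀ p ∈ F, 0 ≤ c p ∧ c p ≤ 1) (N : ℕ) (B : ℝ)
    (hB : 0 ≤ B)
    (hPV : ∀ p ∈ F, ∀ p' ∈ F, p ≠ p' →
      |((∑ m ∈ range N, ps ((p : ℤ) * (p' : ℤ)) m : ℤ) : ℝ)| ≤ B) :
    ∑ q ∈ range N, (∑ p ∈ F, c p * (ps (p : ℤ) q : ℝ)) ^ 2 ≤
      N * ∑ p ∈ F, c p ^ 2 + (F.card : ℝ) ^ 2 * B := by
  have e1 : ∑ q ∈ range N, (∑ p ∈ F, c p * (ps (p : ℤ) q : ℝ)) ^ 2 =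
      ∑ p ∈ F, ∑ p' ∈ F, c p * c p' *
        ((∑ m ∈ range N, ps ((p : ℤ) * (p' : ℤ)) m : ℤ) : ℝ) := by
    have e2 : ∀ q ∈ range N, (∑ p ∈ F, c p * (ps (p : ℤ) q : ℝ)) ^ 2 =
        ∑ p ∈ F, ∑ p' ∈ F, c p * c p' * ((ps ((p : ℤ) * (p' : ℤ)) q : ℤ) : ℝ) := by
      intro q _
      rw [sq, Finset.sum_mul_sum]
      refine Finset.sum_congr rfl fun p _ => Finset.sum_congr rfl fun p' _ => ?_
      rw [ps_left]
      push_cast
      ring
    rw [Finset.sum_congr rfl e2, Finset.sum_comm]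
    refine Finset.sum_congr rfl fun p _ => ?_
    rw [Finset.sum_comm]
    refine Finset.sum_congr rfl fun p' _ => ?_
    push_cast
    rw [Finset.mul_sum]
  rw [e1]
  have h1 : ∀ p ∈ F, ∀ p' ∈ F, c p * c p' *
      ((∑ m ∈ range N, ps ((p : ℤ) * (p' : ℤ)) m : ℤ) : ℝ) ≤
      (if p = p' then c p ^ 2 * N else 0) + B := by
    intro p hp p' hp'
    obtain ⟨a0, a1⟩ := hc p hp
    obtain ⟨b0, b1⟩ := hc p' hp'
    by_cases h : p = p'
    · subst h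
      rw [if_pos rfl]
      have h2 : ((∑ m ∈ range N, ps ((p : ℤ) * (p : ℤ)) m : ℤ) : ℝ) ≤ N := by
        have h3 : ∑ m ∈ range N, ps ((p : ℤ) * (p : ℤ)) m ≤ ∑ m ∈ range N, (1 : ℤ) :=
          Finset.sum_le_sum fun m _ => (le_abs_self _).trans (ps_abs _ m)
        rw [Finset.sum_const, Finset.card_range, nsmul_eq_mul, mul_one] at h3
        exact_mod_cast h3
      have h4 : c p * c p * ((∑ m ∈ range N, ps ((p : ℤ) * (p : ℤ)) m : ℤ) : ℝ) ≤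
          c p * c p * N := mul_le_mul_of_nonneg_left h2 (by positivity)
      nlinarith
    · rw [if_neg h, zero_add]
      have h2 := hPV p hp p' hp' h
      calc c p * c p' * ((∑ m ∈ range N, ps ((p : ℤ) * (p' : ℤ)) m : ℤ) : ℝ)
          ≤ c p * c p' * |((∑ m ∈ range N, ps ((p : ℤ) * (p' : ℤ)) m : ℤ) : ℝ)| :=
            mul_le_mul_of_nonneg_left (le_abs_self _) (mul_nonneg a0 b0)
        _ ≤ 1 * B := mul_le_mul (mul_le_one₀ a1 b0 b1) h2 (abs_nonneg _) zero_le_one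
        _ = B := one_mul B
  refine (Finset.sum_le_sum fun p hp => Finset.sum_le_sum fun p' hp' => h1 p hp p' hp').trans ?_
  refine le_of_eq ?_
  have h2 : ∀ p ∈ F, ∑ p' ∈ F, ((if p = p' then c p ^ 2 * (N : ℝ) else 0) + B) =
      c p ^ 2 * N + F.card * B := by
    intro p hp
    rw [Finset.sum_add_distrib, Finset.sum_ite_eq, if_pos hp, Finset.sum_const, nsmul_eq_mul]
  rw [Finset.sum_congr rfl h2, Finset.sum_add_distrib, ← Finset.sum_mul, Finset.sum_const,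
    nsmul_eq_mul]
  ring

lemma tail_sum : ∃ K : ℝ, 0 < K ∧ ∀ (F : Finset ℕ) (W : ℝ), 0 < W →
    (∀ p ∈ F, 1 ≤ p ∧ W ^ 2 ≤ p) → ∑ p ∈ F, (Real.log p / p) ^ 2 ≤ K / W := by
  have hs : Summable (fun n : ℕ => (n : ℝ) ^ (-(5 / 4) : ℝ)) := by
    rw [Real.summable_nat_rpow]; norm_num
  have hK0 : 0 ≤ ∑' n : ℕ, (n : ℝ) ^ (-(5 / 4) : ℝ) := tsum_nonneg fun n => by positivity
  refine ⟨64 * ∑' n : ℕ, (n : ℝ) ^ (-(5 / 4) : ℝ) + 1, by positivity, ?_⟩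
  intro F W hW hF
  have h1 : ∀ p ∈ F, (Real.log p / p) ^ 2 ≤ 64 / W * (p : ℝ) ^ (-(5 / 4) : ℝ) := by
    intro p hp
    obtain ⟨h2, h3⟩ := hF p hp
    have hp1 : (1 : ℝ) ≤ p := by exact_mod_cast h2
    have hp0 : (0 : ℝ) < p := by linarith
    have h4 : Real.log p ≤ (p : ℝ) ^ (1 / 8 : ℝ) / (1 / 8) :=
      Real.log_le_rpow_div hp0.le (by norm_num)
    have h5 : 0 ≤ Real.log p := Real.log_nonneg hp1
    have h6 : Real.log p ^ 2 ≤ 64 * (p : ℝ) ^ (1 / 4 : ℝ) := by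
      have h7 := pow_le_pow_left₀ h5 h4 2
      have h8 : ((p : ℝ) ^ (1 / 8 : ℝ) / (1 / 8)) ^ 2 = 64 * (p : ℝ) ^ (1 / 4 : ℝ) := by
        rw [div_pow, ← Real.rpow_natCast, ← Real.rpow_mul hp0.le]
        norm_num
        ring
      linarith
    have h7 : W ≤ (p : ℝ) ^ (1 / 2 : ℝ) := by
      have h8 : (W ^ 2) ^ (1 / 2 : ℝ) ≤ (p : ℝ) ^ (1 / 2 : ℝ) :=
        Real.rpow_le_rpow (by positivity) h3 (by norm_num)
      have h9 : (W ^ 2) ^ (1 / 2 : ℝ) = W := by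
        rw [← Real.sqrt_eq_rpow, Real.sqrt_sq hW.le]
      linarith
    have e1 : (p : ℝ) ^ (-(5 / 4) : ℝ) =
        (p : ℝ) ^ (1 / 4 : ℝ) * (p : ℝ) ^ (1 / 2 : ℝ) / (p : ℝ) ^ 2 := by
      rw [← Real.rpow_natCast (p : ℝ) 2, ← Real.rpow_add hp0, ← Real.rpow_sub hp0]
      norm_num
    rw [e1, div_pow, ← mul_div_assoc]
    refine div_le_div_of_nonneg_right ?_ (by positivity)
    have hq : 0 ≤ (p : ℝ) ^ (1 / 4 : ℝ) := by positivity
    calc Real.log p ^ 2 ≤ 64 * (p : ℝ) ^ (1 / 4 : ℝ) := h6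
      _ = 64 / W * ((p : ℝ) ^ (1 / 4 : ℝ) * W) := by field_simp
      _ ≤ 64 / W * ((p : ℝ) ^ (1 / 4 : ℝ) * (p : ℝ) ^ (1 / 2 : ℝ)) := by gcongr
  refine (Finset.sum_le_sum h1).trans ?_
  rw [← Finset.mul_sum]
  have h2 : ∑ p ∈ F, (p : ℝ) ^ (-(5 / 4) : ℝ) ≤ ∑' n : ℕ, (n : ℝ) ^ (-(5 / 4) : ℝ) :=
    hs.sum_le_tsum F fun n _ => by positivity
  rw [div_mul_eq_mul_div]
  refine div_le_div_of_nonneg_right ?_ hW.le
  linarith

lemma ev_final (D : ℝ) : ∀ᶠ Q : ℕ in atTop,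
    D * ((Q : ℝ) ^ (3 / 4 : ℝ) * Real.log Q) ≤ Q / Real.log Q ^ 3 := by
  have h := (isLittleO_log_rpow_rpow_atTop (s := 1 / 4) 4 (by norm_num))
  have h2 := h.bound (c := 1 / (|D| + 1)) (by positivity)
  have h3 := (tendsto_natCast_atTop_atTop (R := ℝ)).eventually h2
  filter_upwards [h3, eventually_ge_atTop 3] with Q h4 hQ
  have hQ' : (3 : ℝ) ≤ Q := by exact_mod_cast hQ
  have hQ0 : (0 : ℝ) < Q := by linarith
  have hlog : 0 < Real.log Q := Real.log_pos (by linarith)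
  rw [Real.norm_of_nonneg (by positivity), Real.norm_of_nonneg (by positivity)] at h4
  have e3 : Real.log Q ^ (4 : ℝ) = Real.log Q ^ 4 := by
    rw [← Real.rpow_natCast]; norm_num
  rw [e3] at h4
  rw [le_div_iff₀ (by positivity)]
  have h5 : D * (Q : ℝ) ^ (3 / 4 : ℝ) ≤ (|D| + 1) * (Q : ℝ) ^ (3 / 4 : ℝ) := by
    refine mul_le_mul_of_nonneg_right ?_ (by positivity)
    have := le_abs_self D
    linarith
  calc D * ((Q : ℝ) ^ (3 / 4 : ℝ) * Real.log Q) * Real.log Q ^ 3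
      = D * (Q : ℝ) ^ (3 / 4 : ℝ) * Real.log Q ^ 4 := by ring
    _ ≤ (|D| + 1) * (Q : ℝ) ^ (3 / 4 : ℝ) * (1 / (|D| + 1) * (Q : ℝ) ^ (1 / 4 : ℝ)) := by
        refine mul_le_mul h5 h4 (by positivity) (by positivity)
    _ = (Q : ℝ) ^ (3 / 4 : ℝ) * (Q : ℝ) ^ (1 / 4 : ℝ) := by
        have : |D| + 1 ≠ 0 := by positivity
        field_simp
    _ = Q := by
        rw [← Real.rpow_add hQ0]
        norm_num

end BIGAx

open BIGAx
open Pool.Agent.R852.LK (ps)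

theorem BIGA_main : BIGA := by
  intro η hη
  obtain ⟨K, hK, hKs⟩ := tail_sum
  have hlogev : ∀ᶠ Q : ℕ in atTop, 4 * K / η ^ 2 ≤ Real.log Q :=
    (Real.tendsto_log_atTop.comp (tendsto_natCast_atTop_atTop (R := ℝ))).eventually
      (eventually_ge_atTop _)
  filter_upwards [ev_final (64 / η ^ 2), hlogev, eventually_ge_atTop 3] with Q hQf hQl hQ
  have hQ' : (3 : ℝ) ≤ Q := by exact_mod_cast hQ
  have hQ0 : (0 : ℝ) < Q := by linarith
  have hlog1 : 1 < Real.log Q := by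
    rw [Real.lt_log_iff_exp_lt hQ0]
    have := Real.exp_one_lt_d9
    linarith
  have hlog0 : 0 < Real.log Q := by linarith
  obtain ⟨F, hFdef⟩ : ∃ F : Finset ℕ, F = (Pr (Y2 Q)).filter (fun p => Y1 Q < p) := ⟨_, rfl⟩
  have hFm : ∀ p ∈ F, p.Prime ∧ p ≤ Y2 Q ∧ Y1 Q < p := by
    intro p hp
    rw [hFdef] at hp
    unfold Pr at hp
    simp only [Finset.mem_filter, Finset.mem_Icc] at hp
    exact ⟨hp.1.2, hp.1.1.2, hp.2⟩
  have hY2 : (Y2 Q : ℝ) ≤ (Q : ℝ) ^ (1 / 4 : ℝ) := Nat.floor_le (by positivity)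
  have hFcard : (F.card : ℝ) ≤ (Q : ℝ) ^ (1 / 4 : ℝ) := by
    refine le_trans ?_ hY2
    have h1 : F ⊆ Finset.Icc 1 (Y2 Q) := by
      intro p hp
      rw [Finset.mem_Icc]
      exact ⟨(hFm p hp).1.one_lt.le, (hFm p hp).2.1⟩
    have h2 := Finset.card_le_card h1
    rw [Nat.card_Icc] at h2
    have h3 : F.card ≤ Y2 Q := by omega
    exact_mod_cast h3
  -- the bad set
  have hT : ∀ q : ℕ, TT (Y1 Q) (Y2 Q) q = ∑ p ∈ F, (Real.log p / p) * (ps (p : ℤ) q : ℝ) := by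
    intro q
    unfold TT
    rw [← hFdef]
    refine Finset.sum_congr rfl fun p _ => ?_
    unfold ch
    ring
  have hc : ∀ p ∈ F, 0 ≤ Real.log p / p ∧ Real.log p / p ≤ 1 := by
    intro p hp
    have h1 : (1 : ℝ) ≤ p := by exact_mod_cast (hFm p hp).1.one_lt.le
    have h2 : 0 ≤ Real.log p := Real.log_nonneg h1
    refine ⟨by positivity, ?_⟩
    rw [div_le_one (by linarith)]
    have := Real.log_le_sub_one_of_pos (show (0 : ℝ) < p by linarith)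
    linarith
  obtain ⟨B, hBdef⟩ : ∃ B : ℝ, B = 32 * ((Q : ℝ) ^ (1 / 4 : ℝ) * Real.log Q) := ⟨_, rfl⟩
  have hB0 : 0 ≤ B := by rw [hBdef]; positivity
  have hPV : ∀ p ∈ F, ∀ p' ∈ F, p ≠ p' →
      |((∑ m ∈ range (Q + 1), ps ((p : ℤ) * (p' : ℤ)) m : ℤ) : ℝ)| ≤ B := by
    intro p hp p' hp' hne
    have hpp := (hFm p hp).1
    have hpp' := (hFm p' hp').1
    have hD : (p : ℤ) * (p' : ℤ) ≠ 0 :=
      mul_ne_zero (by exact_mod_cast hpp.ne_zero) (by exact_mod_cast hpp'.ne_zero)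
    have h1 := Pool.Agent.T2H32.RRT.PV_main ((p : ℤ) * (p' : ℤ)) hD (not_sq hpp hpp' hne) (Q + 1)
    refine h1.trans ?_
    have hpr : (1 : ℝ) ≤ p := by exact_mod_cast hpp.one_lt.le
    have hpr' : (1 : ℝ) ≤ p' := by exact_mod_cast hpp'.one_lt.le
    have h2 : |(((p : ℤ) * (p' : ℤ) : ℤ) : ℝ)| = (p : ℝ) * p' := by
      push_cast
      exact abs_of_nonneg (by positivity)
    rw [h2]
    have hb1 : (p : ℝ) ≤ (Q : ℝ) ^ (1 / 4 : ℝ) := by
      refine le_trans ?_ hY2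
      exact_mod_cast (hFm p hp).2.1
    have hb2 : (p' : ℝ) ≤ (Q : ℝ) ^ (1 / 4 : ℝ) := by
      refine le_trans ?_ hY2
      exact_mod_cast (hFm p' hp').2.1
    have h3 : √((p : ℝ) * p') ≤ (Q : ℝ) ^ (1 / 4 : ℝ) := by
      rw [Real.sqrt_le_left (by positivity)]
      rw [sq]
      exact mul_le_mul hb1 hb2 (by positivity) (by positivity)
    have h4 : 1 + Real.log (4 * ((p : ℝ) * p')) ≤ 4 * Real.log Q := by
      have h5 : (p : ℝ) * p' ≤ Q := by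
        calc (p : ℝ) * p' ≤ (Q : ℝ) ^ (1 / 4 : ℝ) * (Q : ℝ) ^ (1 / 4 : ℝ) :=
              mul_le_mul hb1 hb2 (by positivity) (by positivity)
          _ = (Q : ℝ) ^ (1 / 2 : ℝ) := by rw [← Real.rpow_add hQ0]; norm_num
          _ ≤ (Q : ℝ) ^ (1 : ℝ) := Real.rpow_le_rpow_of_exponent_le (by linarith) (by norm_num)
          _ = Q := Real.rpow_one _
      have h6 : Real.log (4 * ((p : ℝ) * p')) ≤ Real.log (4 * Q) :=
        Real.log_le_log (by positivity) (by linarith)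
      have h7 : Real.log (4 * Q) = 2 * Real.log 2 + Real.log Q := by
        rw [Real.log_mul (by norm_num) hQ0.ne', show (4 : ℝ) = 2 ^ 2 by norm_num, Real.log_pow]
        push_cast
        ring
      have := Real.log_two_lt_d9
      linarith
    rw [hBdef]
    calc 8 * √((p : ℝ) * p') * (1 + Real.log (4 * ((p : ℝ) * p')))
        ≤ 8 * (Q : ℝ) ^ (1 / 4 : ℝ) * (4 * Real.log Q) := by
          have h5 : 0 ≤ 1 + Real.log (4 * ((p : ℝ) * p')) := by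
            have : 0 ≤ Real.log (4 * ((p : ℝ) * p')) := Real.log_nonneg (by nlinarith)
            linarith
          exact mul_le_mul (by linarith) h4 h5 (by positivity)
      _ = _ := by ring
  have hsec := sec F (fun p => Real.log p / p) hc (Q + 1) B hB0 hPV
  have htail : ∑ p ∈ F, (Real.log p / p) ^ 2 ≤ K / Real.log Q ^ 4 := by
    refine hKs F (Real.log Q ^ 4) (by positivity) fun p hp => ⟨(hFm p hp).1.one_lt.le, ?_⟩
    have h1 : Real.log Q ^ 8 < (Y1 Q : ℝ) + 1 := Nat.lt_floor_add_one _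
    have h2 : (Y1 Q : ℝ) + 1 ≤ p := by exact_mod_cast (hFm p hp).2.2
    have e1 : (Real.log Q ^ 4) ^ 2 = Real.log Q ^ 8 := by ring
    rw [e1]
    linarith
  obtain ⟨bad, hbad⟩ : ∃ bad : Finset ℕ,
    bad = (Pr Q).filter (fun q => η < |TT (Y1 Q) (Y2 Q) q|) := ⟨_, rfl⟩
  rw [← hbad]
  have h1 : (bad.card : ℝ) * η ^ 2 ≤
      ∑ q ∈ range (Q + 1), (∑ p ∈ F, (Real.log p / p) * (ps (p : ℤ) q : ℝ)) ^ 2 := by
    calc (bad.card : ℝ) * η ^ 2 = ∑ q ∈ bad, η ^ 2 := by rw [Finset.sum_const, nsmul_eq_mul]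
      _ ≤ ∑ q ∈ bad, (∑ p ∈ F, (Real.log p / p) * (ps (p : ℤ) q : ℝ)) ^ 2 := by
          refine Finset.sum_le_sum fun q hq => ?_
          rw [hbad, Finset.mem_filter] at hq
          rw [← hT q, ← sq_abs (TT (Y1 Q) (Y2 Q) q)]
          exact pow_le_pow_left₀ hη.le hq.2.le 2
      _ ≤ _ := by
          refine Finset.sum_le_sum_of_subset_of_nonneg ?_ fun q _ _ => sq_nonneg _
          intro q hq
          rw [hbad] at hq
          unfold Pr at hq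
          simp only [Finset.mem_filter, Finset.mem_Icc] at hq
          rw [Finset.mem_range]
          omega
  have h2 : (F.card : ℝ) ^ 2 * B ≤ 32 * ((Q : ℝ) ^ (3 / 4 : ℝ) * Real.log Q) := by
    have h3 : (F.card : ℝ) ^ 2 ≤ ((Q : ℝ) ^ (1 / 4 : ℝ)) ^ 2 :=
      pow_le_pow_left₀ (Nat.cast_nonneg _) hFcard 2
    have h4 : ((Q : ℝ) ^ (1 / 4 : ℝ)) ^ 2 * (Q : ℝ) ^ (1 / 4 : ℝ) = (Q : ℝ) ^ (3 / 4 : ℝ) := by
      rw [← Real.rpow_natCast, ← Real.rpow_mul hQ0.le, ← Real.rpow_add hQ0]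
      norm_num
    calc (F.card : ℝ) ^ 2 * B ≤ ((Q : ℝ) ^ (1 / 4 : ℝ)) ^ 2 * B :=
          mul_le_mul_of_nonneg_right h3 hB0
      _ = 32 * ((((Q : ℝ) ^ (1 / 4 : ℝ)) ^ 2 * (Q : ℝ) ^ (1 / 4 : ℝ)) * Real.log Q) := by
          rw [hBdef]; ring
      _ = _ := by rw [h4]
  have h3 : ((Q + 1 : ℕ) : ℝ) * ∑ p ∈ F, (Real.log p / p) ^ 2 ≤ 2 * Q * (K / Real.log Q ^ 4) := by
    refine mul_le_mul ?_ htail (Finset.sum_nonneg fun p _ => sq_nonneg _) (by positivity)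
    push_cast
    linarith
  have h4 : (bad.card : ℝ) * η ^ 2 ≤
      2 * Q * (K / Real.log Q ^ 4) + 32 * ((Q : ℝ) ^ (3 / 4 : ℝ) * Real.log Q) := by
    linarith
  have h5 : 2 * Q * (K / Real.log Q ^ 4) ≤ η ^ 2 * (Q / Real.log Q ^ 3) / 2 := by
    have h6 : 4 * K ≤ Real.log Q * η ^ 2 := by
      rwa [div_le_iff₀ (by positivity)] at hQl
    have e1 : 2 * (Q : ℝ) * (K / Real.log Q ^ 4) = (Q / Real.log Q ^ 4) / 2 * (4 * K) := by ring
    have e2 : η ^ 2 * ((Q : ℝ) / Real.log Q ^ 3) / 2 =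
        (Q / Real.log Q ^ 4) / 2 * (Real.log Q * η ^ 2) := by
      field_simp
    rw [e1, e2]
    exact mul_le_mul_of_nonneg_left h6 (by positivity)
  have h6 : 32 * ((Q : ℝ) ^ (3 / 4 : ℝ) * Real.log Q) ≤ η ^ 2 * (Q / Real.log Q ^ 3) / 2 := by
    have e1 : 32 * ((Q : ℝ) ^ (3 / 4 : ℝ) * Real.log Q) =
        η ^ 2 / 2 * (64 / η ^ 2 * ((Q : ℝ) ^ (3 / 4 : ℝ) * Real.log Q)) := by
      field_simp
      ring
    have e2 : η ^ 2 * ((Q : ℝ) / Real.log Q ^ 3) / 2 = η ^ 2 / 2 * (Q / Real.log Q ^ 3) := by ring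
    rw [e1, e2]
    exact mul_le_mul_of_nonneg_left hQf (by positivity)
  have h7 : (bad.card : ℝ) * η ^ 2 ≤ (Q / Real.log Q ^ 3) * η ^ 2 := by linarith
  exact le_of_mul_le_mul_right h7 (by positivity)

end Pool.Agent.T2H32.EK
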