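import Pool.Agent.T2H32.EK.Stm

/-! # Package BIGB: the range from `Q^(1/4)` to `exp (Q^(1/40))` -/

set_option autoImplicit false

namespace Pool.Agent.T2H32.EK

open Finset Filter Topology

namespace BIGBx

/-- block index -/
def gi (Y p : ℕ) : ℕ := Nat.log 2 ((p - 1) / Y)

lemma gi_bounds {Y p : ℕ} (hY : 1 ≤ Y) (hp : Y < p) :
    2 ^ gi Y p * Y < p ∧ p ≤ 2 ^ (gi Y p + 1) * Y := by
  have h1 : (p - 1) / Y ≠ 0 := by
    have : 1 ≤ (p - 1) / Y := (Nat.le_div_iff_mul_le (by omega)).mpr (by omega)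
    omega
  have h2 := Nat.pow_log_le_self 2 h1
  have h3 := Nat.lt_pow_succ_log_self (one_lt_two) ((p - 1) / Y)
  have h4 := (Nat.le_div_iff_mul_le (by omega)).mp h2
  have h5 := (Nat.div_lt_iff_lt_mul (by omega)).mp h3
  unfold gi
  rw [Nat.succ_eq_add_one] at h5
  constructor <;> omega

/-- the blocks -/
def Bl (X Y j : ℕ) : Finset ℕ := ((Pr X).filter (fun p => Y < p)).filter (fun p => gi Y p = j)

lemma mem_Bl {X Y j p : ℕ} (hY : 1 ≤ Y) (h : p ∈ Bl X Y j) :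
    p.Prime ∧ p ≤ X ∧ 2 ^ j * Y < p ∧ p ≤ 2 ^ (j + 1) * Y := by
  unfold Bl Pr at h
  simp only [Finset.mem_filter, Finset.mem_Icc] at h
  obtain ⟨⟨⟨⟨h1, h2⟩, h3⟩, h4⟩, h5⟩ := h
  have h6 := gi_bounds hY h4
  rw [h5] at h6
  exact ⟨h3, h2, h6.1, h6.2⟩

/-- the partial sum over the block -/
noncomputable def Sj (X Y j q : ℕ) : ℝ := ∑ p ∈ Bl X Y j, (Real.log p / p) * ch q p

lemma TT_eq {X Y J : ℕ} (hJ : X < 2 ^ J) (q : ℕ) :
    TT Y X q = ∑ j ∈ range J, Sj X Y j q := by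
  unfold TT Sj Bl
  rw [Finset.sum_fiberwise_of_maps_to (g := gi Y) (t := range J)
    (s := (Pr X).filter (fun p => Y < p)) (f := fun p => (Real.log p / p) * ch q p)]
  · refine Finset.sum_congr rfl fun p _ => ?_
    ring
  · intro p hp
    unfold Pr at hp
    simp only [Finset.mem_filter, Finset.mem_Icc] at hp
    rw [Finset.mem_range]
    unfold gi
    rcases Nat.eq_zero_or_pos ((p - 1) / Y) with h0 | h0
    · rw [h0, Nat.log_zero_right]
      by_contra hc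
      have : J = 0 := by omega
      rw [this] at hJ
      omega
    · refine Nat.log_lt_of_lt_pow (by omega) ?_
      have h1 : (p - 1) / Y ≤ p - 1 := Nat.div_le_self _ _
      omega

lemma card_Bl {X Y j : ℕ} (hY : 1 ≤ Y) : (Bl X Y j).card ≤ 2 ^ j * Y := by
  have h : Bl X Y j ⊆ Finset.Ioc (2 ^ j * Y) (2 ^ (j + 1) * Y) := by
    intro p hp
    have := mem_Bl hY hp
    rw [Finset.mem_Ioc]
    exact ⟨this.2.2.1, this.2.2.2⟩
  refine (Finset.card_le_card h).trans ?_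
  rw [Nat.card_Ioc, pow_succ]
  have : 2 ^ j * 2 * Y = 2 ^ j * Y + 2 ^ j * Y := by ring
  omega

lemma sq_sum {X Y j : ℕ} {lam : ℝ} (hY : 1 ≤ Y) (hlam : 0 ≤ lam) (hX : Real.log X ≤ lam) :
    ∑ p ∈ Bl X Y j, (Real.log p / p) ^ 2 ≤ lam ^ 2 / ((2 ^ j * Y : ℕ) : ℝ) := by
  have hA : 0 < 2 ^ j * Y := by positivity
  have hA' : (0 : ℝ) < ((2 ^ j * Y : ℕ) : ℝ) := by exact_mod_cast hA
  have h1 : ∀ p ∈ Bl X Y j, (Real.log p / p) ^ 2 ≤ (lam / ((2 ^ j * Y : ℕ) : ℝ)) ^ 2 := by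
    intro p hp
    obtain ⟨h2, h3, h4, h5⟩ := mem_Bl hY hp
    have h6 : (1 : ℝ) ≤ p := by exact_mod_cast h2.one_lt.le
    have h7 : 0 ≤ Real.log p := Real.log_nonneg h6
    have h8 : Real.log p ≤ lam :=
      (Real.log_le_log (by linarith) (by exact_mod_cast h3)).trans hX
    have h9 : ((2 ^ j * Y : ℕ) : ℝ) ≤ p := by exact_mod_cast h4.le
    refine pow_le_pow_left₀ (by positivity) ?_ 2
    exact div_le_div₀ hlam h8 hA' h9
  refine (Finset.sum_le_card_nsmul _ _ _ h1).trans ?_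
  rw [nsmul_eq_mul]
  have h2 : ((Bl X Y j).card : ℝ) ≤ ((2 ^ j * Y : ℕ) : ℝ) := by exact_mod_cast card_Bl hY
  refine (mul_le_mul_of_nonneg_right h2 (sq_nonneg _)).trans (le_of_eq ?_)
  field_simp

lemma moment (hL : LSM) {Q X Y : ℕ} {lam : ℝ} (hY : 1 ≤ Y) (hlam : 0 ≤ lam)
    (hX : Real.log X ≤ lam) (hYQ : (Q : ℝ) ^ 2 ≤ 256 * (Y : ℝ) ^ 8) (j : ℕ) :
    ∑ q ∈ (Pr Q).filter Odd, (Sj X Y j q) ^ (2 * 8) ≤ 123863040 * lam ^ 16 := by
  have h1 := hL Q (2 ^ (j + 1) * Y) 8 (Bl X Y j) (fun p => Real.log p / p)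
    (fun p hp => ⟨(mem_Bl hY hp).1, (mem_Bl hY hp).2.2.2⟩)
  refine h1.trans ?_
  have hY' : (1 : ℝ) ≤ Y := by exact_mod_cast hY
  set A : ℝ := ((2 ^ j * Y : ℕ) : ℝ) with hA
  have hAY : (Y : ℝ) ≤ A := by
    rw [hA]
    push_cast
    have : (1 : ℝ) ≤ 2 ^ j := one_le_pow₀ (by norm_num)
    nlinarith
  have hA0 : 0 < A := by linarith
  have hM : ((2 ^ (j + 1) * Y : ℕ) : ℝ) = 2 * A := by
    rw [hA]
    push_cast
    ring
  have h2 : (∑ p ∈ Bl X Y j, (Real.log p / p) ^ 2) ^ 8 ≤ (lam ^ 2 / A) ^ 8 :=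
    pow_le_pow_left₀ (Finset.sum_nonneg fun p _ => sq_nonneg _) (sq_sum hY hlam hX) 8
  have h3 : (Q : ℝ) ^ 2 ≤ 256 * A ^ 8 := by
    refine hYQ.trans ?_
    have := pow_le_pow_left₀ (by linarith) hAY 8
    linarith
  have h4 : (((2 ^ (j + 1) * Y : ℕ) : ℝ)) ^ 8 + (Q : ℝ) ^ 2 ≤ 512 * A ^ 8 := by
    rw [hM]
    have : (2 * A) ^ 8 = 256 * A ^ 8 := by ring
    linarith
  calc 6 * ((((2 ^ (j + 1) * Y : ℕ) : ℝ)) ^ 8 + (Q : ℝ) ^ 2) *
        ((Nat.factorial 8 : ℝ) * (∑ p ∈ Bl X Y j, (Real.log p / p) ^ 2) ^ 8)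
      ≤ 6 * (512 * A ^ 8) * ((Nat.factorial 8 : ℝ) * (lam ^ 2 / A) ^ 8) := by
        gcongr
    _ = 123863040 * lam ^ 16 := by
        have : (Nat.factorial 8 : ℝ) = 40320 := by norm_num [Nat.factorial]
        rw [this]
        field_simp
        ring

lemma ch_two (p : ℕ) : ch 2 p = 0 := by
  unfold ch Pool.Agent.R852.LK.ps
  rw [if_neg (by decide)]
  simp

lemma card_bad (hL : LSM) {Q X Y J : ℕ} {lam η : ℝ} (hη : 0 < η) (hY : 1 ≤ Y) (hlam : 0 ≤ lam)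
    (hX : Real.log X ≤ lam) (hYQ : (Q : ℝ) ^ 2 ≤ 256 * (Y : ℝ) ^ 8) (hJ1 : 1 ≤ J)
    (hJ : X < 2 ^ J) :
    (((Pr Q).filter (fun q => η < |TT Y X q|)).card : ℝ) ≤
      J * (123863040 * lam ^ 16 * (J / η) ^ 16) := by
  have hJr : (1 : ℝ) ≤ J := by exact_mod_cast hJ1
  have hsub : (Pr Q).filter (fun q => η < |TT Y X q|) ⊆ (Pr Q).filter Odd := by
    intro q hq
    rw [Finset.mem_filter] at hq ⊢
    refine ⟨hq.1, ?_⟩
    have hp : q.Prime := by
      have := hq.1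
      unfold Pr at this
      exact (Finset.mem_filter.mp this).2
    rcases hp.eq_two_or_odd' with h | h
    · exfalso
      subst h
      have h0 : TT Y X 2 = 0 := by
        unfold TT
        refine Finset.sum_eq_zero fun p _ => ?_
        rw [ch_two]
        simp
      have := hq.2
      rw [h0, abs_zero] at this
      linarith
    · exact h
  have hpt : ∀ q ∈ (Pr Q).filter (fun q => η < |TT Y X q|),
      (1 : ℝ) ≤ ∑ j ∈ range J, (Sj X Y j q) ^ (2 * 8) * (J / η) ^ 16 := by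
    intro q hq
    rw [Finset.mem_filter] at hq
    have h1 := hq.2
    rw [TT_eq hJ] at h1
    have h2 : ∃ j ∈ range J, η / J < |Sj X Y j q| := by
      by_contra hcon
      push Not at hcon
      have h3 : |∑ j ∈ range J, Sj X Y j q| ≤ η := by
        refine (Finset.abs_sum_le_sum_abs _ _).trans ?_
        refine (Finset.sum_le_card_nsmul _ _ _ hcon).trans (le_of_eq ?_)
        rw [Finset.card_range, nsmul_eq_mul]
        field_simp
      linarith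
    obtain ⟨j, hj, h4⟩ := h2
    have h5 : 1 ≤ (Sj X Y j q) ^ (2 * 8) * (J / η) ^ 16 := by
      have h6 : 1 ≤ |Sj X Y j q| * (J / η) := by
        have h7 : η / J * (J / η) = 1 := by field_simp
        rw [← h7]
        exact mul_le_mul_of_nonneg_right h4.le (by positivity)
      have h8 : (Sj X Y j q) ^ (2 * 8) = |Sj X Y j q| ^ 16 := by
        rw [Even.pow_abs (by decide)]
      rw [h8, ← mul_pow]
      exact one_le_pow₀ h6
    refine h5.trans ?_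
    refine Finset.single_le_sum (f := fun j => (Sj X Y j q) ^ (2 * 8) * (J / η) ^ 16)
      (fun i _ => ?_) hj
    have : 0 ≤ (Sj X Y i q) ^ (2 * 8) := Even.pow_nonneg (by decide) _
    positivity
  calc (((Pr Q).filter (fun q => η < |TT Y X q|)).card : ℝ)
      = ∑ q ∈ (Pr Q).filter (fun q => η < |TT Y X q|), (1 : ℝ) := by simp
    _ ≤ ∑ q ∈ (Pr Q).filter (fun q => η < |TT Y X q|),
        ∑ j ∈ range J, (Sj X Y j q) ^ (2 * 8) * (J / η) ^ 16 := Finset.sum_le_sum hpt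
    _ ≤ ∑ q ∈ (Pr Q).filter Odd, ∑ j ∈ range J, (Sj X Y j q) ^ (2 * 8) * (J / η) ^ 16 := by
        refine Finset.sum_le_sum_of_subset_of_nonneg hsub fun q _ _ => ?_
        refine Finset.sum_nonneg fun j _ => ?_
        have : 0 ≤ (Sj X Y j q) ^ (2 * 8) := Even.pow_nonneg (by decide) _
        positivity
    _ = ∑ j ∈ range J, (∑ q ∈ (Pr Q).filter Odd, (Sj X Y j q) ^ (2 * 8)) * (J / η) ^ 16 := by
        rw [Finset.sum_comm]
        refine Finset.sum_congr rfl fun j _ => ?_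
        rw [Finset.sum_mul]
    _ ≤ ∑ j ∈ range J, 123863040 * lam ^ 16 * (J / η) ^ 16 := by
        refine Finset.sum_le_sum fun j _ => ?_
        exact mul_le_mul_of_nonneg_right (moment hL hY hlam hX hYQ j) (by positivity)
    _ = _ := by
        rw [Finset.sum_const, Finset.card_range, nsmul_eq_mul]

lemma final_ev (D : ℝ) : ∀ᶠ Q : ℕ in atTop,
    D * (Q : ℝ) ^ (33 / 40 : ℝ) ≤ Q / Real.log Q ^ 3 := by
  have h := (isLittleO_log_rpow_rpow_atTop (s := 7 / 40) 3 (by norm_num))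
  have h2 := h.bound (c := 1 / (|D| + 1)) (by positivity)
  have h3 := (tendsto_natCast_atTop_atTop (R := ℝ)).eventually h2
  filter_upwards [h3, eventually_ge_atTop 3] with Q h4 hQ
  have hQ' : (3 : ℝ) ≤ Q := by exact_mod_cast hQ
  have hQ0 : (0 : ℝ) < Q := by linarith
  have hlog : 0 < Real.log Q := Real.log_pos (by linarith)
  rw [Real.norm_of_nonneg (by positivity), Real.norm_of_nonneg (by positivity)] at h4
  have e3 : Real.log Q ^ (3 : ℝ) = Real.log Q ^ 3 := by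
    rw [← Real.rpow_natCast]; norm_num
  rw [e3] at h4
  rw [le_div_iff₀ (by positivity)]
  have h5 : D * (Q : ℝ) ^ (33 / 40 : ℝ) ≤ (|D| + 1) * (Q : ℝ) ^ (33 / 40 : ℝ) := by
    refine mul_le_mul_of_nonneg_right ?_ (by positivity)
    have := le_abs_self D
    linarith
  calc D * (Q : ℝ) ^ (33 / 40 : ℝ) * Real.log Q ^ 3
      ≤ (|D| + 1) * (Q : ℝ) ^ (33 / 40 : ℝ) * (1 / (|D| + 1) * (Q : ℝ) ^ (7 / 40 : ℝ)) := by
        refine mul_le_mul h5 h4 (by positivity) (by positivity)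
    _ = (Q : ℝ) ^ (33 / 40 : ℝ) * (Q : ℝ) ^ (7 / 40 : ℝ) := by
        have : |D| + 1 ≠ 0 := by positivity
        field_simp
    _ = Q := by
        rw [← Real.rpow_add hQ0]
        norm_num

end BIGBx

open BIGBx

theorem BIGB_main (h : LSM) : BIGB := by
  intro η hη
  filter_upwards [final_ev (123863040 * 4 ^ 17 / η ^ 16), eventually_ge_atTop 16] with Q hQf hQ
  have hQ' : (16 : ℝ) ≤ Q := by exact_mod_cast hQ
  have hQ0 : (0 : ℝ) < Q := by linarith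
  set lam : ℝ := (Q : ℝ) ^ (1 / 40 : ℝ) with hlam
  have hlam1 : 1 ≤ lam := Real.one_le_rpow (by linarith) (by norm_num)
  have h14 : (2 : ℝ) ≤ (Q : ℝ) ^ (1 / 4 : ℝ) := by
    have h1 : ((16 : ℝ)) ^ (1 / 4 : ℝ) ≤ (Q : ℝ) ^ (1 / 4 : ℝ) :=
      Real.rpow_le_rpow (by norm_num) hQ' (by norm_num)
    have h2 : ((16 : ℝ)) ^ (1 / 4 : ℝ) = 2 := by
      rw [show (16 : ℝ) = 2 ^ (4 : ℝ) by norm_num, ← Real.rpow_mul (by norm_num)]
      norm_num
    linarith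
  have hYf : (Q : ℝ) ^ (1 / 4 : ℝ) < (Y2 Q : ℝ) + 1 := Nat.lt_floor_add_one _
  have hY1 : 1 ≤ Y2 Q := by
    have : (1 : ℝ) < (Y2 Q : ℝ) + 1 := by linarith
    have h2 : (0 : ℝ) < (Y2 Q : ℝ) := by linarith
    exact_mod_cast h2
  have hY1' : (1 : ℝ) ≤ Y2 Q := by exact_mod_cast hY1
  have hY2 : (Q : ℝ) ^ (1 / 4 : ℝ) ≤ 2 * (Y2 Q : ℝ) := by linarith
  have hYQ : (Q : ℝ) ^ 2 ≤ 256 * (Y2 Q : ℝ) ^ 8 := by
    have h1 : ((Q : ℝ) ^ (1 / 4 : ℝ)) ^ 8 ≤ (2 * (Y2 Q : ℝ)) ^ 8 :=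
      pow_le_pow_left₀ (by positivity) hY2 8
    have h2 : ((Q : ℝ) ^ (1 / 4 : ℝ)) ^ 8 = (Q : ℝ) ^ 2 := by
      rw [← Real.rpow_natCast, ← Real.rpow_mul hQ0.le, ← Real.rpow_natCast (Q : ℝ) 2]
      norm_num
    rw [h2] at h1
    calc (Q : ℝ) ^ 2 ≤ (2 * (Y2 Q : ℝ)) ^ 8 := h1
      _ = _ := by ring
  have hXle : (XX Q : ℝ) ≤ Real.exp lam := Nat.floor_le (Real.exp_pos _).le
  have hX1 : 1 ≤ XX Q := by
    unfold XX
    rw [Nat.one_le_floor_iff]
    exact Real.one_le_exp (by positivity)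
  have hXlog : Real.log (XX Q) ≤ lam := by
    have h1 : (0 : ℝ) < XX Q := by exact_mod_cast hX1
    rw [← Real.log_exp lam]
    exact Real.log_le_log h1 hXle
  obtain ⟨J, hJdef⟩ : ∃ J : ℕ, J = ⌈2 * lam⌉₊ + 1 := ⟨_, rfl⟩
  have hJ1 : 1 ≤ J := by omega
  have hJle : (J : ℝ) ≤ 4 * lam := by
    rw [hJdef]
    push_cast
    have := (Nat.ceil_lt_add_one (a := 2 * lam) (by positivity)).le
    linarith
  have hJX : XX Q < 2 ^ J := by
    have h1 : (2 * lam : ℝ) ≤ J := by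
      rw [hJdef]
      push_cast
      have := Nat.le_ceil (2 * lam)
      linarith
    have h2 : Real.exp lam < (2 : ℝ) ^ J := by
      rw [← Real.exp_log (show (0 : ℝ) < 2 ^ J by positivity), Real.exp_lt_exp, Real.log_pow]
      have := Real.log_two_gt_d9
      nlinarith
    have h3 : (XX Q : ℝ) < (2 : ℝ) ^ J := lt_of_le_of_lt hXle h2
    exact_mod_cast h3
  refine (card_bad h hη hY1 (by linarith) hXlog hYQ hJ1 hJX).trans ?_
  refine le_trans ?_ hQf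
  have e1 : (J : ℝ) * (123863040 * lam ^ 16 * (J / η) ^ 16) =
      123863040 / η ^ 16 * ((J : ℝ) ^ 17 * lam ^ 16) := by
    field_simp
  have e2 : 123863040 * 4 ^ 17 / η ^ 16 * (Q : ℝ) ^ (33 / 40 : ℝ) =
      123863040 / η ^ 16 * ((4 * lam) ^ 17 * lam ^ 16) := by
    have h1 : lam ^ 33 = (Q : ℝ) ^ (33 / 40 : ℝ) := by
      rw [hlam, ← Real.rpow_natCast, ← Real.rpow_mul hQ0.le]
      norm_num
    rw [← h1]
    ring
  rw [e1, e2]
  have : (J : ℝ) ^ 17 ≤ (4 * lam) ^ 17 := pow_le_pow_left₀ (Nat.cast_nonneg J) hJle 17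
  gcongr

end Pool.Agent.T2H32.EK
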