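import Pool.Agent.T2H32.EK.Stm

set_option autoImplicit false

namespace Pool.Agent.T2H32.EK

open Finset Filter Topology

namespace CNTx

open Pool.Agent.R852.LK

lemma ch_prod (q : ℕ) (T : Finset ℕ) (hT : T.Nonempty) :
    ∏ p ∈ T, ch q p = ch q (∏ p ∈ T, p) := by
  unfold ch ps
  by_cases ho : Odd q
  · simp only [if_pos ho]
    have key : ∀ S : Finset ℕ, ∏ p ∈ S, ((jacobiSym (p : ℤ) q : ℤ) : ℝ) =
        ((jacobiSym (((∏ p ∈ S, p : ℕ) : ℕ) : ℤ) q : ℤ) : ℝ) := by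
      intro S
      induction S using Finset.induction_on with
      | empty => simp [jacobiSym.one_left]
      | insert a S ha ih =>
        rw [Finset.prod_insert ha, Finset.prod_insert ha, ih, Nat.cast_mul, jacobiSym.mul_left,
          Int.cast_mul]
    exact key T
  · simp only [if_neg ho]
    obtain ⟨p, hp⟩ := hT
    rw [Finset.prod_eq_zero hp (by simp)]
    simp

lemma prod_not_sq (T : Finset ℕ) (hT : T.Nonempty) (hp : ∀ p ∈ T, p.Prime) :
    ¬ IsSquare (∏ p ∈ T, p) := by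
  have hsf : Squarefree (∏ p ∈ T, p) := by
    refine Finset.squarefree_prod_of_pairwise_isCoprime ?_ fun p h => (hp p h).squarefree
    intro a ha b hb hab
    exact Nat.coprime_iff_isRelPrime.1 ((Nat.coprime_primes (hp a ha) (hp b hb)).2 hab)
  rintro ⟨r, hr⟩
  have hu : IsUnit r := hsf r (by rw [hr])
  have r1 : r = 1 := Nat.isUnit_iff.1 hu
  obtain ⟨p, hpT⟩ := hT
  have hd := Finset.dvd_prod_of_mem (fun p : ℕ => p) hpT
  rw [hr, r1] at hd
  exact (hp p hpT).one_lt.ne' (Nat.dvd_one.1 (by simpa using hd))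

lemma WW_eq (z : ℕ) (e : ℕ → ℝ) (q : ℕ) : WW z e q =
    ∑ T ∈ (Pr z).powerset, (∏ p ∈ T, e p) * ∏ p ∈ T, ch q p := by
  unfold WW
  rw [Finset.prod_one_add]
  exact Finset.sum_congr rfl fun T _ => Finset.prod_mul_distrib

lemma sum_eq (z : ℕ) (e : ℕ → ℝ) (Q : ℕ) : ∑ q ∈ Pr Q, Real.log q * WW z e q =
    ∑ q ∈ Pr Q, Real.log q + ∑ T ∈ (Pr z).powerset.erase ∅,
      (∏ p ∈ T, e p) * ∑ q ∈ Pr Q, ch q (∏ p ∈ T, p) * Real.log q := by
  have h1 : ∑ q ∈ Pr Q, Real.log q * WW z e q =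
      ∑ T ∈ (Pr z).powerset, ∑ q ∈ Pr Q, Real.log q * ((∏ p ∈ T, e p) * ∏ p ∈ T, ch q p) := by
    rw [Finset.sum_comm]
    refine Finset.sum_congr rfl fun q _ => ?_
    rw [WW_eq, Finset.mul_sum]
  rw [h1, ← Finset.add_sum_erase _ _ (Finset.empty_mem_powerset (Pr z))]
  congr 1
  · simp
  · refine Finset.sum_congr rfl fun T hT => ?_
    have hne : T.Nonempty := Finset.nonempty_iff_ne_empty.2 (Finset.mem_erase.1 hT).1
    rw [Finset.mul_sum]
    refine Finset.sum_congr rfl fun q _ => ?_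
    rw [ch_prod q T hne]; ring

lemma abs_e {e : ℕ → ℝ} (he : Sg e) (T : Finset ℕ) : |∏ p ∈ T, e p| = 1 := by
  rw [Finset.abs_prod]
  refine Finset.prod_eq_one fun p _ => ?_
  rcases he p with h | h <;> simp [h]

lemma theta_eq (Q : ℕ) : ∑ q ∈ Pr Q, Real.log q = Chebyshev.theta Q := by
  unfold Chebyshev.theta Pr
  rw [Nat.floor_natCast]
  refine Finset.sum_congr ?_ fun _ _ => rfl
  ext p
  simp only [Finset.mem_filter, Finset.mem_Icc, Finset.mem_Ioc]
  constructor <;> rintro ⟨⟨h1, h2⟩, h3⟩ <;> exact ⟨⟨by omega, h2⟩, h3⟩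

lemma theta_low : ∀ᶠ Q : ℕ in atTop, 3 / 10 * (Q : ℝ) ≤ Chebyshev.theta Q := by
  have h1 : ∀ᶠ x : ℝ in atTop, Real.log x ≤ 1 / 10 * Real.sqrt x := by
    filter_upwards [(isLittleO_log_rpow_atTop (show (0:ℝ) < 1 / 2 by norm_num)).bound
      (show (0:ℝ) < 1 / 10 by norm_num), eventually_ge_atTop (1:ℝ)] with x hx hx1
    rw [Real.norm_of_nonneg (Real.log_nonneg hx1), Real.norm_of_nonneg (by positivity),
      ← Real.sqrt_eq_rpow] at hx
    exact hx
  filter_upwards [tendsto_natCast_atTop_atTop.eventually h1, eventually_ge_atTop 100] with Q h2 h3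
  have hQ : (100:ℝ) ≤ Q := by exact_mod_cast h3
  have h4 := Chebyshev.theta_ge Q
  have h5 : Real.log ((Q:ℝ) + 1) ≤ Real.log 2 + Real.log Q := by
    rw [← Real.log_mul (by norm_num) (by linarith)]
    exact Real.log_le_log (by linarith) (by linarith)
  have h6 := Real.log_two_gt_d9
  have h7 := Real.log_two_lt_d9
  have hs : Real.sqrt Q * Real.sqrt Q = Q := Real.mul_self_sqrt (by linarith)
  have hs10 : 10 ≤ Real.sqrt Q := by
    rw [Real.le_sqrt (by norm_num) (by linarith)]; linarith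
  have h8 : Real.sqrt Q * Real.log Q ≤ Real.sqrt Q * (1 / 10 * Real.sqrt Q) :=
    mul_le_mul_of_nonneg_left h2 (by linarith)
  nlinarith

end CNTx

open CNTx in
theorem CNT_main (h : SYB) : CNT := by
  intro z e he
  obtain ⟨n1, hn1⟩ := h 1 1
  set K : ℝ := ((Pr z).powerset.card : ℝ) with hK
  have hlog : Tendsto (fun Q : ℕ => Real.log (Q : ℝ)) atTop atTop :=
    Real.tendsto_log_atTop.comp tendsto_natCast_atTop_atTop
  have ev1 : ∀ᶠ Q : ℕ in atTop, ∀ T ∈ (Pr z).powerset,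
      (4 * ((∏ p ∈ T, p : ℕ) : ℝ)) ≤ Real.log Q := by
    rw [Finset.eventually_all]
    intro T _
    exact hlog.eventually_ge_atTop _
  filter_upwards [ev1, eventually_ge_atTop n1, hlog.eventually_ge_atTop (K * 13 * 20),
    hlog.eventually_gt_atTop 0, theta_low, eventually_ge_atTop 1] with Q a1 a2 a3 a4 a5 a6
  have hQ1 : (1:ℝ) ≤ Q := by exact_mod_cast a6
  have hterm : ∀ T ∈ (Pr z).powerset.erase ∅,
      |(∏ p ∈ T, e p) * ∑ q ∈ Pr Q, ch q (∏ p ∈ T, p) * Real.log q| ≤ 13 * Q / Real.log Q := by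
    intro T hT
    have hT1 := (Finset.mem_erase.1 hT).1
    have hT2 := (Finset.mem_erase.1 hT).2
    have hpr : ∀ p ∈ T, p.Prime := fun p hp =>
      (Finset.mem_filter.1 (Finset.mem_powerset.1 hT2 hp)).2
    have hne : T.Nonempty := Finset.nonempty_iff_ne_empty.2 hT1
    rw [abs_mul, abs_e he, one_mul]
    have := hn1 Q a2 (∏ p ∈ T, p) (Finset.prod_pos fun p hp => (hpr p hp).pos)
      (prod_not_sq T hne hpr) (by rw [pow_one]; exact a1 T hT2)
    rwa [pow_one] at this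
  have hsum : |∑ T ∈ (Pr z).powerset.erase ∅,
      (∏ p ∈ T, e p) * ∑ q ∈ Pr Q, ch q (∏ p ∈ T, p) * Real.log q| ≤ Q / 20 := by
    refine (Finset.abs_sum_le_sum_abs _ _).trans ((Finset.sum_le_sum hterm).trans ?_)
    rw [Finset.sum_const, nsmul_eq_mul]
    have hc : (((Pr z).powerset.erase ∅).card : ℝ) ≤ K := by
      rw [hK]; exact_mod_cast Finset.card_le_card (Finset.erase_subset _ _)
    have hpos : 0 ≤ 13 * (Q:ℝ) / Real.log Q := by positivity
    refine (mul_le_mul_of_nonneg_right hc hpos).trans ?_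
    rw [← mul_div_assoc, div_le_iff₀ a4]
    nlinarith
  rw [sum_eq, theta_eq]
  have h1 := abs_le.1 hsum
  have h2 := Chebyshev.theta_le_log4_mul_x (x := (Q:ℝ)) (by linarith)
  have h3 : Real.log 4 ≤ 1.39 := by
    rw [show (4:ℝ) = 2 ^ 2 by norm_num, Real.log_pow]
    have := Real.log_two_lt_d9
    push_cast
    linarith
  constructor
  · linarith [h1.1]
  · nlinarith [h1.2]

end Pool.Agent.T2H32.EK
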