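import Pool.Agent.T2H32.EK.Stm

/-!
# EK, package DER: the derivative of the sum of the logarithms of the local factors
-/

set_option autoImplicit false

namespace Pool.Agent.T2H32.EK

open Finset Filter Topology

namespace DERx

theorem xx_pos {p : ℕ} (hp : 2 ≤ p) (s : ℝ) : 0 < xx p s := by
  unfold xx
  have : (0 : ℝ) < p := by exact_mod_cast (by omega : 0 < p)
  positivity

theorem xx_half {p : ℕ} (hp : 2 ≤ p) {s : ℝ} (hs : 1 ≤ s) : xx p s ≤ 1 / 2 := by
  unfold xx
  have h1 : (2 : ℝ) ≤ p := by exact_mod_cast hp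
  have h2 : (p : ℝ) ^ (-s) ≤ (p : ℝ) ^ (-1 : ℝ) :=
    Real.rpow_le_rpow_of_exponent_le (by linarith) (by linarith)
  rw [Real.rpow_neg_one] at h2
  have h3 : (p : ℝ)⁻¹ ≤ 2⁻¹ := by
    rw [inv_le_inv₀ (by linarith) (by norm_num)]
    exact h1
  linarith

theorem hd_xx {p : ℕ} (hp : 2 ≤ p) (s : ℝ) :
    HasDerivAt (fun s => xx p s) (-(Real.log p) * xx p s) s := by
  have h0 : (0 : ℝ) < p := by exact_mod_cast (by omega : 0 < p)
  have h := HasDerivAt.const_rpow h0 (hasDerivAt_neg s)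
  unfold xx
  convert h using 1
  ring

theorem pow_le_self {x : ℝ} (h0 : 0 < x) (h1 : x ≤ 1 / 2) {m : ℕ} (hm : 1 ≤ m) : x ^ m ≤ x := by
  obtain ⟨j, rfl⟩ := Nat.exists_eq_add_of_le hm
  rw [pow_add, pow_one]
  have : x ^ j ≤ 1 := pow_le_one₀ h0.le (by linarith)
  nlinarith

theorem hd_log {p : ℕ} (hp : 2 ≤ p) {s : ℝ} (hs : 1 ≤ s) {m : ℕ} (hm : 1 ≤ m) :
    HasDerivAt (fun s => Real.log (1 - xx p s ^ m))
      (Real.log p * ((m : ℝ) * xx p s ^ m / (1 - xx p s ^ m))) s := by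
  have hx := xx_pos hp s
  have hx2 := xx_half hp hs
  have hm1 := pow_le_self hx hx2 hm
  have hne : 1 - xx p s ^ m ≠ 0 := by
    have : 0 < 1 - xx p s ^ m := by linarith
    exact this.ne'
  have h : HasDerivAt (fun s => Real.log (1 - xx p s ^ m)) _ s :=
    (((hd_xx hp s).pow m).const_sub 1).log hne
  refine h.congr_deriv ?_
  obtain ⟨j, rfl⟩ := Nat.exists_eq_add_of_le hm
  rw [show 1 + j - 1 = j by omega]
  have e : xx p s ^ (1 + j) = xx p s ^ j * xx p s := by rw [add_comm, pow_succ]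
  show -(((1 + j : ℕ) : ℝ) * xx p s ^ j * (-Real.log p * xx p s)) / (1 - xx p s ^ (1 + j)) = _
  rw [mul_div_assoc', div_eq_div_iff hne hne, e]
  ring

theorem frac_le {x : ℝ} (h0 : 0 < x) (h1 : x ≤ 1 / 2) {m : ℕ} (hm : 1 ≤ m) :
    0 ≤ x ^ m / (1 - x ^ m) ∧ x ^ m / (1 - x ^ m) ≤ 2 * x := by
  have hm1 := pow_le_self h0 h1 hm
  have hm0 : 0 < x ^ m := pow_pos h0 m
  have hp : 0 < 1 - x ^ m := by linarith
  refine ⟨by positivity, ?_⟩
  rw [div_le_iff₀ hp]
  nlinarith

theorem log_le {x : ℝ} (h0 : 0 < x) (h1 : x ≤ 1 / 2) {m : ℕ} (hm : 1 ≤ m) :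
    |Real.log (1 - x ^ m)| ≤ 2 * x := by
  have hm1 := pow_le_self h0 h1 hm
  have hm0 : 0 < x ^ m := pow_pos h0 m
  have hp : 0 < 1 - x ^ m := by linarith
  have hneg : Real.log (1 - x ^ m) ≤ 0 := Real.log_nonpos hp.le (by linarith)
  rw [abs_of_nonpos hneg, ← Real.log_inv]
  have h2 := Real.log_le_sub_one_of_pos (inv_pos.2 hp)
  have h3 : (1 - x ^ m)⁻¹ - 1 = x ^ m / (1 - x ^ m) := by
    field_simp
    ring
  rw [h3] at h2
  exact h2.trans (frac_le h0 h1 hm).2

theorem hd_GG {q p : ℕ} (hq : 2 ≤ q) (hp : 2 ≤ p) {s : ℝ} (hs : 1 ≤ s) :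
    HasDerivAt (fun s => GG q p s) (-(Real.log p * RR q p s)) s := by
  unfold GG RR
  split_ifs with h1 h2
  · have a := hd_log hp hs (m := q - 1) (by omega)
    have b := hd_log hp hs (m := 1) le_rfl
    have c := hd_log hp hs (m := q) (by omega)
    simp only [pow_one] at b
    have h : HasDerivAt (fun s => Real.log (1 - xx p s ^ (q - 1)) - Real.log (1 - xx p s) -
      Real.log (1 - xx p s ^ q)) _ s := (a.sub b).sub c
    refine h.congr_deriv ?_
    rw [Nat.cast_sub (by omega : 1 ≤ q)]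
    push_cast
    ring
  · have h : HasDerivAt (fun s => -Real.log (1 - xx p s ^ 2)) _ s :=
      (hd_log hp hs (m := 2) (by norm_num)).neg
    refine h.congr_deriv ?_
    push_cast
    ring
  · have a := hd_log hp hs (m := 1) le_rfl
    simp only [pow_one] at a
    have h : HasDerivAt (fun s => -Real.log (1 - xx p s)) _ s := a.neg
    refine h.congr_deriv ?_
    push_cast
    ring

theorem RR_le {q p : ℕ} (hq : 2 ≤ q) (hp : 2 ≤ p) {s : ℝ} (hs : 1 ≤ s) :
    |RR q p s| ≤ (4 * q + 4) * xx p s := by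
  have hx := xx_pos hp s
  have hx2 := xx_half hp hs
  have hq' : (2 : ℝ) ≤ q := by exact_mod_cast hq
  unfold RR
  split_ifs with h1 h2
  · have a := frac_le hx hx2 (m := q - 1) (by omega)
    have b := frac_le hx hx2 (m := 1) le_rfl
    have c := frac_le hx hx2 (m := q) (by omega)
    rw [pow_one] at b
    rw [mul_div_assoc, mul_div_assoc]
    set A := xx p s ^ (q - 1) / (1 - xx p s ^ (q - 1))
    set B := xx p s / (1 - xx p s)
    set C := xx p s ^ q / (1 - xx p s ^ q)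
    have a1 : 0 ≤ ((q : ℝ) - 1) * A := mul_nonneg (by linarith) a.1
    have a2 : ((q : ℝ) - 1) * A ≤ ((q : ℝ) - 1) * (2 * xx p s) :=
      mul_le_mul_of_nonneg_left a.2 (by linarith)
    have c1 : 0 ≤ (q : ℝ) * C := mul_nonneg (by linarith) c.1
    have c2 : (q : ℝ) * C ≤ (q : ℝ) * (2 * xx p s) := mul_le_mul_of_nonneg_left c.2 (by linarith)
    rw [abs_le]
    constructor <;> nlinarith
  · have a := frac_le hx hx2 (m := 2) (by norm_num)
    rw [mul_div_assoc, abs_of_nonneg (mul_nonneg (by norm_num) a.1)]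
    nlinarith [a.2]
  · have b := frac_le hx hx2 (m := 1) le_rfl
    rw [pow_one] at b
    rw [abs_of_nonneg b.1]
    nlinarith [b.2]

theorem GG_le {q p : ℕ} (hq : 2 ≤ q) (hp : 2 ≤ p) {s : ℝ} (hs : 1 ≤ s) :
    |GG q p s| ≤ 6 * xx p s := by
  have hx := xx_pos hp s
  have hx2 := xx_half hp hs
  unfold GG
  split_ifs with h1 h2
  · have a := abs_le.1 (log_le hx hx2 (m := q - 1) (by omega))
    have b := abs_le.1 (log_le hx hx2 (m := 1) le_rfl)
    have c := abs_le.1 (log_le hx hx2 (m := q) (by omega))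
    rw [pow_one] at b
    rw [abs_le]
    constructor <;> linarith
  · have a := log_le hx hx2 (m := 2) (by norm_num)
    rw [abs_neg]
    linarith
  · have b := log_le hx hx2 (m := 1) le_rfl
    rw [pow_one] at b
    rw [abs_neg]
    linarith

theorem summable_log {δ : ℝ} (hδ : 0 < δ) :
    Summable fun p : Nat.Primes => Real.log p * (p : ℝ) ^ (-(1 + δ)) := by
  have h1 : Summable fun p : Nat.Primes => (2 / δ) * (p : ℝ) ^ (-(1 + δ / 2)) :=
    (Nat.Primes.summable_rpow.2 (by linarith)).mul_left _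
  refine Summable.of_nonneg_of_le (fun p => ?_) (fun p => ?_) h1
  · have : (1 : ℝ) ≤ p := by exact_mod_cast p.2.one_le
    exact mul_nonneg (Real.log_nonneg this) (Real.rpow_nonneg (by linarith) _)
  · have hp : (1 : ℝ) ≤ p := by exact_mod_cast p.2.one_le
    have hp0 : (0 : ℝ) < p := by linarith
    have h2 := Real.log_le_rpow_div hp0.le (half_pos hδ)
    calc Real.log p * (p : ℝ) ^ (-(1 + δ)) ≤ ((p : ℝ) ^ (δ / 2) / (δ / 2)) * (p : ℝ) ^ (-(1 + δ)) :=
          mul_le_mul_of_nonneg_right h2 (Real.rpow_nonneg hp0.le _)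
      _ = (2 / δ) * ((p : ℝ) ^ (δ / 2) * (p : ℝ) ^ (-(1 + δ))) := by
          field_simp
      _ = (2 / δ) * (p : ℝ) ^ (-(1 + δ / 2)) := by
          rw [← Real.rpow_add hp0]
          congr 2
          ring

theorem summable_xx {s : ℝ} (hs : 1 < s) : Summable fun p : Nat.Primes => xx p s :=
  Nat.Primes.summable_rpow.2 (by linarith)

end DERx

open DERx in
theorem DER_main : DER := by
  intro q hq _ s hs
  have hq2 : 2 ≤ q := hq.two_le
  set δ : ℝ := (s - 1) / 2 with hδ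
  have hδ0 : 0 < δ := by rw [hδ]; linarith
  have hsum : Summable fun p : Nat.Primes =>
      (4 * (q : ℝ) + 4) * (Real.log p * (p : ℝ) ^ (-(1 + δ))) := (summable_log hδ0).mul_left _
  have hb : ∀ (p : Nat.Primes) (y : ℝ), y ∈ Set.Ioi (1 + δ) →
      ‖-(Real.log p * RR q p y)‖ ≤ (4 * (q : ℝ) + 4) * (Real.log p * (p : ℝ) ^ (-(1 + δ))) := by
    intro p y hy
    have hy' : 1 + δ < y := hy
    have hp : (1 : ℝ) ≤ ((p : ℕ) : ℝ) := by exact_mod_cast p.2.one_le
    have hlog : 0 ≤ Real.log ((p : ℕ) : ℝ) := Real.log_nonneg hp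
    have h1 := RR_le (s := y) hq2 p.2.two_le (by linarith)
    have h2 : xx p y ≤ ((p : ℕ) : ℝ) ^ (-(1 + δ)) :=
      Real.rpow_le_rpow_of_exponent_le hp (by linarith)
    rw [norm_neg, norm_mul, Real.norm_of_nonneg hlog, Real.norm_eq_abs]
    have hq0 : (0 : ℝ) ≤ 4 * q + 4 := by positivity
    calc Real.log ((p : ℕ) : ℝ) * |RR q p y| ≤
          Real.log ((p : ℕ) : ℝ) * ((4 * q + 4) * xx p y) := mul_le_mul_of_nonneg_left h1 hlog
      _ ≤ Real.log ((p : ℕ) : ℝ) * ((4 * q + 4) * ((p : ℕ) : ℝ) ^ (-(1 + δ))) :=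
          mul_le_mul_of_nonneg_left (mul_le_mul_of_nonneg_left h2 hq0) hlog
      _ = _ := by ring
  have hsm : s ∈ Set.Ioi (1 + δ) := by
    show 1 + δ < s
    rw [hδ]; linarith
  have hG : Summable fun p : Nat.Primes => GG q p s := by
    refine Summable.of_norm_bounded (g := fun p : Nat.Primes => 6 * xx p s)
      ((summable_xx hs).mul_left _) fun p => ?_
    rw [Real.norm_eq_abs]
    exact GG_le hq2 p.2.two_le hs.le
  refine ⟨?_, ?_⟩
  · refine Summable.of_norm_bounded hsum fun p => ?_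
    have := hb p s hsm
    rwa [norm_neg] at this
  · have h := hasDerivAt_tsum_of_isPreconnected (g := fun (p : Nat.Primes) (y : ℝ) => GG q p y)
      (g' := fun (p : Nat.Primes) (y : ℝ) => -(Real.log p * RR q p y)) hsum isOpen_Ioi
      isPreconnected_Ioi (fun p y hy => hd_GG hq2 p.2.two_le (by
        have : 1 + δ < y := hy
        linarith)) hb hsm hG hsm
    rwa [tsum_neg] at h

end Pool.Agent.T2H32.EK
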