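import Pool.Agent.T2H32.EK.Stm

/-!
# Package EX
-/

set_option autoImplicit false

namespace Pool.Agent.T2H32.EK

open Finset Filter Topology

namespace EXx

theorem ch_abs (q p : ℕ) : |ch q p| ≤ 1 := by
  unfold ch
  have h := Pool.Agent.R852.LK.ps_abs (p : ℤ) q
  exact_mod_cast h

theorem fac_nonneg {e : ℕ → ℝ} (he : Sg e) (q p : ℕ) : 0 ≤ 1 + e p * ch q p := by
  have h := abs_le.1 (ch_abs q p)
  rcases he p with h1 | h1 <;> rw [h1] <;> linarith [h.1, h.2]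

theorem fac_le {e : ℕ → ℝ} (he : Sg e) (q p : ℕ) : 1 + e p * ch q p ≤ 2 := by
  have h := abs_le.1 (ch_abs q p)
  rcases he p with h1 | h1 <;> rw [h1] <;> linarith [h.1, h.2]

theorem WW_nonneg {e : ℕ → ℝ} (he : Sg e) (z q : ℕ) : 0 ≤ WW z e q :=
  Finset.prod_nonneg fun p _ => fac_nonneg he q p

theorem WW_le {e : ℕ → ℝ} (he : Sg e) (z q : ℕ) : WW z e q ≤ 2 ^ z := by
  unfold WW
  calc ∏ p ∈ Pr z, (1 + e p * ch q p) ≤ ∏ p ∈ Pr z, (2 : ℝ) :=
        Finset.prod_le_prod (fun p _ => fac_nonneg he q p) fun p _ => fac_le he q p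
    _ = 2 ^ (Pr z).card := by rw [Finset.prod_const]
    _ ≤ 2 ^ z := by
        apply pow_le_pow_right₀ (by norm_num)
        calc (Pr z).card ≤ (Icc 1 z).card := Finset.card_filter_le _ _
          _ = z := by simp

theorem TT_add {a b c : ℕ} (hab : a ≤ b) (hbc : b ≤ c) (q : ℕ) :
    TT a c q = TT a b q + TT b c q := by
  unfold TT
  rw [← Finset.sum_union]
  · apply Finset.sum_congr _ fun _ _ => rfl
    ext p
    simp only [Pr, Finset.mem_union, Finset.mem_filter, Finset.mem_Icc]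
    constructor
    · rintro ⟨⟨⟨h1, h2⟩, h3⟩, h4⟩
      by_cases h : p ≤ b
      · exact Or.inl ⟨⟨⟨h1, h⟩, h3⟩, h4⟩
      · exact Or.inr ⟨⟨⟨h1, h2⟩, h3⟩, by omega⟩
    · rintro (⟨⟨⟨h1, h2⟩, h3⟩, h4⟩ | ⟨⟨⟨h1, h2⟩, h3⟩, h4⟩)
      · exact ⟨⟨⟨h1, by omega⟩, h3⟩, h4⟩
      · exact ⟨⟨⟨h1, h2⟩, h3⟩, by omega⟩
  · rw [Finset.disjoint_left]
    intro p hp hp'
    simp only [Pr, Finset.mem_filter, Finset.mem_Icc] at hp hp'
    omega

theorem ch_eq {e : ℕ → ℝ} (he : Sg e) {z q : ℕ} (hq : q.Prime) (hodd : Odd q) (hz : z < q)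
    (hw : WW z e q ≠ 0) : ∀ p ∈ Pr z, ch q p = e p := by
  intro p hp
  have hfac : 1 + e p * ch q p ≠ 0 := by
    intro h
    exact hw (Finset.prod_eq_zero hp h)
  simp only [Pr, Finset.mem_filter, Finset.mem_Icc] at hp
  have hcop : Int.gcd (p : ℤ) q = 1 := by
    rw [Int.gcd_natCast_natCast]
    have h1 : ¬ q ∣ p := fun h => by
      have := Nat.le_of_dvd hp.2.pos h
      omega
    exact (Nat.Coprime.symm ((Nat.Prime.coprime_iff_not_dvd hq).2 h1))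
  have hch : ch q p = 1 ∨ ch q p = -1 := by
    unfold ch Pool.Agent.R852.LK.ps
    rw [if_pos hodd]
    rcases jacobiSym.eq_one_or_neg_one hcop with h | h
    · left; rw [h]; norm_num
    · right; rw [h]; norm_num
  rcases hch with h | h <;> rcases he p with h' | h'
  · rw [h, h']
  · exfalso; apply hfac; rw [h, h']; norm_num
  · exfalso; apply hfac; rw [h, h']; norm_num
  · rw [h, h']

/-! ### asymptotics -/

theorem ev_log (K : ℝ) : ∀ᶠ Q : ℕ in atTop, K ≤ Real.log Q :=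
  (Real.tendsto_log_atTop.comp tendsto_natCast_atTop_atTop).eventually_ge_atTop K

theorem tend_pow {a : ℝ} (ha : 0 < a) : Tendsto (fun Q : ℕ => (Q : ℝ) ^ a) atTop atTop :=
  (tendsto_rpow_atTop ha).comp tendsto_natCast_atTop_atTop

theorem ev_Y1 (z : ℕ) : ∀ᶠ Q : ℕ in atTop, z ≤ Y1 Q := by
  filter_upwards [ev_log (max 1 z)] with Q hQ
  unfold Y1
  apply Nat.le_floor
  have h1 : 1 ≤ Real.log Q := (le_max_left _ _).trans hQ
  have h2 : (z : ℝ) ≤ Real.log Q := (le_max_right _ _).trans hQ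
  calc (z : ℝ) ≤ Real.log Q := h2
    _ = Real.log Q ^ 1 := (pow_one _).symm
    _ ≤ Real.log Q ^ 8 := pow_le_pow_right₀ h1 (by norm_num)

theorem ev_Y12 : ∀ᶠ Q : ℕ in atTop, Y1 Q ≤ Y2 Q := by
  have h1 := (Real.isLittleO_pow_log_id_atTop (n := 8)).def (c := 1 / 4 ^ 8) (by norm_num)
  have h2 := (tend_pow (a := 1 / 4) (by norm_num)).eventually h1
  filter_upwards [h2, eventually_ge_atTop 1] with Q hQ hQ1
  unfold Y1 Y2
  apply Nat.floor_le_floor
  have hQ0 : (0 : ℝ) < Q := by exact_mod_cast hQ1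
  set u : ℝ := (Q : ℝ) ^ (1 / 4 : ℝ) with hu
  have hu0 : 0 < u := Real.rpow_pos_of_pos hQ0 _
  have hlog : Real.log u = 1 / 4 * Real.log Q := Real.log_rpow hQ0 _
  have h3 : Real.log Q = 4 * Real.log u := by rw [hlog]; ring
  rw [h3, mul_pow]
  simp only [id, Real.norm_eq_abs] at hQ
  have h4 : Real.log u ^ 8 ≤ 1 / 4 ^ 8 * u := by
    have h5 := le_abs_self (Real.log u ^ 8)
    rw [abs_of_pos hu0] at hQ
    linarith
  calc (4 : ℝ) ^ 8 * Real.log u ^ 8 ≤ 4 ^ 8 * (1 / 4 ^ 8 * u) :=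
        mul_le_mul_of_nonneg_left h4 (by norm_num)
    _ = u := by ring

theorem ev_Y2X : ∀ᶠ Q : ℕ in atTop, Y2 Q ≤ XX Q := by
  have h1 := (Real.isLittleO_pow_exp_atTop (n := 10)).def (c := 1) (by norm_num)
  have h2 := (tend_pow (a := 1 / 40) (by norm_num)).eventually h1
  filter_upwards [h2, eventually_ge_atTop 1] with Q hQ hQ1
  unfold Y2 XX
  apply Nat.floor_le_floor
  have hQ0 : (0 : ℝ) < Q := by exact_mod_cast hQ1
  set u : ℝ := (Q : ℝ) ^ (1 / 40 : ℝ) with hu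
  have hu0 : 0 < u := Real.rpow_pos_of_pos hQ0 _
  have h3 : (Q : ℝ) ^ (1 / 4 : ℝ) = u ^ 10 := by
    rw [hu, ← Real.rpow_natCast, ← Real.rpow_mul hQ0.le]
    norm_num
  rw [h3]
  simp only [Real.norm_eq_abs, one_mul] at hQ
  rw [abs_of_pos (by positivity), abs_of_pos (Real.exp_pos _)] at hQ
  exact hQ

theorem ev_sqrt (z : ℕ) : ∀ᶠ Q : ℕ in atTop,
    ((Nat.sqrt Q : ℝ) + (z + 2)) * (2 ^ z * Real.log Q) ≤ Q / 32 := by
  have h1 := (tend_pow (a := 1 / 4) (by norm_num)).eventually_ge_atTop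
    (max (z + 2) (256 * 2 ^ z : ℝ))
  filter_upwards [h1, eventually_ge_atTop 1] with Q hQ hQ1
  have hQ0 : (0 : ℝ) < Q := by exact_mod_cast hQ1
  set u : ℝ := (Q : ℝ) ^ (1 / 4 : ℝ) with hu
  have hu0 : 0 < u := Real.rpow_pos_of_pos hQ0 _
  have hQu : (Q : ℝ) = u ^ 4 := by
    rw [hu, ← Real.rpow_natCast, ← Real.rpow_mul hQ0.le]
    norm_num
  have ha : (z : ℝ) + 2 ≤ u := (le_max_left _ _).trans hQ
  have hb : 256 * (2 : ℝ) ^ z ≤ u := (le_max_right _ _).trans hQ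
  have hz0 : (0 : ℝ) ≤ z := Nat.cast_nonneg z
  have hu1 : 1 ≤ u := by linarith
  have hsq : (Nat.sqrt Q : ℝ) ≤ u ^ 2 := by
    have h2 : ((Nat.sqrt Q * Nat.sqrt Q : ℕ) : ℝ) ≤ Q := by exact_mod_cast Nat.sqrt_le Q
    push_cast at h2
    rw [hQu] at h2
    have h3 : (0 : ℝ) ≤ Nat.sqrt Q := Nat.cast_nonneg _
    have h4 : (Nat.sqrt Q : ℝ) ^ 2 ≤ (u ^ 2) ^ 2 := by nlinarith
    exact (pow_le_pow_iff_left₀ h3 (by positivity) two_ne_zero).1 h4
  have hlog : Real.log Q ≤ 4 * u := by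
    rw [hQu, Real.log_pow]
    have := Real.log_le_sub_one_of_pos hu0
    push_cast
    linarith
  have hlog0 : 0 ≤ Real.log Q := Real.log_nonneg (by exact_mod_cast hQ1)
  have h5 : (Nat.sqrt Q : ℝ) + (z + 2) ≤ 2 * u ^ 2 := by nlinarith
  calc ((Nat.sqrt Q : ℝ) + (z + 2)) * (2 ^ z * Real.log Q)
      ≤ (2 * u ^ 2) * (2 ^ z * (4 * u)) := by
        apply mul_le_mul h5 _ (by positivity) (by positivity)
        exact mul_le_mul_of_nonneg_left hlog (by positivity)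
    _ = (256 * 2 ^ z) * u ^ 3 / 32 := by ring
    _ ≤ u * u ^ 3 / 32 := by
        apply div_le_div_of_nonneg_right _ (by norm_num)
        exact mul_le_mul_of_nonneg_right hb (by positivity)
    _ = Q / 32 := by rw [hQu]; ring

theorem ev_cube (z : ℕ) : ∀ᶠ Q : ℕ in atTop,
    (Q : ℝ) / Real.log Q ^ 3 * (2 ^ z * Real.log Q) ≤ Q / 32 := by
  filter_upwards [ev_log (32 * 2 ^ z), eventually_ge_atTop 1] with Q hQ hQ1
  have hQ0 : (0 : ℝ) < Q := by exact_mod_cast hQ1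
  have h1 : (1 : ℝ) ≤ 2 ^ z := one_le_pow₀ (by norm_num)
  have h2 : (1 : ℝ) ≤ Real.log Q := by linarith
  have h3 : 0 < Real.log Q := by linarith
  have h4 : (32 : ℝ) * 2 ^ z ≤ Real.log Q ^ 2 := by nlinarith
  have e : (Q : ℝ) / Real.log Q ^ 3 * (2 ^ z * Real.log Q) = Q * (2 ^ z / Real.log Q ^ 2) := by
    field_simp
  rw [e, div_eq_mul_inv (Q : ℝ) 32]
  apply mul_le_mul_of_nonneg_left _ hQ0.le
  rw [div_le_iff₀ (by positivity)]
  linarith

theorem card_small (z Q : ℕ) :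
    (((Pr Q).filter (fun q => q ^ 2 ≤ Q ∨ q ≤ z + 2)).card : ℝ) ≤ (Nat.sqrt Q : ℝ) + (z + 2) := by
  have h : ((Pr Q).filter (fun q => q ^ 2 ≤ Q ∨ q ≤ z + 2)) ⊆
      Icc 1 (Nat.sqrt Q) ∪ Icc 1 (z + 2) := by
    intro q hq
    simp only [Pr, Finset.mem_filter, Finset.mem_Icc, Finset.mem_union] at hq ⊢
    rcases hq.2 with h | h
    · left
      refine ⟨hq.1.1.1, ?_⟩
      rw [Nat.le_sqrt']
      exact h
    · right
      exact ⟨hq.1.1.1, h⟩
  have h1 := (Finset.card_le_card h).trans (Finset.card_union_le _ _)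
  rw [Nat.card_Icc, Nat.card_Icc] at h1
  have h2 : ((Pr Q).filter (fun q => q ^ 2 ≤ Q ∨ q ≤ z + 2)).card ≤ Nat.sqrt Q + (z + 2) := by
    omega
  exact_mod_cast h2

end EXx

open EXx in
theorem EX_main (h1 : CNT) (h2 : MED) (h3 : BIGA) (h4 : BIGB) : EX := by
  intro η hη
  obtain ⟨C, hC, hmed⟩ := h2
  set κ : ℝ := η / 3 with hκ
  have hκ0 : 0 < κ := by positivity
  obtain ⟨z₁, hz₁⟩ := exists_nat_ge ((32 * C / κ ^ 2) ^ 2)
  refine ⟨z₁ + 1, ?_⟩
  intro z hz e he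
  have hz1 : 1 ≤ z := by omega
  have hzr : (32 * C / κ ^ 2) ^ 2 ≤ z := hz₁.trans (by exact_mod_cast (by omega : z₁ ≤ z))
  have hsz : 32 * C / κ ^ 2 ≤ √z := Real.le_sqrt_of_sq_le hzr
  have hsz0 : 0 < √(z : ℝ) := Real.sqrt_pos.2 (by exact_mod_cast hz1)
  have hkey : C / √z / κ ^ 2 ≤ 1 / 32 := by
    rw [div_div, div_le_iff₀ (by positivity)]
    rw [div_le_iff₀ (by positivity)] at hsz
    linarith
  filter_upwards [h1 z e he, hmed z hz1 e he, h3 κ hκ0, h4 κ hκ0, ev_Y1 z, ev_Y12, ev_Y2X,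
    ev_sqrt z, ev_cube z, eventually_ge_atTop 2] with Q hcnt hmedQ hA hB hY1 hY12 hY2X hsq hcu hQ2
  have hQ0 : (0 : ℝ) < Q := by
    have : 0 < Q := by omega
    exact_mod_cast this
  have hlQ : 0 ≤ Real.log Q := Real.log_nonneg (by exact_mod_cast (by omega : 1 ≤ Q))
  set w : ℕ → ℝ := fun q => Real.log q * WW z e q with hw
  have hw0 : ∀ q, 0 ≤ w q := fun q => mul_nonneg (Real.log_natCast_nonneg q) (WW_nonneg he z q)
  have hwle : ∀ q ∈ Pr Q, w q ≤ 2 ^ z * Real.log Q := by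
    intro q hq
    simp only [Pr, Finset.mem_filter, Finset.mem_Icc] at hq
    have hq0 : (0 : ℝ) < q := by exact_mod_cast hq.2.pos
    have hlog : Real.log q ≤ Real.log Q := Real.log_le_log hq0 (by exact_mod_cast hq.1.2)
    calc w q ≤ Real.log Q * 2 ^ z :=
          mul_le_mul hlog (WW_le he z q) (WW_nonneg he z q) hlQ
      _ = _ := mul_comm _ _
  have hbound : ∀ (Pp : ℕ → Prop) [DecidablePred Pp] (N : ℝ), (((Pr Q).filter Pp).card : ℝ) ≤ N →
      ∑ q ∈ (Pr Q).filter Pp, w q ≤ N * (2 ^ z * Real.log Q) := by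
    intro Pp _ N hN
    calc ∑ q ∈ (Pr Q).filter Pp, w q ≤ ∑ q ∈ (Pr Q).filter Pp, (2 ^ z * Real.log Q) :=
          Finset.sum_le_sum fun q hq => hwle q (Finset.mem_filter.1 hq).1
      _ = (((Pr Q).filter Pp).card : ℝ) * (2 ^ z * Real.log Q) := by
          rw [Finset.sum_const, nsmul_eq_mul]
      _ ≤ N * (2 ^ z * Real.log Q) := mul_le_mul_of_nonneg_right hN (by positivity)
  by_contra hcon
  push Not at hcon
  -- every prime with positive weight is bad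
  have hbad : ∀ q ∈ Pr Q, w q ≤
      (if κ < |TT z (Y1 Q) q| then w q else 0) + (if κ < |TT (Y1 Q) (Y2 Q) q| then w q else 0) +
      (if κ < |TT (Y2 Q) (XX Q) q| then w q else 0) +
      (if q ^ 2 ≤ Q ∨ q ≤ z + 2 then w q else 0) := by
    intro q hq
    by_cases c1 : κ < |TT z (Y1 Q) q|
    · rw [if_pos c1]
      have := hw0 q
      split_ifs <;> linarith
    by_cases c2 : κ < |TT (Y1 Q) (Y2 Q) q|
    · rw [if_pos c2]
      have := hw0 q
      split_ifs <;> linarith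
    by_cases c3 : κ < |TT (Y2 Q) (XX Q) q|
    · rw [if_pos c3]
      have := hw0 q
      split_ifs <;> linarith
    by_cases c4 : q ^ 2 ≤ Q ∨ q ≤ z + 2
    · rw [if_pos c4]
      have := hw0 q
      split_ifs <;> linarith
    rw [if_neg c1, if_neg c2, if_neg c3, if_neg c4]
    by_contra hpos
    push Not at c4
    have hq' := hq
    simp only [Pr, Finset.mem_filter, Finset.mem_Icc] at hq'
    have hodd : Odd q := hq'.2.odd_of_ne_two (by omega)
    have hzq : z < q := by omega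
    have hWne : WW z e q ≠ 0 := by
      intro h0
      apply hpos
      simp only [hw, h0, mul_zero]
      norm_num
    have h := hcon q hq'.2 hodd hq'.1.2 c4.1 hzq (ch_eq he hq'.2 hodd hzq hWne)
    rw [TT_add hY1 (hY12.trans hY2X) q, TT_add hY12 hY2X q] at h
    have e1 := abs_add_le (TT z (Y1 Q) q) (TT (Y1 Q) (Y2 Q) q + TT (Y2 Q) (XX Q) q)
    have e2 := abs_add_le (TT (Y1 Q) (Y2 Q) q) (TT (Y2 Q) (XX Q) q)
    have e3 : η = κ + κ + κ := by rw [hκ]; ring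
    linarith
  have hsum := Finset.sum_le_sum hbad
  rw [Finset.sum_add_distrib, Finset.sum_add_distrib, Finset.sum_add_distrib,
    ← Finset.sum_filter, ← Finset.sum_filter, ← Finset.sum_filter, ← Finset.sum_filter] at hsum
  have b1 : ∑ q ∈ (Pr Q).filter (fun q => κ < |TT z (Y1 Q) q|), w q ≤ Q / 32 := by
    have e1 : ∑ q ∈ (Pr Q).filter (fun q => κ < |TT z (Y1 Q) q|), w q ≤
        ∑ q ∈ Pr Q, w q * TT z (Y1 Q) q ^ 2 / κ ^ 2 := by
      rw [Finset.sum_filter]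
      apply Finset.sum_le_sum
      intro q _
      split_ifs with hc
      · rw [le_div_iff₀ (by positivity)]
        apply mul_le_mul_of_nonneg_left _ (hw0 q)
        rw [← sq_abs (TT z (Y1 Q) q)]
        exact pow_le_pow_left₀ hκ0.le hc.le 2
      · exact div_nonneg (mul_nonneg (hw0 q) (sq_nonneg _)) (by positivity)
    rw [← Finset.sum_div] at e1
    have e2 : (∑ q ∈ Pr Q, w q * TT z (Y1 Q) q ^ 2) / κ ^ 2 ≤ (C * Q / √z) / κ ^ 2 :=
      div_le_div_of_nonneg_right hmedQ (by positivity)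
    have e3 : (C * Q / √z) / κ ^ 2 = Q * (C / √z / κ ^ 2) := by ring
    have e4 : Q * (C / √z / κ ^ 2) ≤ Q * (1 / 32) := mul_le_mul_of_nonneg_left hkey hQ0.le
    linarith
  have b2 := hbound (fun q => κ < |TT (Y1 Q) (Y2 Q) q|) _ hA
  have b3 := hbound (fun q => κ < |TT (Y2 Q) (XX Q) q|) _ hB
  have b4 := hbound (fun q => q ^ 2 ≤ Q ∨ q ≤ z + 2) _ (card_small z Q)
  have hc1 := hcnt.1
  have hcw : ∑ q ∈ Pr Q, Real.log q * WW z e q = ∑ q ∈ Pr Q, w q := rfl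
  rw [hcw] at hc1
  linarith

end Pool.Agent.T2H32.EK
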