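import Pool.Agent.T2H32.EK.Stm

set_option autoImplicit false

namespace Pool.Agent.T2H32.EK

open Finset Filter Topology

namespace GREx

theorem sum_Pr_succ (g : ℕ → ℝ) (n : ℕ) :
    ∑ p ∈ Pr (n + 1), g p = ∑ p ∈ Pr n, g p + if (n + 1).Prime then g (n + 1) else 0 := by
  unfold Pr
  rw [Finset.sum_filter, Finset.sum_filter, Finset.sum_Icc_succ_top (by omega)]

theorem cross (S : ℕ → ℝ) (c δ : ℝ) (hδ : 0 < δ) (z1 : ℕ) (h0 : S z1 ≤ c)
    (hstep : ∀ n, z1 ≤ n → |S (n + 1) - S n| < δ) (hunb : ∃ n, z1 ≤ n ∧ c ≤ S n) :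
    ∃ z, z1 ≤ z ∧ |S z - c| < δ := by
  classical
  let n := Nat.find hunb
  obtain ⟨hn1, hn2⟩ : z1 ≤ n ∧ c ≤ S n := Nat.find_spec hunb
  refine ⟨n, hn1, ?_⟩
  rcases Nat.eq_or_lt_of_le hn1 with h | h
  · have : S n = c := by
      rw [← h] at hn2 ⊢
      exact le_antisymm h0 hn2
    rw [this, sub_self, abs_zero]
    exact hδ
  · obtain ⟨m, hm⟩ : ∃ m, n = m + 1 := ⟨n - 1, by omega⟩
    have h1 : ¬ (z1 ≤ m ∧ c ≤ S m) := Nat.find_min hunb (show m < n by omega)
    have h2 : z1 ≤ m := by omega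
    have h3 : S m < c := by
      by_contra h4
      exact h1 ⟨h2, not_lt.1 h4⟩
    have h4 := hstep m h2
    rw [← hm] at h4
    rw [abs_lt] at h4 ⊢
    constructor <;> linarith

theorem small (δ : ℝ) (hδ : 0 < δ) : ∃ N : ℕ, ∀ p : ℕ, N ≤ p → |tt p 1| < δ ∧ |tt p (-1)| < δ := by
  have h1 : Tendsto (fun p : ℕ => 2 / Real.sqrt p) atTop (𝓝 0) := by
    have h2 : Tendsto (fun p : ℕ => Real.sqrt (p : ℝ)) atTop atTop :=
      Real.tendsto_sqrt_atTop.comp tendsto_natCast_atTop_atTop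
    exact h2.const_div_atTop 2
  obtain ⟨N, hN⟩ := (h1.eventually (gt_mem_nhds hδ)).exists_forall_of_atTop
  refine ⟨max N 2, fun p hp => ?_⟩
  have hp1 : N ≤ p := (le_max_left _ _).trans hp
  have hp2 : 2 ≤ p := (le_max_right _ _).trans hp
  have hpr : (2 : ℝ) ≤ p := by exact_mod_cast hp2
  have h3 : 2 / Real.sqrt p < δ := hN p hp1
  have hlog0 : 0 ≤ Real.log p := Real.log_nonneg (by linarith)
  have hs : Real.sqrt p * Real.sqrt p = p := Real.mul_self_sqrt (by linarith)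
  have hs0 : 0 < Real.sqrt p := Real.sqrt_pos.2 (by linarith)
  have hlog : Real.log p ≤ 2 * Real.sqrt p := by
    have := Real.log_le_rpow_div (x := (p : ℝ)) (ε := 1 / 2) (by linarith) (by norm_num)
    rw [← Real.sqrt_eq_rpow] at this
    linarith
  have h4 : Real.log p / p ≤ 2 / Real.sqrt p := by
    rw [div_le_div_iff₀ (by linarith) hs0]
    nlinarith
  constructor
  · unfold tt
    rw [if_pos rfl, abs_of_nonneg (div_nonneg hlog0 (by linarith))]
    refine lt_of_le_of_lt ?_ h3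
    refine le_trans ?_ h4
    exact div_le_div_of_nonneg_left hlog0 (by linarith) (by linarith)
  · unfold tt
    rw [if_neg (by norm_num), abs_div, abs_mul, abs_of_nonneg hlog0]
    refine lt_of_le_of_lt ?_ h3
    refine le_trans ?_ h4
    have h5 : |3 - (p : ℝ)| ≤ p := by
      rw [abs_le]; constructor <;> linarith
    have h6 : (p : ℝ) ^ 2 ≤ |2 * ((p : ℝ) ^ 2 - 1)| := by
      rw [abs_of_nonneg (by nlinarith)]
      nlinarith
    calc Real.log p * |3 - (p : ℝ)| / |2 * ((p : ℝ) ^ 2 - 1)| ≤ Real.log p * p / p ^ 2 := by gcongr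
      _ = Real.log p / p := by field_simp

theorem tt1_low (p : ℕ) (hp : 5 ≤ p) : 1 / 16 * (1 / (p : ℝ)) ≤ tt p 1 := by
  have hpr : (5 : ℝ) ≤ p := by exact_mod_cast hp
  have hlog : 1 ≤ Real.log p := by
    rw [Real.le_log_iff_exp_le (by linarith)]
    linarith [Real.exp_one_lt_d9]
  unfold tt
  rw [if_pos rfl, ← div_eq_mul_one_div, div_div, div_le_div_iff₀ (by positivity) (by linarith)]
  nlinarith

theorem tt2_low (p : ℕ) (hp : 5 ≤ p) : 1 / 16 * (1 / (p : ℝ)) ≤ -tt p (-1) := by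
  have hpr : (5 : ℝ) ≤ p := by exact_mod_cast hp
  have hlog : 1 ≤ Real.log p := by
    rw [Real.le_log_iff_exp_le (by linarith)]
    linarith [Real.exp_one_lt_d9]
  unfold tt
  rw [if_neg (by norm_num), ← neg_div, ← div_eq_mul_one_div, div_div,
    div_le_div_iff₀ (by positivity) (by nlinarith)]
  have h1 : (p : ℝ) - 3 ≤ -(Real.log p * (3 - p)) := by nlinarith
  have h2 : ((p : ℝ) - 3) * (16 * p) ≤ -(Real.log p * (3 - p)) * (16 * p) := by gcongr
  nlinarith

/-- partial sums of `g ≥ 1/(16 p)` are unbounded -/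
theorem unb (g : ℕ → ℝ) (z1 : ℕ) (hg : ∀ p, z1 < p → p.Prime → 1 / 16 * (1 / (p : ℝ)) ≤ g p) (c : ℝ) :
    ∃ n, z1 ≤ n ∧ c ≤ ∑ p ∈ Pr n, g p := by
  set f : ℕ → ℝ := Set.indicator {p : ℕ | p.Prime} (fun n : ℕ => (1 : ℝ) / n) with hf
  have hf0 : ∀ n, 0 ≤ f n := fun n => Set.indicator_nonneg (fun n _ => by positivity) n
  have hF := (not_summable_iff_tendsto_nat_atTop_of_nonneg hf0).1 not_summable_one_div_on_primes
  have hlow : ∀ n, z1 ≤ n → ∑ p ∈ Pr z1, g p + 1 / 16 * (∑ i ∈ range (n + 1), f i -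
      ∑ i ∈ range (z1 + 1), f i) ≤ ∑ p ∈ Pr n, g p := by
    intro n hn
    induction n, hn using Nat.le_induction with
    | base => simp
    | succ n hn ih =>
      rw [sum_Pr_succ, Finset.sum_range_succ]
      by_cases hpr : (n + 1).Prime
      · rw [if_pos hpr]
        have h1 : f (n + 1) = 1 / ((n + 1 : ℕ) : ℝ) := by
          rw [hf]; exact Set.indicator_of_mem (by exact hpr) _
        have h2 := hg (n + 1) (by omega) hpr
        rw [h1]
        linarith
      · rw [if_neg hpr]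
        have h1 : f (n + 1) = 0 := by
          rw [hf]; exact Set.indicator_of_notMem (by exact hpr) _
        rw [h1]
        linarith
  have hF' : Tendsto (fun n => ∑ i ∈ range (n + 1), f i) atTop atTop := hF.comp (tendsto_add_atTop_nat 1)
  obtain ⟨n, hn1, hn2⟩ := ((hF'.eventually_ge_atTop
    (16 * (c - ∑ p ∈ Pr z1, g p) + ∑ i ∈ range (z1 + 1), f i)).and (eventually_ge_atTop z1)).exists
  refine ⟨n, hn2, le_trans ?_ (hlow n hn2)⟩
  linarith

end GREx

open GREx in
theorem GRE_main : GRE := by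
  intro c δ hδ z₀
  obtain ⟨N, hN⟩ := small δ hδ
  set z1 := max z₀ (max N 5) with hz1
  have hz0 : z₀ ≤ z1 := le_max_left _ _
  have hzN : N ≤ z1 := (le_max_left _ _).trans (le_max_right _ _)
  have hz5 : 5 ≤ z1 := (le_max_right _ _).trans (le_max_right _ _)
  by_cases h : ∑ p ∈ Pr z1, tt p 1 ≤ c
  · obtain ⟨z, hz, hz2⟩ := cross (fun z => ∑ p ∈ Pr z, tt p 1) c δ hδ z1 h (by
      intro n hn
      rw [sum_Pr_succ, add_sub_cancel_left]
      split_ifs
      · exact (hN (n + 1) (by omega)).1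
      · simpa using hδ) (unb _ z1 (fun p hp _ => tt1_low p (by omega)) c)
    exact ⟨z, hz0.trans hz, fun _ => 1, fun _ => Or.inl rfl, hz2⟩
  · set e : ℕ → ℝ := fun p => if p ≤ z1 then 1 else -1 with he
    have he1 : ∀ p, z1 < p → e p = -1 := fun p hp => if_neg (by omega)
    have hs1 : ∑ p ∈ Pr z1, tt p (e p) = ∑ p ∈ Pr z1, tt p 1 := by
      refine Finset.sum_congr rfl fun p hp => ?_
      have : p ≤ z1 := (Finset.mem_Icc.1 (Finset.mem_filter.1 hp).1).2
      rw [he]
      simp only [if_pos this]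
    obtain ⟨z, hz, hz2⟩ := cross (fun z => ∑ p ∈ Pr z, -tt p (e p)) (-c) δ hδ z1 (by
      simp only [Finset.sum_neg_distrib]
      rw [hs1]
      linarith) (by
      intro n hn
      rw [sum_Pr_succ, add_sub_cancel_left]
      split_ifs
      · rw [he1 (n + 1) (by omega), abs_neg]
        exact (hN (n + 1) (by omega)).2
      · simpa using hδ) (unb _ z1 (fun p hp _ => by
        rw [he1 p hp]
        exact tt2_low p (by omega)) (-c))
    refine ⟨z, hz0.trans hz, e, fun p => ?_, ?_⟩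
    · rw [he]
      by_cases hp : p ≤ z1
      · left; simp only [if_pos hp]
      · right; simp only [if_neg hp]
    · simp only [Finset.sum_neg_distrib] at hz2
      rw [abs_sub_comm] at hz2
      have : -c - -∑ p ∈ Pr z, tt p (e p) = ∑ p ∈ Pr z, tt p (e p) - c := by ring
      rwa [this] at hz2

end Pool.Agent.T2H32.EK
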