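import Pool.Agent.T2H32.EK.Stm

/-!
# Package LIM
-/

set_option autoImplicit false

namespace Pool.Agent.T2H32.EK

open Finset Filter Topology

namespace LIMx

theorem hh_two (q : ℕ) (hq : q.Prime) (hodd : Odd q) : hh ((q - 1) / 2) q = 2 := by
  obtain ⟨m, rfl⟩ := hodd
  have hm : 0 < m := by
    rcases Nat.eq_zero_or_pos m with h | h
    · subst h
      exact absurd hq (by norm_num)
    · exact h
  unfold hh
  have e1 : 2 * m + 1 - 1 = 2 * m := by omega
  rw [e1]
  have e2 : 2 * m / 2 = m := by omega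
  rw [e2, Nat.gcd_eq_left (Dvd.intro_left 2 rfl)]
  exact Nat.mul_div_cancel 2 hm

theorem ratio (h1 : LOGL) (h2 : DER) (q : ℕ) (hq : q.Prime) (hodd : Odd q) (s : ℝ) (hs : 1 < s) :
    deriv (LL ((q - 1) / 2) q) s / LL ((q - 1) / 2) q s =
      -∑' p : Nat.Primes, Real.log p * RR q p s := by
  have hev : LL ((q - 1) / 2) q =ᶠ[𝓝 s] fun s => Real.exp (∑' p : Nat.Primes, GG q p s) := by
    filter_upwards [isOpen_Ioi.mem_nhds hs] with t ht
    exact (h1 q hq hodd t ht).2
  have hd := ((h2 q hq hodd s hs).2.exp).congr_of_eventuallyEq hev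
  rw [hd.deriv, (h1 q hq hodd s hs).2]
  have hpos := Real.exp_pos (∑' p : Nat.Primes, GG q p s)
  rw [mul_div_assoc, mul_comm, div_mul_cancel₀ _ hpos.ne']

end LIMx

open LIMx in
theorem LIM_main (h1 : LOGL) (h2 : DER) (h3 : ZET) : LIM := by
  intro q hq hodd P S hP hrs hS
  refine ⟨hh_two q hq hodd, ?_⟩
  unfold IsEK
  rw [hh_two q hq hodd]
  have hlim : Tendsto (fun s : ℝ =>
      -(1 / 2) * ((∑' p : Nat.Primes, Real.log p * (xx p s / (1 - xx p s))) - 1 / (s - 1)) -
      (∑' p : Nat.Primes, ch q p * Real.log p * xx p s) / 2 -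
      ∑' p : Nat.Primes, Real.log p * rr q p s) (𝓝[>] 1)
      (𝓝 (-(1 / 2) * (-Real.eulerMascheroniConstant) - P / 2 - S)) :=
    ((h3.2.const_mul (-(1 / 2))).sub (hP.div_const 2)).sub hS
  have e0 : -(1 / 2) * (-Real.eulerMascheroniConstant) - P / 2 - S =
      Real.eulerMascheroniConstant / 2 - P / 2 - S := by ring
  rw [e0] at hlim
  refine hlim.congr' ?_
  filter_upwards [self_mem_nhdsWithin] with s hs
  have hs1 : (1 : ℝ) < s := hs
  rw [ratio h1 h2 q hq hodd s hs1]
  have a1 := (h2 q hq hodd s hs1).1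
  have a2 := h3.1 s hs1
  have a3 := hrs s hs1
  have e1 : ∀ p : Nat.Primes, ch q p * Real.log p * xx p s =
      2 * (Real.log p * RR q p s - (1 / 2) * (Real.log p * (xx p s / (1 - xx p s))) -
        Real.log p * rr q p s) := by
    intro p
    unfold rr
    ring
  have a4 : Summable fun p : Nat.Primes => ch q p * Real.log p * xx p s := by
    refine (((a1.sub (a2.mul_left (1 / 2))).sub a3).mul_left 2).congr fun p => ?_
    exact (e1 p).symm
  have e2 : ∑' p : Nat.Primes, Real.log p * RR q p s =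
      (1 / 2) * (∑' p : Nat.Primes, Real.log p * (xx p s / (1 - xx p s))) +
      (∑' p : Nat.Primes, ch q p * Real.log p * xx p s) / 2 +
      ∑' p : Nat.Primes, Real.log p * rr q p s := by
    rw [← tsum_mul_left, ← tsum_div_const, ← (a2.mul_left (1 / 2)).tsum_add (a4.div_const 2),
      ← ((a2.mul_left (1 / 2)).add (a4.div_const 2)).tsum_add a3]
    apply tsum_congr
    intro p
    unfold rr
    ring
  rw [e2]
  have hs2 : s - 1 ≠ 0 := by
    have : 0 < s - 1 := by linarith
    exact this.ne'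
  push_cast
  field_simp
  ring

end Pool.Agent.T2H32.EK
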