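import Pool.Agent.T2H32.EK.Stm

/-! # Package LOC: the local factors -/

set_option autoImplicit false

namespace Pool.Agent.T2H32.EK

open Finset Filter Topology

namespace LOCx

lemma case1 {q : ℕ} (hq : 2 ≤ q) {x : ℝ} (h0 : 0 ≤ x) (h1 : x < 1) :
    HasSum (fun e : ℕ => (if q ∣ e + 1 then (0 : ℝ) else 1) * x ^ e)
      ((1 - x ^ (q - 1)) / ((1 - x) * (1 - x ^ q))) := by
  have hxq : x ^ q < 1 := pow_lt_one₀ h0 h1 (by omega)
  have hg : HasSum (fun e : ℕ => x ^ e) (1 - x)⁻¹ := hasSum_geometric_of_lt_one h0 h1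
  have hs : HasSum (fun e : ℕ => if q ∣ e + 1 then x ^ e else 0) (x ^ (q - 1) * (1 - x ^ q)⁻¹) := by
    have hpos : ∀ j : ℕ, 1 ≤ q * (j + 1) := fun j => Nat.mul_pos (by omega) (by omega)
    have hinj : Function.Injective (fun j : ℕ => q * (j + 1) - 1) := by
      intro a b hab
      have h2 : q * (a + 1) - 1 = q * (b + 1) - 1 := hab
      have h3 : q * (a + 1) = q * (b + 1) := by
        have := hpos a
        have := hpos b
        omega
      have h4 := Nat.eq_of_mul_eq_mul_left (by omega) h3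
      omega
    rw [← hinj.hasSum_iff]
    · have e : ((fun e : ℕ => if q ∣ e + 1 then x ^ e else 0) ∘ fun j : ℕ => q * (j + 1) - 1) =
          fun j : ℕ => x ^ (q - 1) * (x ^ q) ^ j := by
        funext j
        have h2 : q * (j + 1) - 1 + 1 = q * (j + 1) := by have := hpos j; omega
        have h3 : q * (j + 1) - 1 = (q - 1) + q * j := by
          have : q * (j + 1) = q * j + q := by ring
          omega
        simp only [Function.comp_apply]
        rw [h2, if_pos (dvd_mul_right q (j + 1)), h3, pow_add, pow_mul]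
      rw [e]
      exact (hasSum_geometric_of_lt_one (by positivity) hxq).mul_left _
    · intro e he
      rw [if_neg]
      rintro ⟨c, hc⟩
      apply he
      have hc0 : c ≠ 0 := by
        rintro rfl
        simp at hc
      refine ⟨c - 1, ?_⟩
      show q * (c - 1 + 1) - 1 = e
      rw [show c - 1 + 1 = c by omega, ← hc]
      omega
  have h := hg.sub hs
  have hval : (1 - x)⁻¹ - x ^ (q - 1) * (1 - x ^ q)⁻¹ =
      (1 - x ^ (q - 1)) / ((1 - x) * (1 - x ^ q)) := by
    have e1 : x ^ q = x * x ^ (q - 1) := by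
      rw [← pow_succ']
      congr 1
      omega
    have h2 : 1 - x ≠ 0 := by linarith
    have h3 : 1 - x ^ q ≠ 0 := by linarith
    rw [eq_div_iff (mul_ne_zero h2 h3)]
    have h4 : (1 - x)⁻¹ * (1 - x) = 1 := inv_mul_cancel₀ h2
    have h5 : (1 - x ^ q)⁻¹ * (1 - x ^ q) = 1 := inv_mul_cancel₀ h3
    calc ((1 - x)⁻¹ - x ^ (q - 1) * (1 - x ^ q)⁻¹) * ((1 - x) * (1 - x ^ q))
        = ((1 - x)⁻¹ * (1 - x)) * (1 - x ^ q) -
          x ^ (q - 1) * (1 - x) * ((1 - x ^ q)⁻¹ * (1 - x ^ q)) := by ring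
      _ = (1 - x ^ q) - x ^ (q - 1) * (1 - x) := by rw [h4, h5]; ring
      _ = 1 - x ^ (q - 1) := by rw [e1]; ring
  rw [← hval]
  refine h.congr_fun ?_
  intro e
  split_ifs <;> ring

lemma case2 {x : ℝ} (h0 : 0 ≤ x) (h1 : x < 1) :
    HasSum (fun e : ℕ => (if Even e then (1 : ℝ) else 0) * x ^ e) (1 / (1 - x ^ 2)) := by
  have hx2 : x ^ 2 < 1 := pow_lt_one₀ h0 h1 (by omega)
  have hinj : Function.Injective (fun j : ℕ => 2 * j) := by
    intro a b hab
    have h2 : 2 * a = 2 * b := hab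
    omega
  rw [← hinj.hasSum_iff]
  · have e : ((fun e : ℕ => (if Even e then (1 : ℝ) else 0) * x ^ e) ∘ fun j : ℕ => 2 * j) =
        fun j : ℕ => (x ^ 2) ^ j := by
      funext j
      simp only [Function.comp_apply]
      rw [if_pos (even_two_mul j), one_mul, pow_mul]
    rw [e, one_div]
    exact hasSum_geometric_of_lt_one (by positivity) hx2
  · intro e he
    rw [if_neg, zero_mul]
    intro hev
    apply he
    obtain ⟨c, hc⟩ := hev
    exact ⟨c, by show 2 * c = e; omega⟩

end LOCx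

open LOCx

theorem LOC_main (h : MUL) : LOC := by
  intro q p hq hodd hp x h0 h1
  obtain ⟨-, -, -, h2⟩ := h q hq hodd
  unfold EE
  split_ifs with h3 h4
  · have e : (fun e : ℕ => ff q (p ^ e) * x ^ e) =
        fun e : ℕ => (if q ∣ e + 1 then (0 : ℝ) else 1) * x ^ e := by
      funext e
      rw [(h2 p e hp).1 h3]
    rw [e]
    exact case1 hq.two_le h0 h1
  · have e : (fun e : ℕ => ff q (p ^ e) * x ^ e) =
        fun e : ℕ => (if Even e then (1 : ℝ) else 0) * x ^ e := by
      funext e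
      rw [(h2 p e hp).2.1 h4]
    rw [e]
    exact case2 h0 h1
  · have e : (fun e : ℕ => ff q (p ^ e) * x ^ e) = fun e : ℕ => x ^ e := by
      funext e
      rw [(h2 p e hp).2.2 h3 h4, one_mul]
    rw [e, one_div]
    exact hasSum_geometric_of_lt_one h0 h1

end Pool.Agent.T2H32.EK
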