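import Pool.Agent.T2H32.EK.Stm

/-!
# EK, package LOGL: the Euler product for the Dirichlet series of `S`
-/

set_option autoImplicit false

namespace Pool.Agent.T2H32.EK

open Finset Filter Topology

namespace LOGLx

lemma xx_pos {p : ℕ} (hp : p.Prime) (s : ℝ) : 0 < xx p s :=
  Real.rpow_pos_of_pos (by exact_mod_cast hp.pos) _

lemma xx_le {p : ℕ} (hp : p.Prime) {s : ℝ} (hs : 1 < s) : xx p s ≤ 1 / 2 := by
  have h2 : (2 : ℝ) ≤ p := by exact_mod_cast hp.two_le
  have h1 : xx p s ≤ (p : ℝ) ^ (-1 : ℝ) :=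
    Real.rpow_le_rpow_of_exponent_le (by linarith) (by linarith)
  rw [Real.rpow_neg_one] at h1
  calc xx p s ≤ (p : ℝ)⁻¹ := h1
    _ ≤ (2 : ℝ)⁻¹ := inv_anti₀ (by norm_num) h2
    _ = 1 / 2 := by norm_num

lemma pow_xx_le {x : ℝ} (h0 : 0 < x) (h1 : x ≤ 1 / 2) {m : ℕ} (hm : 1 ≤ m) : 0 < x ^ m ∧ x ^ m ≤ x ∧ x ^ m ≤ 1 / 2 := by
  have h2 : x ^ m ≤ x := by
    calc x ^ m ≤ x ^ 1 := pow_le_pow_of_le_one h0.le (by linarith) hm
      _ = x := pow_one x
  exact ⟨pow_pos h0 m, h2, h2.trans h1⟩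

lemma log_bd {y : ℝ} (h0 : 0 ≤ y) (h1 : y ≤ 1 / 2) :
    Real.log (1 - y) ≤ 0 ∧ -(2 * y) ≤ Real.log (1 - y) := by
  constructor
  · exact Real.log_nonpos (by linarith) (by linarith)
  · have h2 := Real.one_sub_inv_le_log_of_pos (show (0 : ℝ) < 1 - y by linarith)
    have h3 : -(2 * y) ≤ 1 - (1 - y)⁻¹ := by
      have h4 : (1 - y)⁻¹ ≤ 1 + 2 * y := by
        rw [inv_eq_one_div, div_le_iff₀ (by linarith)]
        nlinarith
      linarith
    linarith

lemma GG_bd {q p : ℕ} (hq : 3 ≤ q) (hp : p.Prime) {s : ℝ} (hs : 1 < s) : |GG q p s| ≤ 6 * xx p s := by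
  have h0 := xx_pos hp s
  have h1 := xx_le hp hs
  have e1 := pow_xx_le h0 h1 (m := q - 1) (by omega)
  have e2 := pow_xx_le h0 h1 (m := q) (by omega)
  have e3 := pow_xx_le h0 h1 (m := 2) (by omega)
  have l0 := log_bd h0.le h1
  have l1 := log_bd e1.1.le e1.2.2
  have l2 := log_bd e2.1.le e2.2.2
  have l3 := log_bd e3.1.le e3.2.2
  unfold GG
  split_ifs
  · rw [abs_le]; constructor <;> linarith [e1.2.1, e2.2.1]
  · rw [abs_le]; constructor <;> linarith [e3.2.1]
  · rw [abs_le]; constructor <;> linarith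

lemma exp_GG {q p : ℕ} (hq : 3 ≤ q) (hp : p.Prime) {s : ℝ} (hs : 1 < s) :
    Real.exp (GG q p s) = EE q p (xx p s) := by
  have h0 := xx_pos hp s
  have h1 := xx_le hp hs
  have e1 := pow_xx_le h0 h1 (m := q - 1) (by omega)
  have e2 := pow_xx_le h0 h1 (m := q) (by omega)
  have e3 := pow_xx_le h0 h1 (m := 2) (by omega)
  unfold GG EE
  split_ifs
  · rw [Real.exp_sub, Real.exp_sub, Real.exp_log (by linarith [e1.2.2]), Real.exp_log (by linarith),
      Real.exp_log (by linarith [e2.2.2]), div_div]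
  · rw [Real.exp_neg, Real.exp_log (by linarith [e3.2.2]), one_div]
  · rw [Real.exp_neg, Real.exp_log (by linarith), one_div]

lemma ff_nonneg (q n : ℕ) : 0 ≤ ff q n := by
  unfold ff; split_ifs <;> norm_num

lemma ff_le (q n : ℕ) : ff q n ≤ 1 := by
  unfold ff; split_ifs <;> norm_num

lemma rpow_pow_comm (p e : ℕ) (s : ℝ) : (((p ^ e : ℕ) : ℝ)) ^ (-s) = xx p s ^ e := by
  unfold xx
  rw [Nat.cast_pow, ← Real.rpow_natCast, ← Real.rpow_mul (Nat.cast_nonneg p), mul_comm,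
    Real.rpow_mul (Nat.cast_nonneg p), Real.rpow_natCast]

end LOGLx

open LOGLx in
theorem LOGL_main (h1 : MUL) (h2 : LOC) : LOGL := by
  intro q hq hodd s hs
  have hq3 : 3 ≤ q := by
    have := hq.two_le
    rcases hodd with ⟨k, hk⟩
    omega
  obtain ⟨hf1, hf0, hmul, -⟩ := h1 q hq hodd
  have hsum0 : Summable (fun p : Nat.Primes => xx p s) :=
    Nat.Primes.summable_rpow.2 (by linarith)
  have hG : Summable (fun p : Nat.Primes => GG q p s) := by
    refine Summable.of_norm_bounded (hsum0.mul_left 6) (fun p => ?_)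
    rw [Real.norm_eq_abs]
    exact GG_bd hq3 p.2 hs
  refine ⟨hG, ?_⟩
  let f : ℕ → ℝ := fun n => ff q n * (n : ℝ) ^ (-s)
  have hLL : LL ((q - 1) / 2) q s = ∑' n, f n := by
    unfold LL
    rw [tsum_subtype (SS ((q - 1) / 2) q) (fun n : ℕ => (n : ℝ) ^ (-s))]
    refine tsum_congr (fun n => ?_)
    by_cases hn : n ∈ SS ((q - 1) / 2) q
    · simp [f, ff, hn]
    · simp [f, ff, hn]
  have hfs : Summable (fun n => ‖f n‖) := by
    have h3 : Summable (fun n : ℕ => (n : ℝ) ^ (-s)) := Real.summable_nat_rpow.2 (by linarith)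
    refine Summable.of_nonneg_of_le (fun n => norm_nonneg _) (fun n => ?_) h3
    rw [Real.norm_eq_abs, abs_of_nonneg (mul_nonneg (ff_nonneg q n) (Real.rpow_nonneg (Nat.cast_nonneg n) _))]
    exact mul_le_of_le_one_left (Real.rpow_nonneg (Nat.cast_nonneg n) _) (ff_le q n)
  have hP := EulerProduct.eulerProduct_hasProd (f := f) (by simp [f, hf1])
    (fun {m n} hmn => by
      simp only [f]
      rw [hmul m n hmn, Nat.cast_mul, Real.mul_rpow (Nat.cast_nonneg m) (Nat.cast_nonneg n)]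
      ring) hfs (by simp [f, hf0])
  have hloc : ∀ p : Nat.Primes, (∑' e, f ((p : ℕ) ^ e)) = Real.exp (GG q p s) := by
    intro p
    have h4 := (h2 q p hq hodd p.2 (xx p s) (xx_pos p.2 s).le (by linarith [xx_le p.2 hs])).tsum_eq
    rw [exp_GG hq3 p.2 hs, ← h4]
    refine tsum_congr (fun e => ?_)
    simp only [f]
    rw [rpow_pow_comm]
  have hP2 : HasProd (fun p : Nat.Primes => Real.exp (GG q p s)) (∑' n, f n) := by
    have : (fun p : Nat.Primes => Real.exp (GG q p s)) = fun p : Nat.Primes => ∑' e, f ((p : ℕ) ^ e) :=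
      funext fun p => (hloc p).symm
    rw [this]; exact hP
  have hP3 := hG.hasSum.rexp
  rw [hLL]
  exact hP2.unique hP3

end Pool.Agent.T2H32.EK
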