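import Pool.Agent.T2H32.EK.Stm
import Pool.Agent.H735CB.LSieve

/-!
# EK, package LSM (helper55): moments by the large sieve
-/

set_option autoImplicit false

namespace Pool.Agent.T2H32.EK

open Finset

namespace LSMx

/-- the coefficients of the `k`-th power -/
noncomputable def al (E : Finset ℕ) (k : ℕ) (c : ℕ → ℝ) (n : ℕ) : ℝ :=
  ∑ d ∈ (Fintype.piFinset (fun _ : Fin k => E)).filter (fun d => ∏ i, d i = n), ∏ i, c (d i)

theorem prod_mem (M k : ℕ) (E : Finset ℕ) (hE : ∀ p ∈ E, 1 ≤ p ∧ p ≤ M) (d : Fin k → ℕ)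
    (hd : d ∈ Fintype.piFinset (fun _ : Fin k => E)) : ∏ i, d i ∈ Icc 1 (M ^ k) := by
  rw [Fintype.mem_piFinset] at hd
  rw [mem_Icc]
  constructor
  · exact Finset.one_le_prod' (fun i _ => (hE _ (hd i)).1)
  · calc ∏ i, d i ≤ ∏ _i : Fin k, M := Finset.prod_le_prod' (fun i _ => (hE _ (hd i)).2)
      _ = M ^ k := by simp

theorem pow_expand (M k : ℕ) (E : Finset ℕ) (hE : ∀ p ∈ E, 1 ≤ p ∧ p ≤ M) (c : ℕ → ℝ) (f : ℕ)
    (χ : DirichletCharacter ℂ f) :
    (∑ m ∈ E, (c m : ℂ) * χ (m : ZMod f)) ^ k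
      = ∑ n ∈ Icc 1 (M ^ k), (al E k c n : ℂ) * χ (n : ZMod f) := by
  rw [Finset.sum_pow']
  rw [← Finset.sum_fiberwise_of_maps_to (g := fun d : Fin k → ℕ => ∏ i, d i)
    (fun d hd => prod_mem M k E hE d hd)]
  refine Finset.sum_congr rfl (fun n _ => ?_)
  rw [al, Complex.ofReal_sum, Finset.sum_mul]
  refine Finset.sum_congr rfl (fun d hd => ?_)
  rw [Finset.mem_filter] at hd
  rw [← hd.2, Finset.prod_mul_distrib]
  push_cast
  rw [map_prod]

theorem sum_al_sq (M k : ℕ) (E : Finset ℕ) (hE : ∀ p ∈ E, 1 ≤ p ∧ p ≤ M) (c : ℕ → ℝ) (B : ℝ)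
    (hB : ∀ n, (((Fintype.piFinset (fun _ : Fin k => E)).filter
      (fun d => ∏ i, d i = n)).card : ℝ) ≤ B) :
    ∑ n ∈ Icc 1 (M ^ k), (al E k c n) ^ 2 ≤ B * (∑ m ∈ E, (c m) ^ 2) ^ k := by
  have h1 : ∀ n ∈ Icc 1 (M ^ k), (al E k c n) ^ 2
      ≤ B * ∑ d ∈ (Fintype.piFinset (fun _ : Fin k => E)).filter (fun d => ∏ i, d i = n),
        ∏ i, (c (d i)) ^ 2 := by
    intro n hn
    rw [al]
    refine (sq_sum_le_card_mul_sum_sq).trans ?_
    have h2 : ∑ d ∈ (Fintype.piFinset (fun _ : Fin k => E)).filter (fun d => ∏ i, d i = n),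
        (∏ i, c (d i)) ^ 2
        = ∑ d ∈ (Fintype.piFinset (fun _ : Fin k => E)).filter (fun d => ∏ i, d i = n),
        ∏ i, (c (d i)) ^ 2 := by
      refine Finset.sum_congr rfl (fun d _ => ?_)
      rw [Finset.prod_pow]
    rw [h2]
    refine mul_le_mul_of_nonneg_right (hB n) ?_
    exact Finset.sum_nonneg (fun d _ => Finset.prod_nonneg (fun i _ => sq_nonneg _))
  refine (Finset.sum_le_sum h1).trans (le_of_eq ?_)
  rw [← Finset.mul_sum]
  congr 1
  rw [Finset.sum_fiberwise_of_maps_to (g := fun d : Fin k → ℕ => ∏ i, d i)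
    (fun d hd => prod_mem M k E hE d hd)]
  exact (Finset.sum_pow' E (fun m => (c m) ^ 2) k).symm

/-- the quadratic character modulo an odd prime -/
theorem exists_char (q : ℕ) (hq : q.Prime) (hodd : Odd q) :
    ∃ χ : DirichletCharacter ℂ q, χ.IsPrimitive ∧ ∀ p : ℕ, χ (p : ZMod q) = ((ch q p : ℝ) : ℂ) := by
  have hf : Fact q.Prime := ⟨hq⟩
  have hq2 : q ≠ 2 := by
    rintro rfl
    exact absurd hodd (by decide)
  have hchar : ringChar (ZMod q) ≠ 2 := by rwa [ZMod.ringChar_zmod_n]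
  let χ : DirichletCharacter ℂ q := (quadraticChar (ZMod q)).ringHomComp (Int.castRingHom ℂ)
  have hval : ∀ a : ZMod q, χ a = ((quadraticChar (ZMod q) a : ℤ) : ℂ) := fun a => rfl
  refine ⟨χ, ?_, ?_⟩
  · refine Pool.Agent.H735CB.LSv.prim_of_ne_one q hq χ ?_
    intro h1
    obtain ⟨a, ha⟩ := quadraticChar_exists_neg_one hchar
    have h2 : χ a = 1 := by
      rw [h1]
      refine MulChar.one_apply ?_
      by_contra hu
      have h3 : a = 0 := by
        by_contra h4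
        exact hu (isUnit_iff_ne_zero.2 h4)
      rw [h3, quadraticChar_zero] at ha
      omega
    rw [hval, ha] at h2
    norm_num at h2
  · intro p
    rw [hval]
    have h1 : ch q p = ((jacobiSym (p : ℤ) q : ℤ) : ℝ) := by
      unfold ch Pool.Agent.R852.LK.ps
      rw [if_pos hodd]
    rw [h1, ← jacobiSym.legendreSym.to_jacobiSym]
    unfold legendreSym
    push_cast
    rfl

end LSMx

theorem LSM_main (h : TUP) : LSM := by
  classical
  intro Q M k E c hE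
  have hE' : ∀ p ∈ E, 1 ≤ p ∧ p ≤ M := fun p hp => ⟨(hE p hp).1.one_lt.le, (hE p hp).2⟩
  have hB : ∀ n, (((Fintype.piFinset (fun _ : Fin k => E)).filter
      (fun d => ∏ i, d i = n)).card : ℝ) ≤ k.factorial := by
    intro n
    have h1 := h k n E (fun p hp => (hE p hp).1)
    have h2 : ((Fintype.piFinset (fun _ : Fin k => E)).filter
      (fun d => ∏ i, d i = n)).card ≤ k.factorial := by
      convert h1
    exact_mod_cast h2
  have hLS := Pool.Agent.Helper112.mult_large_sieve (M ^ k) Q (fun n => (LSMx.al E k c n : ℂ))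
  have h1 : ∑ n ∈ Icc 1 (M ^ k), ‖((LSMx.al E k c n : ℝ) : ℂ)‖ ^ 2
      ≤ k.factorial * (∑ m ∈ E, (c m) ^ 2) ^ k := by
    refine le_trans (le_of_eq ?_) (LSMx.sum_al_sq M k E hE' c _ hB)
    refine Finset.sum_congr rfl (fun n _ => ?_)
    rw [Complex.norm_real, Real.norm_eq_abs, sq_abs]
  have h2 : ((M ^ k : ℕ) : ℝ) = (M : ℝ) ^ k := by push_cast; rfl
  rw [h2] at hLS
  refine le_trans ?_ (hLS.trans (mul_le_mul_of_nonneg_left h1 (by positivity)))
  have hsub : (Pr Q).filter Odd ⊆ Icc 1 Q := fun q hq =>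
    (mem_filter.1 (mem_filter.1 hq).1).1
  refine le_trans ?_ (Finset.sum_le_sum_of_subset_of_nonneg hsub
    (fun f _ _ => mul_nonneg (by positivity) (Finset.sum_nonneg (fun _ _ => sq_nonneg _))))
  refine Finset.sum_le_sum (fun q hq => ?_)
  rw [mem_filter] at hq
  have hqp : q.Prime := (mem_filter.1 hq.1).2
  obtain ⟨χ, hχ, hval⟩ := LSMx.exists_char q hqp hq.2
  have htot : (1 : ℝ) ≤ (q : ℝ) / (Nat.totient q : ℝ) := by
    rw [one_le_div (by exact_mod_cast Nat.totient_pos.mpr hqp.pos)]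
    exact_mod_cast Nat.totient_le q
  have hnn : (0 : ℝ) ≤ ∑ χ ∈ (univ : Finset (DirichletCharacter ℂ q)).filter (fun χ => χ.IsPrimitive),
        ‖∑ n ∈ Icc 1 (M ^ k), ((LSMx.al E k c n : ℝ) : ℂ) * χ (n : ZMod q)‖ ^ 2 :=
    Finset.sum_nonneg (fun _ _ => sq_nonneg _)
  refine le_trans ?_ (le_mul_of_one_le_left hnn htot)
  have h3 := Finset.single_le_sum (f := fun χ : DirichletCharacter ℂ q =>
    ‖∑ n ∈ Icc 1 (M ^ k), ((LSMx.al E k c n : ℝ) : ℂ) * χ (n : ZMod q)‖ ^ 2)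
    (fun _ _ => sq_nonneg _) (mem_filter.2 ⟨mem_univ χ, hχ⟩)
  refine le_trans (le_of_eq ?_) h3
  rw [← LSMx.pow_expand M k E hE', norm_pow, ← pow_mul, mul_comm k 2]
  have h4 : ∑ m ∈ E, (c m : ℂ) * χ (m : ZMod q) = ((∑ m ∈ E, c m * ch q m : ℝ) : ℂ) := by
    rw [Complex.ofReal_sum]
    refine Finset.sum_congr rfl (fun m _ => ?_)
    rw [hval]
    push_cast
    rfl
  rw [h4, Complex.norm_real, Real.norm_eq_abs, pow_mul, pow_mul, sq_abs]

end Pool.Agent.T2H32.EK
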