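import Pool.Agent.T2H32.EK.Stm

set_option autoImplicit false

namespace Pool.Agent.T2H32.EK

open Finset Filter Topology

namespace MEDx

theorem ch_mul (q a b : ℕ) : ch q (a * b) = ch q a * ch q b := by
  unfold ch
  rw [Nat.cast_mul, Pool.Agent.R852.LK.ps_left, Int.cast_mul]

theorem ch_abs (q a : ℕ) : |ch q a| ≤ 1 := by
  unfold ch
  have := Pool.Agent.R852.LK.ps_abs (a : ℤ) q
  rw [← Int.cast_abs]
  exact_mod_cast this

theorem ch_prod (q n : ℕ) (T : Finset ℕ) : (∏ r ∈ T, ch q r) * ch q n = ch q ((∏ r ∈ T, r) * n) := by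
  classical
  induction T using Finset.induction_on with
  | empty => simp
  | insert a T ha ih =>
    rw [Finset.prod_insert ha, Finset.prod_insert ha, mul_assoc, ih, ← ch_mul, mul_assoc]

theorem WW_nonneg {z : ℕ} {e : ℕ → ℝ} (he : Sg e) (q : ℕ) : 0 ≤ WW z e q := by
  unfold WW
  refine Finset.prod_nonneg fun p _ => ?_
  have h1 := abs_le.1 (ch_abs q p)
  rcases he p with h | h <;> rw [h] <;> linarith [h1.1, h1.2]

theorem notSq {z p p' : ℕ} {T : Finset ℕ} (hT : T ⊆ Pr z) (hp : p.Prime) (hp' : p'.Prime) (hpz : z < p)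
    (hne : p ≠ p') : ¬ IsSquare ((∏ r ∈ T, r) * (p * p')) := by
  rintro ⟨r, hr⟩
  have h1 : p ∣ r := by
    have : p ∣ r * r := by
      rw [← hr]
      exact Dvd.dvd.mul_left (dvd_mul_right p p') _
    exact (hp.dvd_mul.1 this).elim id id
  obtain ⟨s, rfl⟩ := h1
  have h2 : p * ((∏ r ∈ T, r) * p') = p * (p * s * s) := by
    calc p * ((∏ r ∈ T, r) * p') = (∏ r ∈ T, r) * (p * p') := by ring
      _ = p * s * (p * s) := hr
      _ = _ := by ring
  have h3 := Nat.eq_of_mul_eq_mul_left hp.pos h2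
  have h4 : p ∣ (∏ r ∈ T, r) * p' := by
    rw [h3, mul_assoc]
    exact dvd_mul_right _ _
  rcases hp.dvd_mul.1 h4 with h5 | h5
  · obtain ⟨r, hrT, hr2⟩ := (Prime.dvd_finsetProd_iff hp.prime _).1 h5
    have h6 := Finset.mem_filter.1 (hT hrT)
    have h7 := (Nat.prime_dvd_prime_iff_eq hp h6.2).1 hr2
    have h8 := (Finset.mem_Icc.1 h6.1).2
    omega
  · exact hne ((Nat.prime_dvd_prime_iff_eq hp hp').1 h5)

theorem tel (k : ℕ) (hk : 1 ≤ k) :
    (Real.log ((k + 1 : ℕ) : ℝ) / ((k + 1 : ℕ) : ℝ)) ^ 2 ≤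
      32 * (1 / Real.sqrt (k : ℝ) - 1 / Real.sqrt ((k + 1 : ℕ) : ℝ)) := by
  have hkr : (1 : ℝ) ≤ k := by exact_mod_cast hk
  set n : ℝ := ((k + 1 : ℕ) : ℝ) with hn
  have hn1 : n = k + 1 := by rw [hn]; push_cast; ring
  have hn0 : 0 < n := by rw [hn1]; linarith
  set a := Real.sqrt (k : ℝ) with ha
  set b := Real.sqrt n with hb
  have ha2 : a * a = k := Real.mul_self_sqrt (by linarith)
  have hb2 : b * b = n := Real.mul_self_sqrt hn0.le
  have ha0 : 0 < a := Real.sqrt_pos.2 (by linarith)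
  have hb0 : 0 < b := Real.sqrt_pos.2 hn0
  have hab : a ≤ b := Real.sqrt_le_sqrt (by rw [hn1]; linarith)
  have hab2 : b * b - a * a = 1 := by rw [ha2, hb2, hn1]; ring
  have hlog0 : 0 ≤ Real.log n := Real.log_nonneg (by rw [hn1]; linarith)
  have hlog : Real.log n ≤ 4 * n ^ (1 / 4 : ℝ) := by
    have := Real.log_le_rpow_div (x := n) (ε := 1 / 4) hn0.le (by norm_num)
    linarith
  have h4 : (n ^ (1 / 4 : ℝ)) ^ 2 = b := by
    rw [hb, Real.sqrt_eq_rpow, ← Real.rpow_natCast, ← Real.rpow_mul hn0.le]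
    norm_num
  have hsq : Real.log n ^ 2 ≤ 16 * b := by
    calc Real.log n ^ 2 ≤ (4 * n ^ (1 / 4 : ℝ)) ^ 2 := by gcongr
      _ = 16 * b := by rw [mul_pow, h4]; norm_num
  have h5 : (Real.log n / n) ^ 2 ≤ 16 / b ^ 3 := by
    rw [div_pow, div_le_div_iff₀ (by positivity) (by positivity)]
    calc Real.log n ^ 2 * b ^ 3 ≤ (16 * b) * b ^ 3 := by gcongr
      _ = 16 * n ^ 2 := by rw [← hb2]; ring
  refine h5.trans ?_
  have h6 : 1 / a - 1 / b = 1 / (a * b * (a + b)) := by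
    have : a + b ≠ 0 := by positivity
    field_simp
    nlinarith
  rw [h6, mul_one_div, div_le_div_iff₀ (by positivity) (by positivity)]
  have h7 : a * b * (a + b) ≤ b * b * (b + b) := by gcongr
  nlinarith

theorem diag (z : ℕ) (hz : 1 ≤ z) (N : ℕ) :
    ∑ p ∈ (Pr N).filter (fun p => z < p), (Real.log p / p) ^ 2 ≤ 32 / Real.sqrt z := by
  have hzr : (1 : ℝ) ≤ z := by exact_mod_cast hz
  have h1 : ∀ N, z ≤ N → ∑ n ∈ Finset.Ioc z N, (Real.log n / n) ^ 2 ≤
      32 * (1 / Real.sqrt (z : ℝ) - 1 / Real.sqrt (N : ℝ)) := by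
    intro N hN
    induction N, hN using Nat.le_induction with
    | base => simp
    | succ n hn ih =>
      rw [Finset.sum_Ioc_succ_top (by omega)]
      have := tel n (by omega)
      linarith
  have h2 : (Pr N).filter (fun p => z < p) ⊆ Finset.Ioc z (max z N) := by
    intro p hp
    have hp1 := Finset.mem_filter.1 hp
    have hp2 := Finset.mem_Icc.1 (Finset.mem_filter.1 hp1.1).1
    exact Finset.mem_Ioc.2 ⟨hp1.2, hp2.2.trans (le_max_right _ _)⟩
  have h3 := Finset.sum_le_sum_of_subset_of_nonneg (f := fun n : ℕ => (Real.log n / n) ^ 2) h2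
    (fun _ _ _ => sq_nonneg _)
  refine h3.trans ((h1 _ (le_max_left _ _)).trans ?_)
  have h4 : 0 ≤ 1 / Real.sqrt ((max z N : ℕ) : ℝ) := by positivity
  have h5 : 32 / Real.sqrt z = 32 * (1 / Real.sqrt (z : ℝ)) := by ring
  rw [h5]
  linarith

end MEDx

open MEDx in
theorem MED_main (h : SYB) (h2 : CNT) : MED := by
  classical
  refine ⟨65, by norm_num, fun z hz e he => ?_⟩
  obtain ⟨n₁, hn₁⟩ := h 18 17
  have hzr : (1 : ℝ) ≤ z := by exact_mod_cast hz
  have hlog : Tendsto (fun Q : ℕ => Real.log (Q : ℝ)) atTop atTop :=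
    Real.tendsto_log_atTop.comp tendsto_natCast_atTop_atTop
  filter_upwards [h2 z e he, eventually_ge_atTop n₁, eventually_ge_atTop 1,
    hlog.eventually_ge_atTop (4 * (z : ℝ) ^ z), hlog.eventually_ge_atTop (13 * 2 ^ z * (z : ℝ))] with
    Q hC hQn hQ1 hL1 hL2
  set L := Real.log (Q : ℝ) with hL
  have hzz : (1 : ℝ) ≤ (z : ℝ) ^ z := one_le_pow₀ hzr
  have hL4 : 4 ≤ L := by linarith
  have hL0 : 0 < L := by linarith
  have hQ0 : (0 : ℝ) ≤ Q := Nat.cast_nonneg _
  set E := (Pr (Y1 Q)).filter (fun p => z < p) with hE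
  have hY : (Y1 Q : ℝ) ≤ L ^ 8 := Nat.floor_le (by positivity)
  have hEcard : (E.card : ℝ) ≤ L ^ 8 := by
    refine le_trans ?_ hY
    have : E.card ≤ Y1 Q := by
      calc E.card ≤ (Pr (Y1 Q)).card := Finset.card_filter_le _ _
        _ ≤ (Finset.Icc 1 (Y1 Q)).card := Finset.card_filter_le _ _
        _ = Y1 Q := by simp
    exact_mod_cast this
  have hEp : ∀ p ∈ E, p.Prime ∧ z < p ∧ (p : ℝ) ≤ L ^ 8 := by
    intro p hp
    have h1 := Finset.mem_filter.1 hp
    have h2 := Finset.mem_filter.1 h1.1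
    refine ⟨h2.2, h1.2, le_trans ?_ hY⟩
    exact_mod_cast (Finset.mem_Icc.1 h2.1).2
  set a : ℕ → ℝ := fun p => Real.log p / p with ha
  have ha0 : ∀ p ∈ E, 0 ≤ a p ∧ a p ≤ 1 := by
    intro p hp
    have h1 : (1 : ℝ) ≤ p := by exact_mod_cast (hEp p hp).1.one_le
    refine ⟨div_nonneg (Real.log_nonneg h1) (by linarith), ?_⟩
    rw [ha]
    simp only
    rw [div_le_one (by linarith)]
    exact (Real.log_le_sub_one_of_pos (by linarith)).trans (by linarith)
  set B : ℕ → ℕ → ℝ := fun p p' => ∑ q ∈ Pr Q, Real.log q * WW z e q * (ch q p * ch q p') with hB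
  have hlogq : ∀ q ∈ Pr Q, 0 ≤ Real.log (q : ℝ) := fun q hq =>
    Real.log_natCast_nonneg q
  -- expansion
  have hexp : ∑ q ∈ Pr Q, Real.log q * WW z e q * TT z (Y1 Q) q ^ 2 =
      ∑ p ∈ E, ∑ p' ∈ E, a p * a p' * B p p' := by
    have h1 : ∀ q, TT z (Y1 Q) q = ∑ p ∈ E, a p * ch q p := by
      intro q
      unfold TT
      refine Finset.sum_congr rfl fun p _ => ?_
      rw [ha]; ring
    simp_rw [h1, sq, Finset.sum_mul_sum, hB, Finset.mul_sum]
    rw [Finset.sum_comm]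
    refine Finset.sum_congr rfl fun p _ => ?_
    rw [Finset.sum_comm]
    refine Finset.sum_congr rfl fun p' _ => Finset.sum_congr rfl fun q _ => ?_
    ring
  -- diagonal
  have hdiag : ∀ p, B p p ≤ 2 * Q := by
    intro p
    refine le_trans (Finset.sum_le_sum fun q hq => ?_) hC.2
    have h1 : ch q p * ch q p ≤ 1 := by
      have := abs_le.1 (ch_abs q p)
      nlinarith [this.1, this.2]
    have h2 : 0 ≤ Real.log (q : ℝ) * WW z e q := mul_nonneg (hlogq q hq) (WW_nonneg he q)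
    calc Real.log q * WW z e q * (ch q p * ch q p) ≤ Real.log q * WW z e q * 1 := by gcongr
      _ = _ := mul_one _
  -- off the diagonal
  have hoff : ∀ p ∈ E, ∀ p' ∈ E, p ≠ p' → |B p p'| ≤ 2 ^ z * (13 * Q / L ^ 18) := by
    intro p hp p' hp' hne
    obtain ⟨hp1, hp2, hp3⟩ := hEp p hp
    obtain ⟨hp1', hp2', hp3'⟩ := hEp p' hp'
    have h1 : B p p' = ∑ T ∈ (Pr z).powerset, (∏ r ∈ T, e r) *
        ∑ q ∈ Pr Q, ch q ((∏ r ∈ T, r) * (p * p')) * Real.log q := by
      rw [hB]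
      simp only
      simp_rw [Finset.mul_sum]
      rw [Finset.sum_comm]
      refine Finset.sum_congr rfl fun q _ => ?_
      unfold WW
      rw [Finset.prod_one_add, Finset.mul_sum, Finset.sum_mul]
      refine Finset.sum_congr rfl fun T _ => ?_
      rw [← ch_prod, ch_mul, Finset.prod_mul_distrib]
      ring
    rw [h1]
    refine (Finset.abs_sum_le_sum_abs _ _).trans ?_
    have h3 : ∀ T ∈ (Pr z).powerset, |(∏ r ∈ T, e r) *
        ∑ q ∈ Pr Q, ch q ((∏ r ∈ T, r) * (p * p')) * Real.log q| ≤ 13 * Q / L ^ 18 := by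
      intro T hT
      have hT' := Finset.mem_powerset.1 hT
      have h4 : |∏ r ∈ T, e r| = 1 := by
        rw [Finset.abs_prod]
        refine Finset.prod_eq_one fun r _ => ?_
        rcases he r with h | h <;> rw [h] <;> simp
      rw [abs_mul, h4, one_mul]
      have hTprod : (∏ r ∈ T, r) ≤ z ^ z := by
        calc (∏ r ∈ T, r) ≤ z ^ T.card := Finset.prod_le_pow_card _ _ _ fun r hr =>
              (Finset.mem_Icc.1 (Finset.mem_filter.1 (hT' hr)).1).2
          _ ≤ z ^ z := by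
            apply Nat.pow_le_pow_right hz
            calc T.card ≤ (Pr z).card := Finset.card_le_card hT'
              _ ≤ (Finset.Icc 1 z).card := Finset.card_filter_le _ _
              _ = z := by simp
      have hTpos : 0 < ∏ r ∈ T, r := Finset.prod_pos fun r hr => (Finset.mem_filter.1 (hT' hr)).2.pos
      refine hn₁ Q hQn _ ?_ (notSq hT' hp1 hp1' hp2 hne) ?_
      · have := Nat.mul_pos hTpos (Nat.mul_pos hp1.pos hp1'.pos)
        omega
      · push_cast
        have h5 : (∏ r ∈ T, (r : ℝ)) ≤ (z : ℝ) ^ z := by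
          rw [← Nat.cast_prod, ← Nat.cast_pow]
          exact Nat.cast_le.2 hTprod
        have h6 : 0 ≤ ∏ r ∈ T, (r : ℝ) := Finset.prod_nonneg fun r _ => Nat.cast_nonneg r
        calc 4 * ((∏ r ∈ T, (r : ℝ)) * (p * p')) ≤ 4 * ((z : ℝ) ^ z * (L ^ 8 * L ^ 8)) := by gcongr
          _ = (4 * (z : ℝ) ^ z) * L ^ 16 := by ring
          _ ≤ L * L ^ 16 := by gcongr
          _ = L ^ 17 := by ring
    refine (Finset.sum_le_sum h3).trans ?_
    rw [Finset.sum_const, Finset.card_powerset, nsmul_eq_mul]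
    have h7 : (Pr z).card ≤ z := by
      calc (Pr z).card ≤ (Finset.Icc 1 z).card := Finset.card_filter_le _ _
        _ = z := by simp
    have h8 : (((2 : ℕ) ^ (Pr z).card : ℕ) : ℝ) ≤ 2 ^ z := by
      push_cast
      exact pow_le_pow_right₀ (by norm_num) h7
    have h9 : 0 ≤ 13 * (Q : ℝ) / L ^ 18 := by positivity
    gcongr
  rw [hexp]
  have hR0 : 0 ≤ 2 ^ z * (13 * (Q : ℝ) / L ^ 18) := by positivity
  have hterm : ∀ p ∈ E, ∀ p' ∈ E, a p * a p' * B p p' ≤
      (if p = p' then a p ^ 2 * (2 * Q) else 0) + 2 ^ z * (13 * Q / L ^ 18) := by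
    intro p hp p' hp'
    obtain ⟨a1, a2⟩ := ha0 p hp
    obtain ⟨b1, b2⟩ := ha0 p' hp'
    by_cases hpp : p = p'
    · subst hpp
      rw [if_pos rfl]
      have h1 := hdiag p
      have h3 : a p * a p * B p p ≤ a p * a p * (2 * Q) := by
        apply mul_le_mul_of_nonneg_left h1 (by positivity)
      rw [sq]
      linarith
    · rw [if_neg hpp, zero_add]
      have h1 := hoff p hp p' hp' hpp
      have h3 : a p * a p' ≤ 1 := mul_le_one₀ a2 b1 b2
      calc a p * a p' * B p p' ≤ |a p * a p' * B p p'| := le_abs_self _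
        _ = (a p * a p') * |B p p'| := by rw [abs_mul, abs_of_nonneg (mul_nonneg a1 b1)]
        _ ≤ 1 * |B p p'| := by gcongr
        _ ≤ _ := by rw [one_mul]; exact h1
  refine (Finset.sum_le_sum fun p hp => Finset.sum_le_sum fun p' hp' => hterm p hp p' hp').trans ?_
  have hsum : ∑ p ∈ E, ∑ p' ∈ E, ((if p = p' then a p ^ 2 * (2 * (Q : ℝ)) else 0) +
      2 ^ z * (13 * (Q : ℝ) / L ^ 18)) = (∑ p ∈ E, a p ^ 2) * (2 * Q) +
        (E.card : ℝ) * (E.card * (2 ^ z * (13 * (Q : ℝ) / L ^ 18))) := by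
    rw [Finset.sum_mul]
    rw [Finset.sum_congr rfl (g := fun p => a p ^ 2 * (2 * (Q : ℝ)) +
      E.card * (2 ^ z * (13 * (Q : ℝ) / L ^ 18)))]
    · rw [Finset.sum_add_distrib, Finset.sum_const, nsmul_eq_mul]
    · intro p hp
      rw [Finset.sum_add_distrib, Finset.sum_ite_eq, if_pos hp, Finset.sum_const, nsmul_eq_mul]
  rw [hsum]
  have hd := diag z hz (Y1 Q)
  have hs0 : 0 < Real.sqrt z := Real.sqrt_pos.2 (by linarith)
  have hsz : Real.sqrt z ≤ z := by
    rw [Real.sqrt_le_left (by linarith)]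
    nlinarith
  have t1 : (∑ p ∈ E, a p ^ 2) * (2 * Q) ≤ 32 / Real.sqrt z * (2 * Q) := by
    apply mul_le_mul_of_nonneg_right hd (by positivity)
  have t2 : (E.card : ℝ) * (E.card * (2 ^ z * (13 * (Q : ℝ) / L ^ 18))) ≤
      L ^ 8 * (L ^ 8 * (2 ^ z * (13 * (Q : ℝ) / L ^ 18))) := by gcongr
  have t3 : L ^ 8 * (L ^ 8 * (2 ^ z * (13 * (Q : ℝ) / L ^ 18))) = 13 * 2 ^ z * Q / L ^ 2 := by
    field_simp
  have t4 : 13 * 2 ^ z * (Q : ℝ) / L ^ 2 ≤ Q / Real.sqrt z := by
    rw [div_le_div_iff₀ (by positivity) hs0]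
    calc 13 * 2 ^ z * (Q : ℝ) * Real.sqrt z ≤ 13 * 2 ^ z * (Q : ℝ) * z := by gcongr
      _ = Q * (13 * 2 ^ z * z) := by ring
      _ ≤ Q * L := by gcongr
      _ ≤ Q * L ^ 2 := by
        apply mul_le_mul_of_nonneg_left _ hQ0
        nlinarith
  have t5 : 65 * (Q : ℝ) / Real.sqrt z = 32 / Real.sqrt z * (2 * Q) + Q / Real.sqrt z := by ring
  rw [t5]
  linarith

end Pool.Agent.T2H32.EK
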