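import Pool.Agent.T2H32.EK.Stm

/-! # Package MUL: the indicator function is multiplicative -/

set_option autoImplicit false

namespace Pool.Agent.T2H32.EK

open Finset Filter Topology

namespace MULx

lemma leg {q : ℕ} [Fact q.Prime] (hq : Odd q) (p : ℕ) : ch q p = (legendreSym q p : ℝ) := by
  unfold ch Pool.Agent.R852.LK.ps
  rw [if_pos hq, jacobiSym.legendreSym.to_jacobiSym]

lemma half {q : ℕ} (hq : Odd q) : (q - 1) / 2 = q / 2 := by
  obtain ⟨m, rfl⟩ := hq
  omega

lemma pow_eq {q : ℕ} [Fact q.Prime] (hq : Odd q) (p : ℕ) :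
    (p : ZMod q) ^ ((q - 1) / 2) = ((legendreSym q p : ℤ) : ZMod q) := by
  rw [half hq, legendreSym.eq_pow]
  push_cast
  rfl

lemma sig {q : ℕ} [Fact q.Prime] (hq : Odd q) {p : ℕ} (hp : p.Prime) (e : ℕ) :
    ((∑ d ∈ (p ^ e).divisors, d ^ ((q - 1) / 2) : ℕ) : ZMod q) =
      ∑ i ∈ range (e + 1), ((legendreSym q p : ℤ) : ZMod q) ^ i := by
  rw [Nat.sum_divisors_prime_pow hp]
  push_cast
  refine Finset.sum_congr rfl fun i _ => ?_
  rw [← pow_mul, mul_comm, pow_mul, pow_eq hq]

lemma ff_pow {q : ℕ} [Fact q.Prime] (hq : Odd q) {p : ℕ} (hp : p.Prime) (e : ℕ) :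
    ((∑ i ∈ range (e + 1), ((legendreSym q p : ℤ) : ZMod q) ^ i) = 0 → ff q (p ^ e) = 0) ∧
    ((∑ i ∈ range (e + 1), ((legendreSym q p : ℤ) : ZMod q) ^ i) ≠ 0 → ff q (p ^ e) = 1) := by
  have h1 : 1 ≤ p ^ e := Nat.one_le_pow _ _ hp.pos
  rw [← sig hq hp e]
  constructor
  · intro h
    rw [ZMod.natCast_eq_zero_iff] at h
    unfold ff
    rw [if_neg]
    exact fun hh => hh.2 h
  · intro h
    rw [Ne, ZMod.natCast_eq_zero_iff] at h
    unfold ff
    rw [if_pos]
    exact ⟨h1, h⟩

lemma mem_mul {q k : ℕ} (hq : q.Prime) {m n : ℕ} (h : Nat.Coprime m n) (hm : 1 ≤ m) (hn : 1 ≤ n) :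
    m * n ∈ SS k q ↔ m ∈ SS k q ∧ n ∈ SS k q := by
  have h1 : ∑ d ∈ (m * n).divisors, d ^ k =
      (∑ d ∈ m.divisors, d ^ k) * ∑ d ∈ n.divisors, d ^ k := by
    have := (ArithmeticFunction.isMultiplicative_sigma (k := k)).map_mul_of_coprime h
    rwa [ArithmeticFunction.sigma_apply, ArithmeticFunction.sigma_apply,
      ArithmeticFunction.sigma_apply] at this
  have h2 : 1 ≤ m * n := Nat.one_le_iff_ne_zero.mpr (Nat.mul_ne_zero (by omega) (by omega))
  unfold SS
  simp only [Set.mem_ofPred_eq]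
  rw [h1, hq.dvd_mul]
  tauto

end MULx

open MULx

theorem MUL_main : MUL := by
  intro q hq hodd
  haveI : Fact q.Prime := ⟨hq⟩
  have hf1 : ff q 1 = 1 := by
    unfold ff
    rw [if_pos]
    refine ⟨le_rfl, ?_⟩
    simp [hq.one_lt.ne']
  have hf0 : ff q 0 = 0 := by
    unfold ff
    rw [if_neg]
    intro h
    exact absurd h.1 (by norm_num)
  refine ⟨hf1, hf0, ?_, ?_⟩
  · intro m n h
    rcases Nat.eq_zero_or_pos m with h0 | h0
    · subst h0
      rw [zero_mul, hf0, zero_mul]
    rcases Nat.eq_zero_or_pos n with h0' | h0'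
    · subst h0'
      rw [mul_zero, hf0, mul_zero]
    have h1 := mem_mul (k := (q - 1) / 2) hq h h0 h0'
    unfold ff
    by_cases ha : m ∈ SS ((q - 1) / 2) q
    · by_cases hb : n ∈ SS ((q - 1) / 2) q
      · rw [if_pos ha, if_pos hb, if_pos (h1.mpr ⟨ha, hb⟩), mul_one]
      · rw [if_neg hb, if_neg (fun hh => hb (h1.mp hh).2), mul_zero]
    · rw [if_neg ha, if_neg (fun hh => ha (h1.mp hh).1), zero_mul]
  · intro p e hp
    have hff := ff_pow hodd hp e
    refine ⟨?_, ?_, ?_⟩
    · intro h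
      rw [leg hodd] at h
      have h1 : legendreSym q p = 1 := by exact_mod_cast h
      rw [h1] at hff
      simp only [Int.cast_one, one_pow, Finset.sum_const, Finset.card_range, nsmul_eq_mul,
        mul_one] at hff
      rw [ZMod.natCast_eq_zero_iff] at hff
      split_ifs with h2
      · exact hff.1 h2
      · refine hff.2 ?_
        rw [Ne, ZMod.natCast_eq_zero_iff]
        exact h2
    · intro h
      rw [leg hodd] at h
      have h1 : legendreSym q p = -1 := by exact_mod_cast h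
      rw [h1] at hff
      simp only [Int.cast_neg, Int.cast_one, neg_one_geom_sum] at hff
      split_ifs with h2
      · refine hff.2 ?_
        rw [if_neg (by rw [Nat.even_add_one]; simpa using h2)]
        exact one_ne_zero
      · refine hff.1 ?_
        rw [if_pos (by rw [Nat.even_add_one]; exact h2)]
    · intro h2 h3
      have h1 : legendreSym q p = 0 := by
        by_contra h0
        have h4 : (((p : ℤ)) : ZMod q) ≠ 0 := fun hh => h0 ((legendreSym.eq_zero_iff q p).mpr hh)
        rcases legendreSym.eq_one_or_neg_one q h4 with h5 | h5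
        · exact h2 (by rw [leg hodd, h5]; norm_num)
        · exact h3 (by rw [leg hodd, h5]; norm_num)
      rw [h1] at hff
      refine hff.2 ?_
      rw [Finset.sum_range_succ']
      simp

end Pool.Agent.T2H32.EK
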