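import Pool.Agent.T2H32.EK.Stm

set_option autoImplicit false

namespace Pool.Agent.T2H32.EK

open Finset Filter Topology

namespace REMx

noncomputable def T (n : ℕ) : ℝ := 1 / Real.sqrt ((n : ℝ) - 1) - 1 / Real.sqrt (n : ℝ)

theorem T_succ (k : ℕ) : T (k + 1) = 1 / Real.sqrt (k : ℝ) - 1 / Real.sqrt ((k : ℝ) + 1) := by
  unfold T
  push_cast
  rw [add_sub_cancel_right]

theorem T_eq (k : ℕ) (hk : 1 ≤ k) :
    T (k + 1) = 1 / (Real.sqrt k * Real.sqrt ((k : ℝ) + 1) * (Real.sqrt k + Real.sqrt ((k : ℝ) + 1))) := by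
  have hkr : (1 : ℝ) ≤ k := by exact_mod_cast hk
  rw [T_succ]
  have ha2 : Real.sqrt (k : ℝ) * Real.sqrt k = k := Real.mul_self_sqrt (by linarith)
  have hb2 : Real.sqrt ((k : ℝ) + 1) * Real.sqrt ((k : ℝ) + 1) = k + 1 := Real.mul_self_sqrt (by linarith)
  have ha0 : 0 < Real.sqrt (k : ℝ) := Real.sqrt_pos.2 (by linarith)
  have hb0 : 0 < Real.sqrt ((k : ℝ) + 1) := Real.sqrt_pos.2 (by linarith)
  have : Real.sqrt (k : ℝ) + Real.sqrt ((k : ℝ) + 1) ≠ 0 := by positivity
  field_simp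
  nlinarith

theorem T_nonneg (n : ℕ) (hn : 2 ≤ n) : 0 ≤ T n := by
  obtain ⟨k, rfl⟩ : ∃ k, n = k + 1 := ⟨n - 1, by omega⟩
  rw [T_eq k (by omega)]
  positivity

theorem log_le (n : ℕ) : Real.log n ≤ 2 * Real.sqrt n := by
  have := Real.log_le_rpow_div (x := (n : ℝ)) (ε := 1 / 2) (Nat.cast_nonneg n) (by norm_num)
  rw [← Real.sqrt_eq_rpow] at this
  linarith

theorem T_low (n : ℕ) (hn : 2 ≤ n) : Real.log n / (n : ℝ) ^ 2 ≤ 4 * T n := by
  obtain ⟨k, rfl⟩ : ∃ k, n = k + 1 := ⟨n - 1, by omega⟩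
  have hk : 1 ≤ k := by omega
  have hkr : (1 : ℝ) ≤ k := by exact_mod_cast hk
  have hl := log_le (k + 1)
  rw [T_eq k hk]
  push_cast at hl ⊢
  set a := Real.sqrt (k : ℝ) with ha
  set b := Real.sqrt ((k : ℝ) + 1) with hb
  have hb2 : b * b = k + 1 := Real.mul_self_sqrt (by linarith)
  have ha0 : 0 < a := Real.sqrt_pos.2 (by linarith)
  have hb0 : 0 < b := Real.sqrt_pos.2 (by linarith)
  have hab : a ≤ b := Real.sqrt_le_sqrt (by linarith)
  have h1 : Real.log ((k : ℝ) + 1) / ((k : ℝ) + 1) ^ 2 ≤ 2 / b ^ 3 := by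
    rw [div_le_div_iff₀ (by positivity) (by positivity)]
    calc Real.log ((k : ℝ) + 1) * b ^ 3 ≤ (2 * b) * b ^ 3 := by gcongr
      _ = 2 * ((k : ℝ) + 1) ^ 2 := by rw [← hb2]; ring
  refine h1.trans ?_
  rw [mul_one_div, div_le_div_iff₀ (by positivity) (by positivity)]
  have h2 : a * b * (a + b) ≤ b * b * (b + b) := by gcongr
  nlinarith

theorem T_sum (a : ℕ) (ha : 1 ≤ a) (F : Finset ℕ) (hF : ∀ n ∈ F, a < n) :
    ∑ n ∈ F, T n ≤ 1 / Real.sqrt a := by
  have h1 : ∀ N, a ≤ N → ∑ n ∈ Finset.Ioc a N, T n = 1 / Real.sqrt (a : ℝ) - 1 / Real.sqrt (N : ℝ) := by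
    intro N hN
    induction N, hN using Nat.le_induction with
    | base => simp
    | succ n hn ih =>
      rw [Finset.sum_Ioc_succ_top (by omega), ih, T_succ]
      push_cast
      ring
  have h2 : F ⊆ Finset.Ioc a (max a (F.sup id)) := by
    intro n hn
    exact Finset.mem_Ioc.2 ⟨hF n hn, (Finset.le_sup (f := id) hn).trans (le_max_right _ _)⟩
  have h3 := Finset.sum_le_sum_of_subset_of_nonneg (f := T) h2
    (fun n hn _ => T_nonneg n (by have := (Finset.mem_Ioc.1 hn).1; omega))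
  rw [h1 _ (le_max_left _ _)] at h3
  have h4 : 0 ≤ 1 / Real.sqrt ((max a (F.sup id) : ℕ) : ℝ) := by positivity
  linarith

theorem xb {p : ℕ} (hp : p.Prime) {s : ℝ} (hs : 1 ≤ s) : 0 < xx p s ∧ xx p s ≤ 1 / p := by
  have hp0 : (0 : ℝ) < p := by exact_mod_cast hp.pos
  have hp1 : (1 : ℝ) ≤ p := by exact_mod_cast hp.one_le
  unfold xx
  refine ⟨Real.rpow_pos_of_pos hp0 _, ?_⟩
  calc (p : ℝ) ^ (-s) ≤ (p : ℝ) ^ (-1 : ℝ) := Real.rpow_le_rpow_of_exponent_le hp1 (by linarith)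
    _ = 1 / p := by rw [Real.rpow_neg_one, one_div]

theorem two_pow (q : ℕ) (hq : 4 ≤ q) : (q : ℝ) ^ 2 ≤ 2 ^ q := by
  have : ∀ n : ℕ, 4 ≤ n → n ^ 2 ≤ 2 ^ n := by
    intro n hn
    induction n, hn using Nat.le_induction with
    | base => norm_num
    | succ n hn ih =>
      rw [pow_succ 2 n]
      nlinarith
  exact_mod_cast this q hq

theorem powb {q : ℕ} (hq : 5 ≤ q) {x : ℝ} (hx0 : 0 < x) (hx : x ≤ 1 / 2) :
    (q : ℝ) * x ^ (q - 1) ≤ 8 * x ^ 2 / q := by
  have hq0 : (0 : ℝ) < q := by positivity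
  obtain ⟨m, rfl⟩ : ∃ m, q = m + 3 := ⟨q - 3, by omega⟩
  have h1 : x ^ (m + 3 - 1) = x ^ 2 * x ^ m := by
    rw [← pow_add]; congr 1; omega
  have h2 : x ^ m ≤ (1 / 2) ^ m := pow_le_pow_left₀ hx0.le hx m
  have h3 := two_pow (m + 3) (by omega)
  rw [h1, le_div_iff₀ hq0]
  have h4 : (2 : ℝ) ^ (m + 3) = 8 * 2 ^ m := by rw [pow_add]; norm_num; ring
  rw [h4] at h3
  have h5 : ((m + 3 : ℕ) : ℝ) ^ 2 * (1 / 2) ^ m ≤ 8 := by
    rw [one_div, inv_pow]
    rw [← div_eq_mul_inv, div_le_iff₀ (by positivity)]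
    exact h3
  calc ((m + 3 : ℕ) : ℝ) * (x ^ 2 * x ^ m) * ((m + 3 : ℕ) : ℝ)
      = ((m + 3 : ℕ) : ℝ) ^ 2 * x ^ m * x ^ 2 := by ring
    _ ≤ ((m + 3 : ℕ) : ℝ) ^ 2 * (1 / 2) ^ m * x ^ 2 := by gcongr
    _ ≤ 8 * x ^ 2 := by gcongr

theorem AB {q : ℕ} (hq : 5 ≤ q) {x : ℝ} (hx0 : 0 < x) (hx : x ≤ 1 / 2) :
    |((q : ℝ) - 1) * x ^ (q - 1) / (1 - x ^ (q - 1)) - (q : ℝ) * x ^ q / (1 - x ^ q)| ≤ 16 * x ^ 2 / q := by
  have hq5 : (5 : ℝ) ≤ q := by exact_mod_cast hq
  have hx1 : x ≤ 1 := by linarith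
  have h1 : x ^ (q - 1) ≤ x := by
    calc x ^ (q - 1) ≤ x ^ 1 := pow_le_pow_of_le_one hx0.le hx1 (by omega)
      _ = x := pow_one x
  have h2 : x ^ q ≤ x ^ (q - 1) := pow_le_pow_of_le_one hx0.le hx1 (by omega)
  have h3 : 0 < x ^ (q - 1) := by positivity
  have h4 : 0 < x ^ q := by positivity
  have hb := powb hq hx0 hx
  have hA : ((q : ℝ) - 1) * x ^ (q - 1) / (1 - x ^ (q - 1)) ≤ 2 * (q * x ^ (q - 1)) := by
    rw [div_le_iff₀ (by linarith)]
    have : (q : ℝ) * x ^ (q - 1) ≤ 2 * (q * x ^ (q - 1)) * (1 - x ^ (q - 1)) := by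
      have : 0 < (q : ℝ) * x ^ (q - 1) := by positivity
      nlinarith
    nlinarith
  have hB : (q : ℝ) * x ^ q / (1 - x ^ q) ≤ 2 * (q * x ^ (q - 1)) := by
    rw [div_le_iff₀ (by linarith)]
    have h5 : (q : ℝ) * x ^ q ≤ q * x ^ (q - 1) := by gcongr
    have h6 : (q : ℝ) * x ^ (q - 1) ≤ 2 * (q * x ^ (q - 1)) * (1 - x ^ q) := by
      have : 0 < (q : ℝ) * x ^ (q - 1) := by positivity
      nlinarith
    linarith
  have hA0 : 0 ≤ ((q : ℝ) - 1) * x ^ (q - 1) / (1 - x ^ (q - 1)) :=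
    div_nonneg (mul_nonneg (by linarith) h3.le) (by linarith)
  have hB0 : 0 ≤ (q : ℝ) * x ^ q / (1 - x ^ q) := div_nonneg (by positivity) (by linarith)
  have h7 : 2 * ((q : ℝ) * x ^ (q - 1)) ≤ 16 * x ^ 2 / q := by
    have : 16 * x ^ 2 / (q : ℝ) = 2 * (8 * x ^ 2 / q) := by ring
    rw [this]
    linarith
  rw [abs_le]
  constructor <;> linarith

theorem rr_one {q p : ℕ} {s : ℝ} (h : ch q p = 1) (hx : xx p s < 1) :
    rr q p s = xx p s ^ 2 / (2 * (1 - xx p s)) -
      (((q : ℝ) - 1) * xx p s ^ (q - 1) / (1 - xx p s ^ (q - 1)) - (q : ℝ) * xx p s ^ q / (1 - xx p s ^ q)) := by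
  unfold rr RR
  rw [if_pos h, h]
  have : 1 - xx p s ≠ 0 := by linarith
  have h1 : xx p s ^ 2 / (2 * (1 - xx p s)) = xx p s / (1 - xx p s) - xx p s / (1 - xx p s) / 2 - 1 * xx p s / 2 := by
    field_simp
    ring
  rw [h1]
  ring

theorem rr_neg {q p : ℕ} {s : ℝ} (h : ch q p = -1) (hx0 : 0 < xx p s) (hx : xx p s < 1) :
    rr q p s = 2 * xx p s ^ 2 / (1 - xx p s ^ 2) - xx p s ^ 2 / (2 * (1 - xx p s)) := by
  unfold rr RR
  rw [if_neg (by rw [h]; norm_num), if_pos h, h]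
  have : 1 - xx p s ≠ 0 := by linarith
  have h1 : xx p s ^ 2 / (2 * (1 - xx p s)) = xx p s / (1 - xx p s) / 2 - xx p s / 2 := by
    field_simp
    ring
  rw [h1]
  ring

theorem ch_cases (q p : ℕ) (hq : q.Prime) (hq5 : 5 ≤ q) (hp : p.Prime) :
    ch q p = 1 ∨ ch q p = -1 ∨ (ch q p = 0 ∧ p = q) := by
  have hodd : Odd q := hq.odd_of_ne_two (by omega)
  unfold ch Pool.Agent.R852.LK.ps
  rw [if_pos hodd]
  rcases jacobiSym.trichotomy (p : ℤ) q with h | h | h
  · right; right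
    refine ⟨by rw [h]; simp, ?_⟩
    by_contra hne
    have : NeZero q := ⟨hq.ne_zero⟩
    have h1 : (p : ℤ).gcd q ≠ 1 := jacobiSym.eq_zero_iff_not_coprime.1 h
    apply h1
    rw [Int.gcd_natCast_natCast]
    exact (Nat.coprime_primes hp hq).2 hne
  · left; rw [h]; simp
  · right; left; rw [h]; simp

theorem bnd {q p : ℕ} (hq : q.Prime) (hq5 : 5 ≤ q) (hp : p.Prime) {s : ℝ} (hs : 1 ≤ s) :
    |Real.log p * rr q p s| ≤ 68 * T p + (if p = q then 2 / Real.sqrt q else 0) := by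
  obtain ⟨hx0, hxp⟩ := xb hp hs
  have hp2 : (2 : ℝ) ≤ p := by exact_mod_cast hp.two_le
  have hq5r : (5 : ℝ) ≤ q := by exact_mod_cast hq5
  have hx : xx p s ≤ 1 / 2 := hxp.trans (one_div_le_one_div_of_le (by norm_num) hp2)
  have hlog0 : 0 ≤ Real.log (p : ℝ) := Real.log_nonneg (by linarith)
  have hT := T_low p hp.two_le
  have hT0 := T_nonneg p hp.two_le
  have hite : 0 ≤ (if p = q then 2 / Real.sqrt (q : ℝ) else 0) := by
    split_ifs <;> positivity
  have hx2 : xx p s ^ 2 ≤ 1 / (p : ℝ) ^ 2 := by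
    calc xx p s ^ 2 ≤ (1 / (p : ℝ)) ^ 2 := by gcongr
      _ = 1 / (p : ℝ) ^ 2 := by rw [div_pow, one_pow]
  have hd : xx p s ^ 2 / (2 * (1 - xx p s)) ≤ xx p s ^ 2 := div_le_self (by positivity) (by linarith)
  have hd0 : 0 ≤ xx p s ^ 2 / (2 * (1 - xx p s)) := div_nonneg (by positivity) (by linarith)
  have key : |rr q p s| ≤ 17 * xx p s ^ 2 → |Real.log p * rr q p s| ≤
      68 * T p + (if p = q then 2 / Real.sqrt q else 0) := by
    intro h
    rw [abs_mul, abs_of_nonneg hlog0]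
    have h1 : Real.log p * |rr q p s| ≤ Real.log p * (17 * (1 / (p : ℝ) ^ 2)) := by
      apply mul_le_mul_of_nonneg_left _ hlog0
      linarith
    have h2 : Real.log p * (17 * (1 / (p : ℝ) ^ 2)) = 17 * (Real.log p / (p : ℝ) ^ 2) := by ring
    linarith
  rcases ch_cases q p hq hq5 hp with h | h | ⟨h, hpq⟩
  · apply key
    rw [rr_one h (by linarith)]
    have h1 := AB hq5 hx0 hx
    have h2 : 16 * xx p s ^ 2 / (q : ℝ) ≤ 16 * xx p s ^ 2 := div_le_self (by positivity) (by linarith)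
    rw [abs_le] at h1 ⊢
    constructor <;> linarith [h1.1, h1.2]
  · apply key
    rw [rr_neg h hx0 (by linarith)]
    have h2 : 2 * xx p s ^ 2 / (1 - xx p s ^ 2) ≤ 4 * xx p s ^ 2 := by
      have : xx p s ^ 2 ≤ 1 / 4 := by nlinarith
      rw [div_le_iff₀ (by linarith)]
      nlinarith [sq_nonneg (xx p s)]
    have h3 : 0 ≤ 2 * xx p s ^ 2 / (1 - xx p s ^ 2) := by
      have : xx p s ^ 2 ≤ 1 / 4 := by nlinarith
      exact div_nonneg (by positivity) (by linarith)
    have := sq_nonneg (xx p s)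
    rw [abs_le]
    constructor <;> linarith
  · rw [if_pos hpq]
    have h1 : rr q p s = xx p s / (2 * (1 - xx p s)) := by
      unfold rr RR
      rw [if_neg (by rw [h]; norm_num), if_neg (by rw [h]; norm_num), h]
      have : 1 - xx p s ≠ 0 := by linarith
      field_simp
      ring
    have h2 : xx p s / (2 * (1 - xx p s)) ≤ 1 / p := (div_le_self hx0.le (by linarith)).trans hxp
    have h3 : 0 ≤ xx p s / (2 * (1 - xx p s)) := div_nonneg hx0.le (by linarith)
    rw [h1, abs_of_nonneg (mul_nonneg hlog0 h3)]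
    have hsq : Real.sqrt (p : ℝ) * Real.sqrt p = p := Real.mul_self_sqrt (by linarith)
    have hsp : 0 < Real.sqrt (p : ℝ) := Real.sqrt_pos.2 (by linarith)
    calc Real.log p * (xx p s / (2 * (1 - xx p s))) ≤ (2 * Real.sqrt p) * (1 / p) := by
          gcongr
          exact log_le p
      _ = 2 / Real.sqrt p := by
          rw [mul_one_div, div_eq_div_iff (by linarith) hsp.ne']
          linear_combination 2 * hsq
      _ = 2 / Real.sqrt q := by rw [hpq]
      _ ≤ 68 * T p + 2 / Real.sqrt q := by linarith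

/-- finite sums over primes -/
theorem Tsum_primes (a : ℕ) (ha : 1 ≤ a) (F : Finset Nat.Primes) :
    ∑ p ∈ F, (if a < (p : ℕ) then T p else 0) ≤ 1 / Real.sqrt a := by
  classical
  have h1 : ∑ p ∈ F, (if a < (p : ℕ) then T p else 0) =
      ∑ n ∈ (F.map ⟨fun p : Nat.Primes => (p : ℕ), Subtype.coe_injective⟩).filter (fun n => a < n), T n := by
    rw [Finset.sum_filter, Finset.sum_map]
    rfl
  rw [h1]
  exact T_sum a ha _ fun n hn => (Finset.mem_filter.1 hn).2

theorem qsum (c : ℝ) (hc : 0 ≤ c) (q : ℕ) (F : Finset Nat.Primes) :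
    ∑ p ∈ F, (if (p : ℕ) = q then c else 0) ≤ c := by
  classical
  rw [← Finset.sum_filter, Finset.sum_const, nsmul_eq_mul]
  have h1 : (F.filter (fun p : Nat.Primes => (p : ℕ) = q)).card ≤ 1 := by
    rw [Finset.card_le_one]
    intro a ha b hb
    have h2 := (Finset.mem_filter.1 ha).2
    have h3 := (Finset.mem_filter.1 hb).2
    exact Subtype.ext (h2.trans h3.symm)
  have h2 : ((F.filter (fun p : Nat.Primes => (p : ℕ) = q)).card : ℝ) ≤ 1 := by exact_mod_cast h1
  nlinarith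

theorem Tsum_all (F : Finset Nat.Primes) : ∑ p ∈ F, T p ≤ 1 := by
  have h := Tsum_primes 1 le_rfl F
  rw [Nat.cast_one, Real.sqrt_one, div_one] at h
  rw [Finset.sum_congr rfl fun p _ => if_pos p.2.one_lt] at h
  exact h

theorem usum (q : ℕ) : Summable (fun p : Nat.Primes => 68 * T p + (if (p : ℕ) = q then 2 / Real.sqrt q else 0)) := by
  apply summable_of_sum_le (c := 68 + 2 / Real.sqrt q)
  · intro p
    have := T_nonneg p p.2.two_le
    show 0 ≤ 68 * T p + (if (p : ℕ) = q then 2 / Real.sqrt (q : ℝ) else 0)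
    split_ifs <;> positivity
  · intro F
    rw [Finset.sum_add_distrib, ← Finset.mul_sum]
    have h1 := Tsum_all F
    have h2 := qsum (2 / Real.sqrt q) (by positivity) q F
    linarith

theorem cont (q p : ℕ) (hq : 5 ≤ q) (hp : p.Prime) : ContinuousAt (fun s : ℝ => rr q p s) 1 := by
  have hp0 : (p : ℝ) ≠ 0 := by exact_mod_cast hp.ne_zero
  obtain ⟨hx0, hxp⟩ := xb hp (le_refl (1 : ℝ))
  have hp2 : (2 : ℝ) ≤ p := by exact_mod_cast hp.two_le
  have hx : xx p 1 ≤ 1 / 2 := hxp.trans (one_div_le_one_div_of_le (by norm_num) hp2)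
  have hc : ContinuousAt (fun s : ℝ => xx p s) 1 := by
    unfold xx
    exact (Real.continuousAt_const_rpow hp0).comp (f := fun s : ℝ => -s) continuous_neg.continuousAt
  have hne : ∀ m : ℕ, m ≠ 0 → 1 - xx p 1 ^ m ≠ 0 := by
    intro m hm
    have : xx p 1 ^ m < 1 := pow_lt_one₀ hx0.le (by linarith) hm
    linarith
  have hn1 : 1 - xx p 1 ≠ 0 := by linarith
  have hA : ContinuousAt (fun s : ℝ => xx p s / (1 - xx p s)) 1 := hc.div (continuousAt_const.sub hc) hn1
  have hP : ∀ m : ℕ, ContinuousAt (fun s : ℝ => xx p s ^ m) 1 := fun m => hc.pow m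
  have hQ : ∀ (c : ℝ) (m : ℕ), m ≠ 0 → ContinuousAt (fun s : ℝ => c * xx p s ^ m / (1 - xx p s ^ m)) 1 :=
    fun c m hm => (continuousAt_const.mul (hP m)).div (continuousAt_const.sub (hP m)) (hne m hm)
  have hR : ContinuousAt (fun s : ℝ => RR q p s) 1 := by
    unfold RR
    split_ifs
    · exact (hA.sub (hQ _ (q - 1) (by omega))).add (hQ _ q (by omega))
    · exact hQ 2 2 (by norm_num)
    · exact hA
  unfold rr
  exact (hR.sub (hA.div_const 2)).sub ((continuousAt_const.mul hc).div_const 2)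

theorem small {q p z : ℕ} (hq : q.Prime) (hq5 : 5 ≤ q) (hp : p.Prime) (hz : 1 ≤ z) (hpz : p ≤ z) (hzq : z < q) :
    |Real.log p * rr q p 1 - Real.log p * rho p (ch q p)| ≤ 64 / Real.sqrt z * T p := by
  obtain ⟨hx0, hxp⟩ := xb hp (le_refl (1 : ℝ))
  have hp2 : (2 : ℝ) ≤ p := by exact_mod_cast hp.two_le
  have hzr : (1 : ℝ) ≤ z := by exact_mod_cast hz
  have hzqr : (z : ℝ) < q := by exact_mod_cast hzq
  have hx : xx p 1 = 1 / p := by
    unfold xx
    rw [Real.rpow_neg_one, one_div]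
  have hx2 : xx p 1 ≤ 1 / 2 := hxp.trans (one_div_le_one_div_of_le (by norm_num) hp2)
  have hlog0 : 0 ≤ Real.log (p : ℝ) := Real.log_nonneg (by linarith)
  have hT := T_low p hp.two_le
  have hT0 := T_nonneg p hp.two_le
  have hs0 : 0 < Real.sqrt z := Real.sqrt_pos.2 (by linarith)
  have hsz : Real.sqrt z ≤ z := by
    rw [Real.sqrt_le_left (by linarith)]
    nlinarith
  have hp1 : (p : ℝ) - 1 ≠ 0 := by linarith
  have hp21 : (p : ℝ) ^ 2 - 1 ≠ 0 := by nlinarith
  have hpne : (p : ℝ) ≠ 0 := by linarith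
  rw [← mul_sub, abs_mul, abs_of_nonneg hlog0]
  rcases ch_cases q p hq hq5 hp with h | h | ⟨h, hpq⟩
  · have h1 : rr q p 1 - rho p (ch q p) = -(((q : ℝ) - 1) * xx p 1 ^ (q - 1) / (1 - xx p 1 ^ (q - 1)) -
        (q : ℝ) * xx p 1 ^ q / (1 - xx p 1 ^ q)) := by
      rw [rr_one h (by linarith)]
      unfold rho
      rw [if_pos h]
      have h2 : xx p 1 ^ 2 / (2 * (1 - xx p 1)) = 1 / (2 * (p : ℝ) * ((p : ℝ) - 1)) := by
        rw [hx]
        have : (1 : ℝ) - 1 / p ≠ 0 := by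
          have : (1 : ℝ) - 1 / p = (p - 1) / p := by field_simp
          rw [this]
          exact div_ne_zero hp1 hpne
        field_simp
      rw [h2]
      ring
    rw [h1, abs_neg]
    have h3 := AB hq5 hx0 hx2
    rw [hx] at h3 ⊢
    have h4 : Real.log p * (16 * (1 / (p : ℝ)) ^ 2 / q) = 16 / q * (Real.log p / (p : ℝ) ^ 2) := by ring
    calc _ ≤ Real.log p * (16 * (1 / (p : ℝ)) ^ 2 / q) := mul_le_mul_of_nonneg_left h3 hlog0
      _ = 16 / q * (Real.log p / (p : ℝ) ^ 2) := h4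
      _ ≤ 16 / Real.sqrt z * (4 * T p) := by
        apply mul_le_mul _ hT (by positivity) (by positivity)
        exact div_le_div_of_nonneg_left (by norm_num) hs0 (by linarith)
      _ = _ := by ring
  · have h1 : rr q p 1 - rho p (ch q p) = 0 := by
      rw [rr_neg h hx0 (by linarith), hx]
      unfold rho
      rw [if_neg (by rw [h]; norm_num)]
      have e1 : (1 : ℝ) - 1 / p = (p - 1) / p := by field_simp
      have e2 : (1 : ℝ) - (1 / (p : ℝ)) ^ 2 = (p ^ 2 - 1) / p ^ 2 := by field_simp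
      have e3 : (p : ℝ) ^ 2 - 1 = (p - 1) * (p + 1) := by ring
      rw [e1, e2, e3]
      have : (p : ℝ) + 1 ≠ 0 := by linarith
      field_simp
      ring
    rw [h1, abs_zero, mul_zero]
    positivity
  · omega

end REMx

open REMx in
theorem REM_main : REM := by
  classical
  refine ⟨134, by norm_num, fun q hq hq5 => ?_⟩
  have hu := usum q
  have hb : ∀ s : ℝ, 1 ≤ s → ∀ p : Nat.Primes, ‖Real.log p * rr q p s‖ ≤
      68 * T p + (if (p : ℕ) = q then 2 / Real.sqrt q else 0) := fun s hs p => bnd hq hq5 p.2 hs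
  have hsum : ∀ s : ℝ, 1 ≤ s → Summable fun p : Nat.Primes => Real.log p * rr q p s :=
    fun s hs => Summable.of_norm_bounded hu (hb s hs)
  refine ⟨fun s hs => hsum s hs.le, ∑' p : Nat.Primes, Real.log p * rr q p 1, ?_, ?_⟩
  · refine tendsto_tsum_of_dominated_convergence hu (fun p => ?_) ?_
    · exact ((continuousAt_const.mul (cont q p hq5 p.2)).tendsto).mono_left nhdsWithin_le_nhds
    · filter_upwards [self_mem_nhdsWithin] with s hs p
      exact hb s (le_of_lt hs) p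
  · intro z hz hzq
    have hzr : (2 : ℝ) ≤ z := by exact_mod_cast hz
    have hs0 : 0 < Real.sqrt z := Real.sqrt_pos.2 (by linarith)
    set g : ℕ → ℝ := fun n => if n ≤ z then Real.log n * rho n (ch q n) else 0 with hg
    have hgsum : HasSum (fun p : Nat.Primes => g p) (∑ p ∈ Pr z, Real.log p * rho p (ch q p)) := by
      have h1 : HasSum (Set.indicator {p : ℕ | p.Prime} g) (∑ p ∈ Pr z, Real.log p * rho p (ch q p)) := by
        have h2 : ∑ p ∈ Pr z, Real.log p * rho p (ch q p) =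
            ∑ n ∈ Pr z, Set.indicator {p : ℕ | p.Prime} g n := by
          refine Finset.sum_congr rfl fun p hp => ?_
          have h3 := Finset.mem_filter.1 hp
          rw [Set.indicator_of_mem (by exact h3.2), hg]
          simp only
          rw [if_pos (Finset.mem_Icc.1 h3.1).2]
        rw [h2]
        apply hasSum_sum_of_ne_finset_zero
        intro n hn
        by_cases hp : n.Prime
        · rw [Set.indicator_of_mem (by exact hp), hg]
          simp only
          rw [if_neg]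
          intro h4
          exact hn (Finset.mem_filter.2 ⟨Finset.mem_Icc.2 ⟨hp.one_le, h4⟩, hp⟩)
        · exact Set.indicator_of_notMem (by exact hp) _
      exact (hasSum_subtype_iff_indicator (s := {p : ℕ | p.Prime}) (f := g)).2 h1
    have hD := (hsum 1 le_rfl).hasSum.sub hgsum
    refine le_of_tendsto (hD.abs) (Eventually.of_forall fun F => ?_)
    refine (Finset.abs_sum_le_sum_abs _ _).trans ?_
    have hpt : ∀ p ∈ F, |Real.log p * rr q p 1 - g p| ≤ 64 / Real.sqrt z * T p +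
        68 * (if z < (p : ℕ) then T p else 0) + (if (p : ℕ) = q then 2 / Real.sqrt z else 0) := by
      intro p _
      have hT0 := T_nonneg p p.2.two_le
      have h0 : 0 ≤ 64 / Real.sqrt z * T p := by positivity
      by_cases hpz : (p : ℕ) ≤ z
      · rw [hg]
        simp only
        rw [if_pos hpz, if_neg (by omega), if_neg (by omega), mul_zero, add_zero, add_zero]
        exact small hq hq5 p.2 (by omega) hpz hzq
      · rw [hg]
        simp only
        rw [if_neg hpz, sub_zero, if_pos (by omega)]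
        have h1 := bnd hq hq5 p.2 (le_refl (1 : ℝ))
        have h2 : (if (p : ℕ) = q then 2 / Real.sqrt (q : ℝ) else 0) ≤
            (if (p : ℕ) = q then 2 / Real.sqrt (z : ℝ) else 0) := by
          split_ifs
          · apply div_le_div_of_nonneg_left (by norm_num) hs0
            exact Real.sqrt_le_sqrt (by exact_mod_cast hzq.le)
          · exact le_rfl
        linarith
    refine (Finset.sum_le_sum hpt).trans ?_
    rw [Finset.sum_add_distrib, Finset.sum_add_distrib, ← Finset.mul_sum, ← Finset.mul_sum]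
    have h1 := Tsum_all F
    have h2 := Tsum_primes z (by omega) F
    have h3 := qsum (2 / Real.sqrt z) (by positivity) q F
    have h4 : 64 / Real.sqrt z * ∑ p ∈ F, T p ≤ 64 / Real.sqrt z * 1 :=
      mul_le_mul_of_nonneg_left h1 (by positivity)
    have h5 : 134 / Real.sqrt (z : ℝ) = 64 / Real.sqrt z * 1 + 68 * (1 / Real.sqrt z) + 2 / Real.sqrt z := by ring
    rw [h5]
    linarith

end Pool.Agent.T2H32.EK
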