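import Pool.Agent.T2H32.EK.Stm

set_option autoImplicit false

namespace Pool.Agent.T2H32.EK

open Finset Filter Topology

namespace SWNx

open Pool.Agent.H262R3.Lk.SWQ Pool.Agent.W762.EC.SSA

lemma sum_log_primeFactors (N : ℕ) (hN : 1 ≤ N) :
    ∑ p ∈ N.primeFactors, Real.log p ≤ Real.log N := by
  rw [← Real.log_prod fun p hp => by
    have := (Nat.prime_of_mem_primeFactors hp).pos
    positivity]
  refine Real.log_le_log ?_ ?_
  · exact Finset.prod_pos fun p hp => by
      have := (Nat.prime_of_mem_primeFactors hp).pos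
      positivity
  · have h := Nat.le_of_dvd hN (Nat.prod_primeFactors_dvd N)
    have h' : ((∏ p ∈ N.primeFactors, p : ℕ) : ℝ) ≤ N := by
      rw [Nat.cast_le]; exact h
    rwa [Nat.cast_prod] at h'

lemma term {N : ℕ} (χ : DirichletCharacter ℂ N) (p : ℕ) (hp : Nat.Coprime p N) :
    χ (p : ZMod N) = χ.primitiveCharacter (p : ZMod χ.conductor) := by
  have hc : IsCoprime (p : ℤ) (N : ℤ) := Nat.isCoprime_iff_coprime.2 hp
  have h := χ.primitiveCharacter_apply_of_isCoprime hc
  simpa using h.symm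

lemma diff {N : ℕ} (hN : 1 ≤ N) (χ : DirichletCharacter ℂ N) (n : ℕ) :
    ‖∑ p ∈ Pr n, χ (p : ZMod N) * ((Real.log p : ℝ) : ℂ) - Pool.Agent.H262R3.Lk.SWQ.SS χ.primitiveCharacter n‖ ≤
      Real.log N := by
  have e1 : Pool.Agent.H262R3.Lk.SWQ.SS χ.primitiveCharacter n =
      ∑ p ∈ Pr n, χ.primitiveCharacter (p : ZMod χ.conductor) * ((Real.log p : ℝ) : ℂ) := by
    unfold Pool.Agent.H262R3.Lk.SWQ.SS Pr
    rw [Finset.sum_filter]
    exact Finset.sum_congr rfl fun k _ => by unfold av; rfl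
  rw [e1, ← Finset.sum_sub_distrib]
  have e2 : ∀ p ∈ Pr n, ‖χ (p : ZMod N) * ((Real.log p : ℝ) : ℂ) -
      χ.primitiveCharacter (p : ZMod χ.conductor) * ((Real.log p : ℝ) : ℂ)‖ ≤
      if p ∣ N then Real.log p else 0 := by
    intro p hp
    have hpp : p.Prime := (Finset.mem_filter.1 hp).2
    have hl : 0 ≤ Real.log p := Real.log_natCast_nonneg p
    split_ifs with hd
    · have h0 : χ (p : ZMod N) = 0 := by
        refine χ.map_nonunit fun hu => ?_
        rw [ZMod.isUnit_iff_coprime] at hu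
        have := Nat.Coprime.eq_one_of_dvd hu hd
        exact hpp.one_lt.ne' this
      rw [h0, zero_mul, zero_sub, norm_neg, norm_mul, Complex.norm_real,
        Real.norm_of_nonneg hl]
      have := DirichletCharacter.norm_le_one χ.primitiveCharacter (p : ZMod χ.conductor)
      nlinarith
    · have hc : Nat.Coprime p N := (Nat.Prime.coprime_iff_not_dvd hpp).2 hd
      rw [term χ p hc, sub_self, norm_zero]
  refine (norm_sum_le _ _).trans ((Finset.sum_le_sum e2).trans ?_)
  rw [← Finset.sum_filter]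
  refine le_trans ?_ (sum_log_primeFactors N hN)
  refine Finset.sum_le_sum_of_subset_of_nonneg ?_ fun p _ _ => Real.log_natCast_nonneg p
  intro p hp
  rw [Finset.mem_filter] at hp
  exact Nat.mem_primeFactors.2 ⟨(Finset.mem_filter.1 hp.1).2, hp.2, by omega⟩

end SWNx

open SWNx Pool.Agent.H262R3.Lk.SWQ Pool.Agent.W762.EC.SSA in
theorem SWN_main : SWN := by
  intro A B
  obtain ⟨n1, hn1⟩ := SS_bound A B
  obtain ⟨X, hX⟩ := growth (A + B)
  refine ⟨max n1 (max ⌈X⌉₊ 3), fun n hn N hN hNB χ hχ => ?_⟩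
  have h1 : n1 ≤ n := (le_max_left _ _).trans hn
  have h2 : X ≤ n := (Nat.le_ceil _).trans
    (by exact_mod_cast ((le_max_left _ _).trans (le_max_right _ _)).trans hn)
  have h3 : 3 ≤ n := ((le_max_right _ _).trans (le_max_right _ _)).trans hn
  have h3r : (3 : ℝ) ≤ n := by exact_mod_cast h3
  have hL : 0 < Real.log n := Real.log_pos (by linarith)
  have : NeZero N := ⟨by omega⟩
  have hf0 : χ.conductor ≠ 0 := by
    intro h
    exact (NeZero.ne N) ((DirichletCharacter.conductor_eq_zero_iff_level_eq_zero).1 h)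
  have hf1 : χ.conductor ≠ 1 := fun h =>
    hχ (DirichletCharacter.eq_one_iff_conductor_eq_one.2 h)
  have hf : 1 < χ.conductor := by omega
  have hfN : χ.conductor ≤ N := Nat.le_of_dvd hN χ.conductor_dvd_level
  have hb := hn1 n h1 χ.conductor hf ((by exact_mod_cast hfN : (χ.conductor : ℝ) ≤ N).trans hNB)
    χ.primitiveCharacter χ.primitiveCharacter_isPrimitive
  have hd := diff hN χ n
  have hN1 : (1:ℝ) ≤ N := by exact_mod_cast hN
  have hlogN : Real.log N ≤ 1 * n / Real.log n ^ A := by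
    rw [le_div_iff₀ (by positivity)]
    have a1 : Real.log N ≤ Real.log n ^ B := by
      have := Real.log_le_sub_one_of_pos (show (0:ℝ) < N by linarith)
      linarith
    have a2 : Real.log n ^ (A + B) ≤ n := by
      refine (hX n h2).trans ?_
      rw [Real.sqrt_le_left (by linarith)]
      nlinarith
    calc Real.log N * Real.log n ^ A ≤ Real.log n ^ B * Real.log n ^ A :=
          mul_le_mul_of_nonneg_right a1 (by positivity)
      _ = Real.log n ^ (A + B) := by rw [pow_add]; ring
      _ ≤ 1 * n := by linarith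
  have e : 13 * (n : ℝ) / Real.log n ^ A = 1 * n / Real.log n ^ A + 12 * n / Real.log n ^ A := by
    ring
  rw [e]
  have h4 := norm_add_le (∑ p ∈ Pr n, χ (p : ZMod N) * ((Real.log p : ℝ) : ℂ) -
    Pool.Agent.H262R3.Lk.SWQ.SS χ.primitiveCharacter n) (Pool.Agent.H262R3.Lk.SWQ.SS χ.primitiveCharacter n)
  rw [sub_add_cancel] at h4
  exact h4.trans (add_le_add (hd.trans hlogN) hb)

end Pool.Agent.T2H32.EK
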