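import Pool.Agent.T2H32.EK.Stm

set_option autoImplicit false

namespace Pool.Agent.T2H32.EK

open Finset Filter Topology

namespace SYAx

lemma ch_eq (q p : ℕ) [Fact q.Prime] (hq : Odd q) :
    ch q p = ((quadraticChar (ZMod q) (p : ZMod q) : ℤ) : ℝ) := by
  unfold ch Pool.Agent.R852.LK.ps
  rw [if_pos hq, ← jacobiSym.legendreSym.to_jacobiSym]
  unfold legendreSym
  simp

end SYAx

open SYAx in
theorem SYA_main (h : SWN) : SYA := by
  intro A B
  obtain ⟨n1, hn1⟩ := h A B
  refine ⟨n1, fun n hn q hq ho hqB => ?_⟩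
  have : Fact q.Prime := ⟨hq⟩
  have hq1 : 1 ≤ q := hq.one_lt.le
  have hq2 : q ≠ 2 := by rintro rfl; exact absurd ho (by decide)
  have hchar : ringChar (ZMod q) ≠ 2 := by rw [ZMod.ringChar_zmod_n]; exact hq2
  have hne : (quadraticChar (ZMod q)).ringHomComp (Int.castRingHom ℂ) ≠ 1 :=
    (MulChar.ringHomComp_ne_one_iff (RingHom.injective_int _)).2 (quadraticChar_ne_one hchar)
  have hb := hn1 n hn q hq1 hqB _ hne
  refine le_trans (le_of_eq ?_) hb
  rw [← Real.norm_eq_abs, ← Complex.norm_real]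
  congr 1
  push_cast
  refine Finset.sum_congr rfl fun p _ => ?_
  rw [ch_eq q p ho, MulChar.ringHomComp_apply]
  simp

end Pool.Agent.T2H32.EK
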