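import Pool.Agent.T2H32.EK.Stm

set_option autoImplicit false

namespace Pool.Agent.T2H32.EK

open Finset Filter Topology

namespace SYBx

open Pool.Agent.R852.LK Pool.Agent.T2H32.RRT

lemma chi_ne (D : ℤ) (hD : D ≠ 0) (hsq : ¬ IsSquare D) : PVchi D hD ≠ 1 := by
  intro h
  obtain ⟨b, hb1, hb2⟩ := exists_neg D hD hsq
  have h1 := PVchi_nat D hD b
  have h2 : ps D b = -1 := by unfold ps; rw [if_pos hb1, hb2]
  rw [h2, h] at h1
  by_cases hu : IsUnit (b : ZMod (4 * D.natAbs))
  · rw [MulChar.one_apply hu] at h1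
    have h3 : (1 : ℝ) = -1 := by
      have := congrArg Complex.re h1
      simpa using this
    norm_num at h3
  · rw [MulChar.map_nonunit _ hu] at h1
    have h3 : (0 : ℝ) = -1 := by
      have := congrArg Complex.re h1
      simpa using this
    norm_num at h3

end SYBx

open SYBx Pool.Agent.R852.LK Pool.Agent.T2H32.RRT in
theorem SYB_main (h : SWN) : SYB := by
  intro A B
  obtain ⟨n1, hn1⟩ := h A B
  refine ⟨n1, fun n hn m hm hsq hmB => ?_⟩
  have hD : (m : ℤ) ≠ 0 := by exact_mod_cast (by omega : m ≠ 0)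
  have hsq' : ¬ IsSquare (m : ℤ) := fun hh => hsq (Int.isSquare_natCast_iff.1 hh)
  have hN : (1 : ℕ) ≤ 4 * (m : ℤ).natAbs := by simp; omega
  have hNB : ((4 * (m : ℤ).natAbs : ℕ) : ℝ) ≤ Real.log n ^ B := by
    rw [Int.natAbs_natCast]; push_cast; exact hmB
  have hb := hn1 n hn (4 * (m : ℤ).natAbs) hN hNB _ (chi_ne (m : ℤ) hD hsq')
  refine le_trans (le_of_eq ?_) hb
  rw [← Real.norm_eq_abs, ← Complex.norm_real]
  congr 1
  push_cast
  refine Finset.sum_congr rfl fun p _ => ?_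
  rw [PVchi_nat]
  unfold ch
  simp

end Pool.Agent.T2H32.EK
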