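import Pool.Agent.T2H32.EK.Stm

/-!
# EK, package TAIL: the tail of the sum over the primes
-/

set_option autoImplicit false

namespace Pool.Agent.T2H32.EK

open Finset Filter Topology

namespace TAILx

theorem parts (a g V : ℕ → ℝ) (hV : ∀ k, V (k + 1) = V k + a (k + 1)) {M N : ℕ} (h : M ≤ N) :
    ∑ k ∈ Ico M N, a (k + 1) * g (k + 1) =
      V N * g N - V M * g M + ∑ k ∈ Ico M N, V k * (g k - g (k + 1)) := by
  induction N, h using Nat.le_induction with
  | base => simp
  | succ n hn ih =>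
    rw [Finset.sum_Ico_succ_top hn, Finset.sum_Ico_succ_top hn, ih, hV]
    ring

theorem log_ge_one {n : ℕ} (h : 3 ≤ n) : 1 ≤ Real.log n := by
  have h1 : (3 : ℝ) ≤ n := by exact_mod_cast h
  have h2 : Real.exp 1 ≤ 3 := by linarith [Real.exp_one_lt_d9]
  rw [← Real.log_exp 1]
  exact Real.log_le_log (Real.exp_pos 1) (h2.trans h1)

theorem one_term {k : ℕ} (h : 3 ≤ k) :
    1 / ((k : ℝ) * Real.log k ^ 2) ≤
      4 * (1 / Real.log k - 1 / Real.log ((k + 1 : ℕ) : ℝ)) := by
  have hk : (3 : ℝ) ≤ k := by exact_mod_cast h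
  have hk0 : (0 : ℝ) < k := by linarith
  have h1 := log_ge_one h
  have h2 : 1 ≤ Real.log ((k + 1 : ℕ) : ℝ) := log_ge_one (by omega)
  set L := Real.log k
  set L1 := Real.log ((k + 1 : ℕ) : ℝ) with hL1
  have hdiff : 1 / ((k : ℝ) + 1) ≤ L1 - L := by
    have e : L1 - L = Real.log (((k : ℝ) + 1) / k) := by
      rw [Real.log_div (by linarith) hk0.ne', hL1]
      push_cast
      rfl
    rw [e]
    have := Real.one_sub_inv_le_log_of_pos (x := ((k : ℝ) + 1) / k) (by positivity)
    refine le_trans (le_of_eq ?_) this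
    field_simp
    ring
  have hup : L1 - L ≤ 1 := by
    have e : L1 - L = Real.log (((k : ℝ) + 1) / k) := by
      rw [Real.log_div (by linarith) hk0.ne', hL1]
      push_cast
      rfl
    rw [e]
    have := Real.log_le_sub_one_of_pos (x := ((k : ℝ) + 1) / k) (by positivity)
    refine this.trans ?_
    rw [div_sub_one hk0.ne', div_le_one hk0]
    linarith
  have hL0 : 0 < L := by linarith
  have hL10 : 0 < L1 := by linarith
  have e : 1 / L - 1 / L1 = (L1 - L) / (L * L1) := by
    field_simp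
  rw [e]
  have hLL : L1 ≤ 2 * L := by linarith
  have h3 : 1 / (2 * (k : ℝ)) ≤ L1 - L := by
    refine le_trans ?_ hdiff
    apply one_div_le_one_div_of_le (by positivity)
    linarith
  have h4 : L * L1 ≤ 2 * L ^ 2 := by nlinarith
  rw [mul_div_assoc', le_div_iff₀ (by positivity), div_mul_eq_mul_div, one_mul,
    div_le_iff₀ (by positivity)]
  have h5 : 1 ≤ (L1 - L) * (2 * k) := by
    have := mul_le_mul_of_nonneg_right h3 (show (0 : ℝ) ≤ 2 * k by positivity)
    rwa [one_div, inv_mul_cancel₀ (by positivity)] at this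
  nlinarith [mul_pos hL0 hL0]

theorem tele {M N : ℕ} (hM : 3 ≤ M) (h : M ≤ N) :
    ∑ k ∈ Ico M N, 1 / ((k : ℝ) * Real.log k ^ 2) ≤ 4 * (1 / Real.log M - 1 / Real.log N) := by
  induction N, h using Nat.le_induction with
  | base => simp
  | succ n hn ih =>
    rw [Finset.sum_Ico_succ_top hn]
    have := one_term (k := n) (by omega)
    linarith

theorem xx_nonneg (p : ℕ) (s : ℝ) : 0 ≤ xx p s := Real.rpow_nonneg (Nat.cast_nonneg p) _

theorem xx_le {k : ℕ} (hk : 1 ≤ k) {s : ℝ} (h1 : 1 ≤ s) : xx k s ≤ 1 / k := by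
  have h : (1 : ℝ) ≤ k := by exact_mod_cast hk
  have := Real.rpow_le_rpow_of_exponent_le h (show -s ≤ -1 by linarith)
  rw [Real.rpow_neg_one] at this
  rw [one_div]
  exact this

theorem gap {k : ℕ} (hk : 1 ≤ k) {s : ℝ} (h1 : 1 ≤ s) (h2 : s ≤ 2) :
    0 ≤ xx k s - xx (k + 1) s ∧ xx k s - xx (k + 1) s ≤ 2 / (k : ℝ) ^ 2 := by
  have hk1 : (1 : ℝ) ≤ k := by exact_mod_cast hk
  have hk0 : (0 : ℝ) < k := by linarith
  constructor
  · have : xx (k + 1) s ≤ xx k s := by
      unfold xx
      apply Real.rpow_le_rpow_of_nonpos hk0 _ (by linarith)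
      push_cast
      linarith
    linarith
  · have e1 : xx (k + 1) s = xx k s * Real.exp (-s * Real.log (1 + 1 / (k : ℝ))) := by
      unfold xx
      have : ((k + 1 : ℕ) : ℝ) = k * (1 + 1 / (k : ℝ)) := by
        push_cast
        field_simp
      rw [this, Real.mul_rpow hk0.le (by positivity), Real.rpow_def_of_pos (x := 1 + 1 / (k : ℝ))
        (by positivity)]
      congr 2
      ring
    have e2 : 1 - s / k ≤ Real.exp (-s * Real.log (1 + 1 / (k : ℝ))) := by
      have h3 := Real.add_one_le_exp (-s * Real.log (1 + 1 / (k : ℝ)))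
      have h4 := Real.log_le_sub_one_of_pos (x := 1 + 1 / (k : ℝ)) (by positivity)
      have h5 : s * Real.log (1 + 1 / (k : ℝ)) ≤ s * (1 / k) :=
        mul_le_mul_of_nonneg_left (by linarith) (by linarith)
      have h6 : s * (1 / (k : ℝ)) = s / k := by ring
      linarith
    rw [e1]
    have h7 := xx_nonneg k s
    have h8 := xx_le hk h1
    have h9 : xx k s - xx k s * Real.exp (-s * Real.log (1 + 1 / (k : ℝ))) ≤ xx k s * (s / k) := by
      nlinarith
    have h10 : xx k s * (s / k) ≤ 1 / k * (2 / k) :=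
      mul_le_mul h8 (div_le_div_of_nonneg_right h2 hk0.le) (by positivity) (by positivity)
    have h11 : 1 / (k : ℝ) * (2 / k) = 2 / (k : ℝ) ^ 2 := by
      field_simp
    linarith

/-- the terms -/
noncomputable def aa (q n : ℕ) : ℝ := if n.Prime then ch q n * Real.log n else 0

/-- the partial sums -/
noncomputable def FF (q N : ℕ) (s : ℝ) : ℝ := ∑ p ∈ Pr N, ch q p * Real.log p * xx p s

theorem FF_eq (q N : ℕ) (s : ℝ) : FF q N s = ∑ n ∈ Icc 1 N, aa q n * xx n s := by
  unfold FF Pr aa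
  rw [Finset.sum_filter]
  refine Finset.sum_congr rfl fun n _ => ?_
  split_ifs <;> simp

theorem FF_succ (q N : ℕ) (s : ℝ) : FF q (N + 1) s = FF q N s + aa q (N + 1) * xx (N + 1) s := by
  rw [FF_eq, FF_eq, Finset.sum_Icc_succ_top (by omega)]

theorem FF_sub (q : ℕ) (s : ℝ) {M N : ℕ} (h : M ≤ N) :
    FF q N s - FF q M s = ∑ k ∈ Ico M N, aa q (k + 1) * xx (k + 1) s := by
  induction N, h using Nat.le_induction with
  | base => simp
  | succ n hn ih =>
    rw [Finset.sum_Ico_succ_top hn, ← ih, FF_succ]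
    ring

/-- the summatory function -/
noncomputable def VV (q N : ℕ) : ℝ := ∑ p ∈ Pr N, ch q p * Real.log p

theorem VV_succ (q N : ℕ) : VV q (N + 1) = VV q N + aa q (N + 1) := by
  have h : ∀ N, VV q N = ∑ n ∈ Icc 1 N, aa q n := by
    intro N
    unfold VV Pr aa
    rw [Finset.sum_filter]
  rw [h, h, Finset.sum_Icc_succ_top (by omega)]

theorem main_bound {q X : ℕ} (hX : 3 ≤ X)
    (hV : ∀ n : ℕ, X ≤ n → |VV q n| ≤ 13 * n / Real.log n ^ 2) {M N : ℕ} (hM : X ≤ M)
    (h : M ≤ N) {s : ℝ} (h1 : 1 ≤ s) (h2 : s ≤ 2) :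
    |FF q N s - FF q M s| ≤ 130 / Real.log M := by
  rw [FF_sub q s h, parts (aa q) (fun k => xx k s) (VV q) (VV_succ q) h]
  have hend : ∀ n : ℕ, X ≤ n → |VV q n * xx n s| ≤ 13 / Real.log n := by
    intro n hn
    have hn3 : 3 ≤ n := by omega
    have hL := log_ge_one hn3
    have hn0 : (0 : ℝ) < n := by exact_mod_cast (by omega : 0 < n)
    have hL0 : 0 < Real.log n := by linarith
    rw [abs_mul, abs_of_nonneg (xx_nonneg n s)]
    calc |VV q n| * xx n s ≤ (13 * n / Real.log n ^ 2) * (1 / n) :=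
          mul_le_mul (hV n hn) (xx_le (by omega) h1) (xx_nonneg n s) (by positivity)
      _ = 13 / Real.log n ^ 2 := by field_simp
      _ ≤ 13 / Real.log n := by
          apply div_le_div_of_nonneg_left (by norm_num) hL0
          nlinarith
  have hN3 : X ≤ N := hM.trans h
  have hLM := log_ge_one (n := M) (by omega)
  have hLM0 : 0 < Real.log M := by linarith
  have hmono : 13 / Real.log N ≤ 13 / Real.log M := by
    apply div_le_div_of_nonneg_left (by norm_num) hLM0
    apply Real.log_le_log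
    · exact_mod_cast (by omega : 0 < M)
    · exact_mod_cast h
  have hsum : |∑ k ∈ Ico M N, VV q k * (xx k s - xx (k + 1) s)| ≤ 104 / Real.log M := by
    refine (Finset.abs_sum_le_sum_abs _ _).trans ?_
    have : ∀ k ∈ Ico M N, |VV q k * (xx k s - xx (k + 1) s)| ≤
        26 * (1 / ((k : ℝ) * Real.log k ^ 2)) := by
      intro k hk
      rw [Finset.mem_Ico] at hk
      have hk3 : 3 ≤ k := by omega
      have hL := log_ge_one hk3
      have hL0 : 0 < Real.log k := by linarith
      have hk0 : (0 : ℝ) < k := by exact_mod_cast (by omega : 0 < k)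
      have hg := gap (k := k) (by omega) h1 h2
      rw [abs_mul, abs_of_nonneg hg.1]
      calc |VV q k| * (xx k s - xx (k + 1) s) ≤ (13 * k / Real.log k ^ 2) * (2 / (k : ℝ) ^ 2) :=
            mul_le_mul (hV k (by omega)) hg.2 hg.1 (by positivity)
        _ = _ := by
            field_simp
            norm_num
    refine (Finset.sum_le_sum this).trans ?_
    rw [← Finset.mul_sum]
    have ht := tele (M := M) (N := N) (by omega) h
    have hN0 : 0 ≤ 1 / Real.log N := by
      have := log_ge_one (n := N) (by omega)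
      positivity
    have : 104 / Real.log M = 26 * (4 * (1 / Real.log M)) := by ring
    rw [this]
    nlinarith
  have e1 := hend N hN3
  have e2 := hend M hM
  have e3 : (130 : ℝ) / Real.log M = 13 / Real.log M + 13 / Real.log M + 104 / Real.log M := by ring
  rw [e3]
  have e4 := abs_add_le (VV q N * xx N s - VV q M * xx M s)
    (∑ k ∈ Ico M N, VV q k * (xx k s - xx (k + 1) s))
  have e5 := abs_sub (VV q N * xx N s) (VV q M * xx M s)
  linarith

theorem tend_log : Tendsto (fun M : ℕ => (130 : ℝ) / Real.log M) atTop (𝓝 0) :=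
  (Real.tendsto_log_atTop.comp tendsto_natCast_atTop_atTop).const_div_atTop 130

theorem FF_cont (q M : ℕ) : ContinuousAt (fun s => FF q M s) 1 := by
  unfold FF
  refine tendsto_finsetSum _ fun p hp => ?_
  have hp' : p.Prime := (Finset.mem_filter.1 hp).2
  have : ContinuousAt (fun s : ℝ => xx p s) 1 := by
    unfold xx
    have hp0 : ((p : ℕ) : ℝ) ≠ 0 := by exact_mod_cast hp'.ne_zero
    exact (Real.continuousAt_const_rpow hp0).comp (continuousAt_neg)
  exact (continuousAt_const.mul this)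

theorem core {q X : ℕ} (hX : 3 ≤ X)
    (hV : ∀ n : ℕ, X ≤ n → |VV q n| ≤ 13 * n / Real.log n ^ 2)
    (hT : ∀ s : ℝ, 1 < s → Tendsto (fun N => FF q N s) atTop
      (𝓝 (∑' p : Nat.Primes, ch q p * Real.log p * xx p s))) :
    ∃ P : ℝ, Tendsto (fun s : ℝ => ∑' p : Nat.Primes, ch q p * Real.log p * xx p s) (𝓝[>] 1)
      (𝓝 P) ∧ |P - FF q X 1| ≤ 130 / Real.log X := by
  have hC : CauchySeq (fun N => FF q N 1) := by
    rw [Metric.cauchySeq_iff']
    intro ε hε
    obtain ⟨M, hM⟩ := (((tendsto_order.1 tend_log).2 ε hε).and (eventually_ge_atTop X)).exists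
    refine ⟨M, fun n hn => ?_⟩
    rw [Real.dist_eq]
    exact (main_bound hX hV hM.2 hn le_rfl (by norm_num)).trans_lt hM.1
  obtain ⟨P, hP⟩ := cauchySeq_tendsto_of_complete hC
  have hPM : ∀ M, X ≤ M → |P - FF q M 1| ≤ 130 / Real.log M := by
    intro M hM
    refine le_of_tendsto ((hP.sub_const (FF q M 1)).abs) ?_
    filter_upwards [eventually_ge_atTop M] with N hN
    exact main_bound hX hV hM hN le_rfl (by norm_num)
  have hTM : ∀ s : ℝ, 1 < s → s ≤ 2 → ∀ M, X ≤ M →
      |(∑' p : Nat.Primes, ch q p * Real.log p * xx p s) - FF q M s| ≤ 130 / Real.log M := by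
    intro s h1 h2 M hM
    refine le_of_tendsto (((hT s h1).sub_const (FF q M s)).abs) ?_
    filter_upwards [eventually_ge_atTop M] with N hN
    exact main_bound hX hV hM hN h1.le h2
  refine ⟨P, ?_, hPM X le_rfl⟩
  rw [Metric.tendsto_nhds]
  intro ε hε
  obtain ⟨M, hM⟩ := (((tendsto_order.1 tend_log).2 (ε / 3) (by linarith)).and
    (eventually_ge_atTop X)).exists
  have hc : Tendsto (fun s => FF q M s) (𝓝[>] 1) (𝓝 (FF q M 1)) :=
    (FF_cont q M).tendsto.mono_left nhdsWithin_le_nhds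
  have hc' := Metric.tendsto_nhds.1 hc (ε / 3) (by linarith)
  have h12 : ∀ᶠ s : ℝ in 𝓝[>] 1, 1 < s ∧ s ≤ 2 := by
    filter_upwards [Ioc_mem_nhdsGT (show (1 : ℝ) < 2 by norm_num)] with s hs
    exact hs
  filter_upwards [hc', h12] with s hs hs12
  rw [Real.dist_eq] at hs ⊢
  have a := hTM s hs12.1 hs12.2 M hM.2
  have b := hPM M hM.2
  have := hM.1
  have e : (∑' p : Nat.Primes, ch q p * Real.log p * xx p s) - P =
      ((∑' p : Nat.Primes, ch q p * Real.log p * xx p s) - FF q M s) + (FF q M s - FF q M 1) -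
        (P - FF q M 1) := by ring
  rw [e]
  have e1 := abs_sub (((∑' p : Nat.Primes, ch q p * Real.log p * xx p s) - FF q M s) +
    (FF q M s - FF q M 1)) (P - FF q M 1)
  have e2 := abs_add_le ((∑' p : Nat.Primes, ch q p * Real.log p * xx p s) - FF q M s)
    (FF q M s - FF q M 1)
  linarith

theorem summable_log {δ : ℝ} (hδ : 0 < δ) :
    Summable fun p : Nat.Primes => Real.log p * (p : ℝ) ^ (-(1 + δ)) := by
  have h1 : Summable fun p : Nat.Primes => (2 / δ) * (p : ℝ) ^ (-(1 + δ / 2)) :=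
    (Nat.Primes.summable_rpow.2 (by linarith)).mul_left _
  refine Summable.of_nonneg_of_le (fun p => ?_) (fun p => ?_) h1
  · have : (1 : ℝ) ≤ p := by exact_mod_cast p.2.one_le
    exact mul_nonneg (Real.log_nonneg this) (Real.rpow_nonneg (by linarith) _)
  · have hp : (1 : ℝ) ≤ p := by exact_mod_cast p.2.one_le
    have hp0 : (0 : ℝ) < p := by linarith
    have h2 := Real.log_le_rpow_div hp0.le (half_pos hδ)
    calc Real.log p * (p : ℝ) ^ (-(1 + δ)) ≤ ((p : ℝ) ^ (δ / 2) / (δ / 2)) * (p : ℝ) ^ (-(1 + δ)) :=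
          mul_le_mul_of_nonneg_right h2 (Real.rpow_nonneg hp0.le _)
      _ = (2 / δ) * ((p : ℝ) ^ (δ / 2) * (p : ℝ) ^ (-(1 + δ))) := by
          field_simp
      _ = (2 / δ) * (p : ℝ) ^ (-(1 + δ / 2)) := by
          rw [← Real.rpow_add hp0]
          congr 2
          ring

theorem summ {q : ℕ} (hch : ∀ p, |ch q p| ≤ 1) {s : ℝ} (hs : 1 < s) :
    Summable fun p : Nat.Primes => ch q p * Real.log p * xx p s := by
  have h := summable_log (δ := s - 1) (by linarith)
  refine Summable.of_norm_bounded h fun p => ?_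
  have hp : (1 : ℝ) ≤ ((p : ℕ) : ℝ) := by exact_mod_cast p.2.one_le
  have hlog : 0 ≤ Real.log ((p : ℕ) : ℝ) := Real.log_nonneg hp
  rw [norm_mul, norm_mul, Real.norm_eq_abs, Real.norm_eq_abs, Real.norm_eq_abs, abs_of_nonneg hlog,
    abs_of_nonneg (xx_nonneg _ s), show -(1 + (s - 1)) = -s by ring]
  have := hch p
  have h2 : |ch q p| * Real.log ((p : ℕ) : ℝ) ≤ Real.log ((p : ℕ) : ℝ) := by nlinarith
  exact mul_le_mul_of_nonneg_right h2 (xx_nonneg _ s)

theorem tendT {q : ℕ} (hch : ∀ p, |ch q p| ≤ 1) {s : ℝ} (hs : 1 < s) :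
    Tendsto (fun N => FF q N s) atTop (𝓝 (∑' p : Nat.Primes, ch q p * Real.log p * xx p s)) := by
  have h1 := (summ hch hs).hasSum
  have h2 : HasSum (Set.indicator {p : ℕ | p.Prime} (fun p => ch q p * Real.log p * xx p s))
      (∑' p : Nat.Primes, ch q p * Real.log p * xx p s) :=
    (hasSum_subtype_iff_indicator (s := {p : ℕ | p.Prime})
      (f := fun p : ℕ => ch q p * Real.log p * xx p s)).1 h1
  have h3 := (h2.tendsto_sum_nat).comp (tendsto_add_atTop_nat 1)
  refine h3.congr fun N => ?_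
  simp only [Function.comp]
  rw [FF_eq, Finset.range_eq_Ico, Finset.sum_eq_sum_Ico_succ_bot (by omega)]
  have h0 : Set.indicator {p : ℕ | p.Prime} (fun p => ch q p * Real.log p * xx p s) 0 = 0 := by
    apply Set.indicator_of_notMem
    exact Nat.not_prime_zero
  rw [h0, zero_add]
  refine Finset.sum_congr rfl fun n _ => ?_
  unfold aa
  by_cases hn : n.Prime
  · rw [Set.indicator_of_mem (show n ∈ {p : ℕ | p.Prime} from hn), if_pos hn]
  · rw [Set.indicator_of_notMem (show n ∉ {p : ℕ | p.Prime} from hn), if_neg hn, zero_mul]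

theorem ch_abs (q p : ℕ) : |ch q p| ≤ 1 := by
  unfold ch Pool.Agent.R852.LK.ps
  split_ifs
  · rcases jacobiSym.trichotomy (p : ℤ) q with h | h | h <;> rw [h] <;> norm_num
  · norm_num

end TAILx

open TAILx in
theorem TAIL_main (h : SYA) : TAIL := by
  obtain ⟨n₁, hn₁⟩ := h 2 41
  refine ⟨130, by norm_num, max n₁ 3, fun q hq hodd X hX hqX => ?_⟩
  have hX3 : 3 ≤ X := le_trans (le_max_right _ _) hX
  have hV : ∀ n : ℕ, X ≤ n → |VV q n| ≤ 13 * n / Real.log n ^ 2 := by
    intro n hn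
    refine hn₁ n (le_trans (le_trans (le_max_left _ _) hX) hn) q hq hodd (hqX.trans ?_)
    have h1 := log_ge_one hX3
    have hX0 : (0 : ℝ) < X := by exact_mod_cast (by omega : 0 < X)
    have h2 : Real.log X ≤ Real.log n := Real.log_le_log hX0 (by exact_mod_cast hn)
    exact pow_le_pow_left₀ (by linarith) h2 _
  obtain ⟨P, hP1, hP2⟩ := core hX3 hV (fun s hs => tendT (ch_abs q) hs)
  refine ⟨P, hP1, ?_⟩
  have e : FF q X 1 = ∑ p ∈ Pr X, ch q p * Real.log p / p := by
    unfold FF xx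
    refine Finset.sum_congr rfl fun p _ => ?_
    rw [Real.rpow_neg_one, div_eq_mul_inv]
  rwa [e] at hP2

end Pool.Agent.T2H32.EK
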