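import Pool.Agent.T2H32.EK.Stm

/-! Package ZET of project EK -/

set_option autoImplicit false

namespace Pool.Agent.T2H32.EK

open Finset Filter Topology

namespace ZETx

open ArithmeticFunction in
/-- the real series -/
noncomputable def fv (s : ℝ) (n : ℕ) : ℝ := vonMangoldt n * (n : ℝ) ^ (-s)

open ArithmeticFunction in
theorem fv_cast (s : ℝ) (n : ℕ) :
    ((fv s n : ℝ) : ℂ) = LSeries.term (fun n => ((vonMangoldt n : ℝ) : ℂ)) (s : ℂ) n := by
  rw [fv, LSeries.term_def]
  rcases eq_or_ne n 0 with rfl | hn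
  · simp
  · rw [if_neg hn, Complex.ofReal_mul, Complex.ofReal_cpow (Nat.cast_nonneg n), Complex.ofReal_neg,
      Complex.cpow_neg, Complex.ofReal_natCast, div_eq_mul_inv]

open ArithmeticFunction in
theorem fv_summable (s : ℝ) (hs : 1 < s) : Summable (fv s) := by
  have h1 : LSeriesSummable (fun n => ((vonMangoldt n : ℝ) : ℂ)) (s : ℂ) :=
    LSeriesSummable_vonMangoldt (by simpa using hs)
  have h2 : Summable (fun n => ((fv s n : ℝ) : ℂ)) := by
    have h3 : (fun n => ((fv s n : ℝ) : ℂ)) =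
        LSeries.term (fun n => ((vonMangoldt n : ℝ) : ℂ)) (s : ℂ) := funext fun n => fv_cast s n
    rw [h3]
    exact h1
  exact Complex.summable_ofReal.mp h2

open ArithmeticFunction in
theorem fv_tsum (s : ℝ) (hs : 1 < s) :
    ((∑' n, fv s n : ℝ) : ℂ) = -deriv riemannZeta (s : ℂ) / riemannZeta (s : ℂ) := by
  have h1 := LSeries_vonMangoldt_eq_deriv_riemannZeta_div (s := (s : ℂ)) (by simpa using hs)
  rw [Complex.ofReal_tsum, ← h1, LSeries]
  exact tsum_congr fun n => fv_cast s n

theorem xx_pos (p : Nat.Primes) (s : ℝ) : 0 < xx p s := by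
  rw [xx]
  exact Real.rpow_pos_of_pos (by exact_mod_cast p.2.pos) _

theorem xx_lt (p : Nat.Primes) (s : ℝ) (hs : 1 < s) : xx p s < 1 := by
  rw [xx]
  exact Real.rpow_lt_one_of_one_lt_of_neg (by exact_mod_cast p.2.one_lt) (by linarith)

open ArithmeticFunction in
theorem fv_prime (p : Nat.Primes) (s : ℝ) (k : ℕ) :
    fv s ((p : ℕ) ^ (k + 1)) = Real.log p * xx p s ^ (k + 1) := by
  rw [fv, vonMangoldt_apply_pow (by omega), vonMangoldt_apply_prime p.2, xx]
  congr 1
  rw [Nat.cast_pow, ← Real.rpow_natCast, ← Real.rpow_natCast, ← Real.rpow_mul (Nat.cast_nonneg _),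
    ← Real.rpow_mul (Nat.cast_nonneg _), mul_comm]

theorem geom (p : Nat.Primes) (s : ℝ) (hs : 1 < s) :
    HasSum (fun k : ℕ => fv s ((p : ℕ) ^ (k + 1))) (Real.log p * (xx p s / (1 - xx p s))) := by
  have h1 := (hasSum_geometric_of_lt_one (xx_pos p s).le (xx_lt p s hs)).mul_left
    (Real.log p * xx p s)
  have h2 : (fun k : ℕ => fv s ((p : ℕ) ^ (k + 1))) =
      fun k : ℕ => Real.log p * xx p s * xx p s ^ k := by
    funext k
    rw [fv_prime, pow_succ]
    ring
  rw [h2]
  have h3 : Real.log p * (xx p s / (1 - xx p s)) = Real.log p * xx p s * (1 - xx p s)⁻¹ := by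
    rw [div_eq_mul_inv]
    ring
  rw [h3]
  exact h1

open ArithmeticFunction in
theorem fv_support (s : ℝ) : Function.support (fv s) ⊆ {n | IsPrimePow n} := by
  intro n hn
  rw [Function.mem_support, fv] at hn
  exact vonMangoldt_ne_zero_iff.mp (left_ne_zero_of_mul hn)

theorem sum_eq (s : ℝ) (hs : 1 < s) :
    ∑' n, fv s n = ∑' p : Nat.Primes, Real.log p * (xx p s / (1 - xx p s)) := by
  rw [tsum_eq_tsum_primes_of_support_subset_prime_powers (fv_summable s hs) (fv_support s)]
  exact tsum_congr fun p => (geom p s hs).tsum_eq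

theorem summ (s : ℝ) (hs : 1 < s) :
    Summable fun p : Nat.Primes => Real.log p * (xx p s / (1 - xx p s)) := by
  have h1 : Summable fun q : Nat.Primes × ℕ => fv s ((q.1 : ℕ) ^ (q.2 + 1)) := by
    have h2 : Function.Injective (fun q : Nat.Primes × ℕ => ((q.1 : ℕ) ^ (q.2 + 1) : ℕ)) := by
      rintro ⟨q, k⟩ ⟨q', k'⟩ hqq
      have h3 : Nat.Primes.prodNatEquiv (q, k) = Nat.Primes.prodNatEquiv (q', k') := by
        apply Subtype.ext
        rw [Nat.Primes.coe_prodNatEquiv_apply, Nat.Primes.coe_prodNatEquiv_apply]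
        exact hqq
      exact Nat.Primes.prodNatEquiv.injective h3
    exact (fv_summable s hs).comp_injective h2
  have h4 := h1.prod
  refine h4.congr fun p => ?_
  exact ((geom p s hs).tsum_eq).symm ▸ rfl

/-- the function `(s - 1) ζ(s)` -/
noncomputable def fz : ℂ → ℂ := Function.update (fun s => (s - 1) * riemannZeta s) 1 1

theorem fz_of_ne {s : ℂ} (hs : s ≠ 1) : fz s = (s - 1) * riemannZeta s := by
  rw [fz, Function.update_of_ne hs]

theorem fz_one : fz 1 = 1 := by
  rw [fz, Function.update_self]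

theorem fz_eventually {s : ℂ} (hs : s ≠ 1) : fz =ᶠ[𝓝 s] fun s => (s - 1) * riemannZeta s := by
  filter_upwards [isOpen_ne.mem_nhds hs] with t ht
  exact fz_of_ne ht

theorem fz_hasDerivAt {s : ℂ} (hs : s ≠ 1) :
    HasDerivAt fz (riemannZeta s + (s - 1) * deriv riemannZeta s) s := by
  have h1 : HasDerivAt (fun s : ℂ => s - 1) 1 s := (hasDerivAt_id s).sub_const 1
  have h2 := h1.fun_mul (differentiableAt_riemannZeta hs).hasDerivAt
  rw [one_mul] at h2
  exact h2.congr_of_eventuallyEq (fz_eventually hs)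

theorem fz_diff : Differentiable ℂ fz := by
  have h1 : ContinuousAt fz 1 := by
    rw [fz, continuousAt_update_same]
    exact riemannZeta_residue_one
  have h2 : DifferentiableOn ℂ fz (Set.univ \ {1}) := by
    intro s hs
    exact (fz_hasDerivAt (by simpa using hs.2)).differentiableAt.differentiableWithinAt
  rw [← differentiableOn_univ]
  exact (Complex.differentiableOn_compl_singleton_and_continuousAt_iff
    (Filter.univ_mem : Set.univ ∈ 𝓝 (1 : ℂ))).mp ⟨h2, h1⟩

theorem deriv_fz_one : deriv fz 1 = (Real.eulerMascheroniConstant : ℂ) := by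
  have h1 := (fz_diff 1).hasDerivAt
  rw [hasDerivAt_iff_tendsto_slope] at h1
  refine tendsto_nhds_unique h1 ?_
  refine tendsto_riemannZeta_sub_one_div.congr' ?_
  filter_upwards [self_mem_nhdsWithin] with s hs
  have hs' : s ≠ 1 := hs
  rw [slope_def_field, fz_of_ne hs', fz_one]
  have : s - 1 ≠ 0 := sub_ne_zero.mpr hs'
  field_simp

theorem lim_log : Tendsto (fun s : ℂ => deriv fz s / fz s) (𝓝 1)
    (𝓝 (Real.eulerMascheroniConstant : ℂ)) := by
  have h1 : Continuous (deriv fz) :=
    (fz_diff.contDiff (n := 1)).continuous_deriv le_rfl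
  have h2 : Continuous fz := fz_diff.continuous
  have h3 := (h1.tendsto 1).div (h2.tendsto 1) (by rw [fz_one]; exact one_ne_zero)
  rw [deriv_fz_one, fz_one, div_one] at h3
  exact h3

end ZETx

open ZETx in
theorem ZET_main : ZET := by
  refine ⟨fun s hs => summ s hs, ?_⟩
  have h1 : Tendsto (fun s : ℝ => (s : ℂ)) (𝓝[>] (1 : ℝ)) (𝓝 (1 : ℂ)) := by
    have := (Complex.continuous_ofReal.tendsto (1 : ℝ)).mono_left
      (nhdsWithin_le_nhds : 𝓝[>] (1 : ℝ) ≤ 𝓝 1)
    simpa using this
  have h2 := (lim_log.comp h1).neg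
  have h3 : Tendsto (fun s : ℝ =>
      (((∑' p : Nat.Primes, Real.log p * (xx p s / (1 - xx p s))) - 1 / (s - 1) : ℝ) : ℂ))
      (𝓝[>] 1) (𝓝 (((-Real.eulerMascheroniConstant : ℝ)) : ℂ)) := by
    rw [Complex.ofReal_neg]
    refine h2.congr' ?_
    filter_upwards [self_mem_nhdsWithin] with s hs
    have hs1 : 1 < s := hs
    have hsc : (s : ℂ) ≠ 1 := by
      intro h
      have : s = 1 := by exact_mod_cast h
      linarith
    have hz : riemannZeta (s : ℂ) ≠ 0 := riemannZeta_ne_zero_of_one_lt_re (by simpa using hs1)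
    have hsub : (s : ℂ) - 1 ≠ 0 := sub_ne_zero.mpr hsc
    simp only [Function.comp_apply]
    rw [(fz_hasDerivAt hsc).deriv, fz_of_ne hsc, Complex.ofReal_sub, ← sum_eq s hs1, fv_tsum s hs1,
      Complex.ofReal_div, Complex.ofReal_sub, Complex.ofReal_one]
    field_simp
    ring
  have h4 := (Complex.continuous_re.tendsto _).comp h3
  rw [Complex.ofReal_re] at h4
  exact h4

end Pool.Agent.T2H32.EK
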