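import Pool.Agent.T2H32.EK.Stm

/-!
# EK: the assembly
-/

set_option autoImplicit false

namespace Pool.Agent.T2H32.EK

open Finset Filter Topology

lemma ch_abs (e : ℝ) (he : e = 1 ∨ e = -1) (p : ℕ) (hp : p.Prime) :
    e * Real.log p / p / 2 + Real.log p * rho p e = tt p e := by
  have h2 : (2 : ℝ) ≤ p := by exact_mod_cast hp.two_le
  have h1 : (p : ℝ) ≠ 0 := by positivity
  have h3 : (p : ℝ) - 1 ≠ 0 := by intro h; linarith
  have h4 : (p : ℝ) + 1 ≠ 0 := by positivity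
  have h5 : (p : ℝ) ^ 2 - 1 ≠ 0 := by
    rw [show (p : ℝ) ^ 2 - 1 = ((p : ℝ) - 1) * ((p : ℝ) + 1) by ring]
    exact mul_ne_zero h3 h4
  rcases he with rfl | rfl
  · unfold rho tt
    rw [if_pos rfl, if_pos rfl]
    field_simp
    ring
  · unfold rho tt
    rw [if_neg (by norm_num), if_neg (by norm_num)]
    field_simp
    ring

/-- the numbers `γ_{k,q}` are dense in the reals -/
theorem fin (hLIM : LIM) (hREM : REM) (hTAIL : TAIL) (hEX : EX) (hGRE : GRE) (c ε : ℝ) (hε : 0 < ε) (N : ℕ) :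
    ∃ q : ℕ, N ≤ q ∧ Admissible ((q - 1) / 2) q ∧ hh ((q - 1) / 2) q = 2 ∧
      ∃ γ : ℝ, IsEK ((q - 1) / 2) q γ ∧ |γ - c| < ε := by
  obtain ⟨C₁, hC₁, hR⟩ := hREM
  obtain ⟨C₂, hC₂, n₀, hT⟩ := hTAIL
  obtain ⟨z₀, hz₀⟩ := hEX (ε / 8) (by positivity)
  -- a bound for z
  obtain ⟨z₁, hz₁⟩ : ∃ z₁ : ℕ, ∀ z : ℕ, z₁ ≤ z → C₁ / √z < ε / 8 := by
    have h1 : Tendsto (fun z : ℕ => C₁ / √(z : ℝ)) atTop (𝓝 0) :=
      Tendsto.div_atTop tendsto_const_nhds (Real.tendsto_sqrt_atTop.comp tendsto_natCast_atTop_atTop)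
    obtain ⟨z₁, h⟩ := Filter.eventually_atTop.mp (h1.eventually (gt_mem_nhds (show (0 : ℝ) < ε / 8 by positivity)))
    exact ⟨z₁, h⟩
  obtain ⟨z, hz, e, he, hsum⟩ := hGRE (Real.eulerMascheroniConstant / 2 - c) (ε / 4) (by positivity)
    (max (max z₀ z₁) (max 5 N))
  have hzz₀ : z₀ ≤ z := le_trans (le_trans (le_max_left _ _) (le_max_left _ _)) hz
  have hzz₁ : z₁ ≤ z := le_trans (le_trans (le_max_right _ _) (le_max_left _ _)) hz
  have hz5 : 5 ≤ z := le_trans (le_trans (le_max_left _ _) (le_max_right _ _)) hz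
  have hzN : N ≤ z := le_trans (le_trans (le_max_right _ _) (le_max_right _ _)) hz
  -- X is large
  have hX : Tendsto (fun Q : ℕ => (Q : ℝ) ^ (1 / 40 : ℝ)) atTop atTop :=
    (tendsto_rpow_atTop (by norm_num)).comp tendsto_natCast_atTop_atTop
  have hlogX : ∀ᶠ Q : ℕ in atTop, (Q : ℝ) ^ (1 / 40 : ℝ) / 2 ≤ Real.log (XX Q) := by
    filter_upwards [hX.eventually_ge_atTop 2] with Q hQ
    set t := (Q : ℝ) ^ (1 / 40 : ℝ) with ht
    have h1 : Real.exp t / 2 ≤ (XX Q : ℝ) := by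
      have h2 : Real.exp t < (XX Q : ℝ) + 1 := Nat.lt_floor_add_one _
      have h3 : (2 : ℝ) ≤ Real.exp t := by
        have := Real.add_one_le_exp t
        linarith
      linarith
    have h4 : Real.log (Real.exp t / 2) ≤ Real.log (XX Q) := Real.log_le_log (by positivity) h1
    rw [Real.log_div (Real.exp_pos t).ne' (by norm_num), Real.log_exp] at h4
    have h5 : Real.log 2 < 1 := by
      have := Real.log_two_lt_d9
      linarith
    linarith
  have hev1 : ∀ᶠ Q : ℕ in atTop, n₀ ≤ XX Q ∧ z ≤ XX Q ∧ (Q : ℝ) ≤ Real.log (XX Q) ^ 41 ∧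
      C₂ / Real.log (XX Q) ≤ ε / 8 := by
    have hXX : ∀ K : ℕ, ∀ᶠ Q : ℕ in atTop, K ≤ XX Q := by
      intro K
      filter_upwards [hX.eventually_ge_atTop (K : ℝ)] with Q hQ
      apply Nat.le_floor
      have := Real.add_one_le_exp ((Q : ℝ) ^ (1 / 40 : ℝ))
      linarith
    filter_upwards [hXX n₀, hXX z, hlogX, hX.eventually_ge_atTop ((2 : ℝ) ^ 41),
      hX.eventually_ge_atTop (16 * C₂ / ε)] with Q h1 h2 h3 h4 h5
    set t := (Q : ℝ) ^ (1 / 40 : ℝ) with ht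
    have ht0 : 0 < t := lt_of_lt_of_le (by positivity) h4
    have hQ : (Q : ℝ) = t ^ 40 := by
      rw [ht, ← Real.rpow_natCast, ← Real.rpow_mul (Nat.cast_nonneg _)]
      norm_num
    refine ⟨h1, h2, ?_, ?_⟩
    · calc (Q : ℝ) = t ^ 40 := hQ
        _ ≤ (t / 2) ^ 41 := by
          rw [div_pow, le_div_iff₀ (by positivity), pow_succ t 40]
          exact mul_le_mul_of_nonneg_left h4 (by positivity)
        _ ≤ _ := pow_le_pow_left₀ (by positivity) h3 _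
    · rw [div_le_iff₀ (by linarith)]
      have h6 : 16 * C₂ ≤ t * ε := by rwa [div_le_iff₀ hε] at h5
      nlinarith
  obtain ⟨Q, ⟨q, hqp, hqo, hqQ, -, hzq, hche, hTT⟩, hX1, hX2, hX3, hX4⟩ := ((hz₀ z hzz₀ e he).and hev1).exists
  have hq5 : 5 ≤ q := by omega
  obtain ⟨P, hP, hPb⟩ := hT q hqp hqo (XX Q) hX1 (le_trans (by exact_mod_cast hqQ) hX3)
  obtain ⟨hs, S, hS, hSb⟩ := hR q hqp hq5
  have hSb' := hSb z (by omega) hzq
  obtain ⟨hh2, hEK⟩ := hLIM q hqp hqo P S hP hs hS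
  refine ⟨q, by omega, ⟨hqp, hqo, by omega, by rw [hh2]; decide⟩, hh2, _, hEK, ?_⟩
  -- the sum up to X splits
  have hsplit : ∑ p ∈ Pr (XX Q), ch q p * Real.log p / p =
      ∑ p ∈ Pr z, e p * Real.log p / p + TT z (XX Q) q := by
    have h1 : Pr (XX Q) = Pr z ∪ (Pr (XX Q)).filter (fun p => z < p) := by
      ext p
      simp only [Pr, mem_union, mem_filter, mem_Icc]
      constructor
      · rintro ⟨⟨a, b⟩, hp⟩
        by_cases h : z < p
        · right; exact ⟨⟨⟨a, b⟩, hp⟩, h⟩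
        · left; exact ⟨⟨a, by omega⟩, hp⟩
      · rintro (⟨⟨a, b⟩, hp⟩ | ⟨⟨⟨a, b⟩, hp⟩, -⟩)
        · exact ⟨⟨a, by omega⟩, hp⟩
        · exact ⟨⟨a, b⟩, hp⟩
    have h2 : Disjoint (Pr z) ((Pr (XX Q)).filter (fun p => z < p)) := by
      rw [Finset.disjoint_left]
      intro p h3 h4
      simp only [Pr, mem_filter, mem_Icc] at h3 h4
      omega
    rw [h1, Finset.sum_union h2]
    unfold TT
    congr 1
    exact Finset.sum_congr rfl fun p hp => by rw [hche p hp]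
  have hrho : ∑ p ∈ Pr z, Real.log p * rho p (ch q p) = ∑ p ∈ Pr z, Real.log p * rho p (e p) :=
    Finset.sum_congr rfl fun p hp => by rw [hche p hp]
  have htt : (∑ p ∈ Pr z, e p * Real.log p / p) / 2 + ∑ p ∈ Pr z, Real.log p * rho p (e p) =
      ∑ p ∈ Pr z, tt p (e p) := by
    rw [Finset.sum_div, ← Finset.sum_add_distrib]
    refine Finset.sum_congr rfl fun p hp => ?_
    exact ch_abs (e p) (he p) p (by simp only [Pr, mem_filter] at hp; exact hp.2)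
  rw [hsplit] at hPb
  rw [hrho] at hSb'
  have hz₁' := hz₁ z hzz₁
  obtain ⟨A, hA⟩ : ∃ A, A = ∑ p ∈ Pr z, e p * Real.log p / p := ⟨_, rfl⟩
  obtain ⟨B, hB⟩ : ∃ B, B = ∑ p ∈ Pr z, Real.log p * rho p (e p) := ⟨_, rfl⟩
  rw [← hA, ← hB] at htt
  rw [← hA] at hPb
  rw [← hB] at hSb'
  rw [← htt] at hsum
  rw [abs_le] at hPb hSb' hTT
  rw [abs_lt] at hsum ⊢
  constructor <;> linarith [hPb.1, hPb.2, hSb'.1, hSb'.2, hTT.1, hTT.2, hsum.1, hsum.2]

end Pool.Agent.T2H32.EK
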