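import Pool.Agent.T2H32.RRT.PV
import Pool.Agent.W762.EC.SSA
import Pool.Agent.Helper112.MultLS

/-!
# EK: Euler-Kronecker constants of divisor sums modulo `q` are dense in the reals (MP_4e26da_nt, FULL answer: YES)

For an odd prime `q` and `k = (q - 1) / 2` we have `h = 2`, `p ^ k = (p / q)` modulo `q`, and
`γ_{k,q} = γ/2 - P/2 - S`, `P = ∑_p (p / q) log p / p`, `S` = an absolutely convergent sum over the primes. The symbols
`(p / q)`, `p ≤ z`, can be prescribed, and for most primes `q ≤ Q` of this kind the rest of the sum `P` is small: `z < p ≤ (log Q)^8` by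
Siegel-Walfisz (second moment over the primes `q`), `(log Q)^8 < p ≤ Q^{1/4}` by Polya-Vinogradov (second moment over all
integers `q`), `Q^{1/4} < p ≤ exp (Q^{1/40})` by the large sieve, the rest by Siegel-Walfisz. So the numbers `γ_{k,q}`
are dense in the reals.

Each package `X` is a file `Pool/Agent/T2H32/EK/X.lean` which imports `Pool.Agent.T2H32.EK.Stm` (and library files), with the
theorem given in the docstring, in the namespace `Pool.Agent.T2H32.EK`; put auxiliary lemmas into the namespace `EK.Xx`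
(e.g. `namespace MULx`). No double quote character in the file.
Library: `ps D m` = Jacobi symbol `(D / m)` for odd `m`, `0` for even `m` (`R852/LK/Per.lean`: `ps_mul`, `ps_mod`, `exists_neg`),
`T2H32/RRT/PV.lean` (`PVchi`, `PVchi_nat`, `PV_main`), `W762/EC/SSA.lean` (`SS_bound`), `H262R3/Lk/SWQ.lean`, `Helper112/MultLS.lean`,
`H735CB/LSieve.lean` (`moment_primes`), Mathlib `Chebyshev.theta_ge`, `Chebyshev.theta_le_log4_mul_x`.
-/

set_option autoImplicit false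

namespace Pool.Agent.T2H32.EK

open Finset Filter Topology

/-! ## The objects of the problem -/

/-- the set `S` of the problem: the `n ≥ 1` such that `q` does not divide `σ_k(n)` -/
def SS (k q : ℕ) : Set ℕ := {n | 1 ≤ n ∧ ¬ q ∣ ∑ d ∈ n.divisors, d ^ k}

/-- `L(s) = ∑_{n ∈ S} n^(-s)` for real `s` -/
noncomputable def LL (k q : ℕ) (s : ℝ) : ℝ := ∑' n : SS k q, ((n : ℕ) : ℝ) ^ (-s)

/-- `h = (q - 1) / gcd(k, q - 1)` -/
def hh (k q : ℕ) : ℕ := (q - 1) / Nat.gcd k (q - 1)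

/-- admissible pairs -/
def Admissible (k q : ℕ) : Prop := q.Prime ∧ Odd q ∧ 1 ≤ k ∧ Even (hh k q)

/-- `γ` is the Euler-Kronecker constant of the set `S` -/
def IsEK (k q : ℕ) (γ : ℝ) : Prop :=
  Tendsto (fun s : ℝ => deriv (LL k q) s / LL k q s + ((hh k q : ℝ) - 1) / ((hh k q : ℝ) * (s - 1)))
    (𝓝[>] 1) (𝓝 γ)

/-! ## Notation for the proof -/

/-- the primes up to `n` -/
def Pr (n : ℕ) : Finset ℕ := (Icc 1 n).filter Nat.Prime

/-- the symbol `(p / q)` (for an odd prime `q` the Legendre symbol), as a real number -/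
noncomputable def ch (q p : ℕ) : ℝ := (Pool.Agent.R852.LK.ps (p : ℤ) q : ℝ)

/-- `p ^ (-s)` -/
noncomputable def xx (p : ℕ) (s : ℝ) : ℝ := (p : ℝ) ^ (-s)

open Classical in
/-- the indicator function of `S` for `k = (q - 1) / 2` -/
noncomputable def ff (q n : ℕ) : ℝ := if n ∈ SS ((q - 1) / 2) q then 1 else 0

/-- the local factor at `p`, `x = p ^ (-s)` -/
noncomputable def EE (q p : ℕ) (x : ℝ) : ℝ :=
  if ch q p = 1 then (1 - x ^ (q - 1)) / ((1 - x) * (1 - x ^ q)) else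
  if ch q p = -1 then 1 / (1 - x ^ 2) else 1 / (1 - x)

/-- the logarithm of the local factor -/
noncomputable def GG (q p : ℕ) (s : ℝ) : ℝ :=
  if ch q p = 1 then Real.log (1 - xx p s ^ (q - 1)) - Real.log (1 - xx p s) - Real.log (1 - xx p s ^ q) else
  if ch q p = -1 then - Real.log (1 - xx p s ^ 2) else - Real.log (1 - xx p s)

/-- `- GG' / log p` -/
noncomputable def RR (q p : ℕ) (s : ℝ) : ℝ :=
  if ch q p = 1 then xx p s / (1 - xx p s) - ((q : ℝ) - 1) * xx p s ^ (q - 1) / (1 - xx p s ^ (q - 1)) +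
    (q : ℝ) * xx p s ^ q / (1 - xx p s ^ q) else
  if ch q p = -1 then 2 * xx p s ^ 2 / (1 - xx p s ^ 2) else xx p s / (1 - xx p s)

/-- the part of `RR` which is `O(p ^ (-2 s))` (for `p ≠ q`) -/
noncomputable def rr (q p : ℕ) (s : ℝ) : ℝ := RR q p s - xx p s / (1 - xx p s) / 2 - ch q p * xx p s / 2

/-! ## A. The Dirichlet series -/

/-- **MUL** (35 min). Package: `theorem MUL_main : MUL`.

Proof. `k = (q - 1) / 2 ≥ 1`. `σ_k` is multiplicative (`∑ d ∈ n.divisors, d ^ k = ArithmeticFunction.sigma k n`,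
`ArithmeticFunction.isMultiplicative_sigma`) and `q` is prime, so `q ∣ σ_k(m) σ_k(n)` iff `q` divides a factor; if `m = 0` then `n = 1`.
`σ_k(p^e) = ∑_{i ≤ e} p^(k i)` (`Nat.sum_divisors_prime_pow` or `sigma_apply_prime_pow`), and in `ZMod q`:
`p^k = (p / q)` (`legendreSym.eq_pow` or `ZMod.euler_criterion`; `ch q p = legendreSym q p`, since `q` is odd and prime:
`jacobiSym.legendreSym.to_jacobiSym`). If it is `1`, the sum is `e + 1`; if it is `-1`, the sum is `1` for even `e` and `0` for odd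
`e`; otherwise `p = q`, `p^k = 0` and the sum is `1`. -/
def MUL : Prop := ∀ q : ℕ, q.Prime → Odd q → ff q 1 = 1 ∧ ff q 0 = 0 ∧
  (∀ m n : ℕ, Nat.Coprime m n → ff q (m * n) = ff q m * ff q n) ∧
  ∀ p e : ℕ, p.Prime →
    (ch q p = 1 → ff q (p ^ e) = if q ∣ e + 1 then 0 else 1) ∧
    (ch q p = -1 → ff q (p ^ e) = if Even e then 1 else 0) ∧
    (ch q p ≠ 1 → ch q p ≠ -1 → ff q (p ^ e) = 1)

/-- **LOC** (30 min). Package: `theorem LOC_main (h : MUL) : LOC`.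

Proof. Insert the values of `MUL`. Case 1: `∑_{q ∤ e+1} x^e = 1/(1-x) - ∑_{j ≥ 1} x^(jq-1) = 1/(1-x) - x^(q-1)/(1-x^q)`, equal to
`(1 - x^(q-1))/((1-x)(1-x^q))` (`x · x^(q-1) = x^q`). Case 2: even exponents, geometric series in `x^2`. Case 3: geometric series. -/
def LOC : Prop := ∀ q p : ℕ, q.Prime → Odd q → p.Prime → ∀ x : ℝ, 0 ≤ x → x < 1 →
  HasSum (fun e : ℕ => ff q (p ^ e) * x ^ e) (EE q p x)

/-- **LOGL** (45 min). Package: `theorem LOGL_main (h1 : MUL) (h2 : LOC) : LOGL`.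

Proof. `LL ((q-1)/2) q s = ∑' n, ff q n * n^(-s)` (`tsum_subtype`; summable by comparison with `∑ n^(-s)`, `s > 1`). The function
`n ↦ ff q n * n^(-s)` is multiplicative on coprime arguments (`MUL`, `Real.mul_rpow`), so by
`EulerProduct.eulerProduct_hasProd` it is the product over the primes of `∑_e ff q (p^e) (p^(-s))^e = EE q p (xx p s)` (`LOC`), and
`EE q p (xx p s) = exp (GG q p s)` (logarithms of positive numbers, `0 < xx p s ≤ 1/2`). `|GG q p s| ≤ 6 xx p s`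
(`- log (1 - y) ≤ 2 y` for `0 ≤ y ≤ 1/2`), so `GG` is summable over the primes and the product is `exp` of the sum
(`HasSum.exp` / `Real.hasProd_of_hasSum_log` or similar, uniqueness of the product). -/
def LOGL : Prop := ∀ q : ℕ, q.Prime → Odd q → ∀ s : ℝ, 1 < s →
  (Summable fun p : Nat.Primes => GG q p s) ∧ LL ((q - 1) / 2) q s = Real.exp (∑' p : Nat.Primes, GG q p s)

/-- **DER** (50 min). Package: `theorem DER_main : DER`.

Proof. `d/ds xx p s = - log p * xx p s`, and `GG q p` has the derivative `- log p * RR q p s` for every `s > 0`. For `s ≥ 1 + δ` (`δ > 0`) we have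
`0 ≤ xx p s ≤ 1/2` and `|RR q p s| ≤ C_q xx p s ≤ C_q p^(-1-δ)` (`x/(1-x) ≤ 2x`, `x^m ≤ x`, `1/(1-x^m) ≤ 2` for `m ≥ 1`; `C_q = 4 q + 4`), and
`∑ log p p^(-1-δ) < ∞`. Use `hasDerivAt_tsum_of_isPreconnected` on `Set.Ioi (1 + δ)` with `δ = (s - 1)/2`; the summability of `GG` at one
point follows from `|GG q p s| ≤ 6 xx p s`. -/
def DER : Prop := ∀ q : ℕ, q.Prime → Odd q → ∀ s : ℝ, 1 < s →
  (Summable fun p : Nat.Primes => Real.log p * RR q p s) ∧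
  HasDerivAt (fun s : ℝ => ∑' p : Nat.Primes, GG q p s) (-∑' p : Nat.Primes, Real.log p * RR q p s) s

/-- **ZET** (45 min). Package: `theorem ZET_main : ZET`.

Proof. For `s > 1`: `- ζ'/ζ(s) = ∑_n Λ(n) n^(-s) = ∑_p ∑_{m ≥ 1} log p p^(-m s) = ∑_p log p x/(1-x)`, `x = p^(-s)`
(`ArithmeticFunction.LSeries_vonMangoldt_eq_deriv_riemannZeta_div`; sums over prime powers: `Nat.Primes.prodNatEquiv`, or use the Euler
product `riemannZeta_eulerProduct_exp_log` / `DirichletCharacter`-versions; the library or Mathlib may have it already). Let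
`f(s) = (s - 1) ζ(s)`, `f(1) = 1`; it is analytic at `1` (removable singularity), and
`(f(s) - f(1)) / (s - 1) = ζ(s) - 1/(s-1) → γ` (`tendsto_riemannZeta_sub_one_div`), so `f'(1) = γ` and
`ζ'/ζ(s) + 1/(s-1) = f'(s)/f(s) → γ`. -/
def ZET : Prop := (∀ s : ℝ, 1 < s → Summable fun p : Nat.Primes => Real.log p * (xx p s / (1 - xx p s))) ∧
  Tendsto (fun s : ℝ => (∑' p : Nat.Primes, Real.log p * (xx p s / (1 - xx p s))) - 1 / (s - 1))
    (𝓝[>] 1) (𝓝 (-Real.eulerMascheroniConstant))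

/-- **LIM** (30 min). Package: `theorem LIM_main (h1 : LOGL) (h2 : DER) (h3 : ZET) : LIM`.

Proof. On `s > 1`: `LL = exp (∑ GG)` (an open set, so the derivatives agree), hence `LL' / LL = - ∑ log p RR q p s`; and
`RR = x/(1-x)/2 + ch q p x/2 + rr`, all three sums converge (`RR` by `DER`, `x/(1-x)` by `ZET`, `rr` by hypothesis, the last one by difference). So
`LL'/LL + 1/(2 (s-1)) = - 1/2 (∑ log p x/(1-x) - 1/(s-1)) - 1/2 ∑ ch log p x - ∑ log p rr → γ/2 - P/2 - S`. And `hh ((q-1)/2) q = 2`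
(`q` odd, so `gcd((q-1)/2, q-1) = (q-1)/2`), `(2-1)/(2(s-1)) = 1/(2(s-1))`. -/
def LIM : Prop := ∀ q : ℕ, q.Prime → Odd q → ∀ P S : ℝ,
  Tendsto (fun s : ℝ => ∑' p : Nat.Primes, ch q p * Real.log p * xx p s) (𝓝[>] 1) (𝓝 P) →
  (∀ s : ℝ, 1 < s → Summable fun p : Nat.Primes => Real.log p * rr q p s) →
  Tendsto (fun s : ℝ => ∑' p : Nat.Primes, Real.log p * rr q p s) (𝓝[>] 1) (𝓝 S) →
  hh ((q - 1) / 2) q = 2 ∧ IsEK ((q - 1) / 2) q (Real.eulerMascheroniConstant / 2 - P / 2 - S)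

/-- the limit of `rr q p 1` as `q` tends to infinity with `(p / q) = e` -/
noncomputable def rho (p : ℕ) (e : ℝ) : ℝ :=
  if e = 1 then 1 / (2 * (p : ℝ) * ((p : ℝ) - 1)) else (3 * (p : ℝ) - 1) / (2 * (p : ℝ) * ((p : ℝ) ^ 2 - 1))

/-- **REM** (60 min). Package: `theorem REM_main : REM`.

Proof. Let `x = xx p s`, `1 ≤ s`, `0 < x ≤ 1/p ≤ 1/2`, `q ≥ 5`. If `ch q p = 1`:
`rr = x^2/(2(1-x)) - (q-1) x^(q-1)/(1-x^(q-1)) + q x^q/(1-x^q)`; the last two terms are at most `2 q x^(q-1) ≤ 2 q 2^(-(q-3)) x^2 ≤ 20 x^2`, so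
`|rr| ≤ 50 x^2 ≤ 50 / p^2`. If `ch q p = -1`: `rr = 2x^2/(1-x^2) - x^2/(2(1-x))`, also `|rr| ≤ 50/p^2`. Otherwise `p = q`
(the symbol is `0`; `q` odd prime) and `0 ≤ rr = x/(2(1-x)) ≤ 1/q`. So `|log p rr q p s| ≤ 50 log p / p^2` for `p ≠ q` and `≤ log q / q` for `p = q`: a
summable bound (depending on `q`) for all `s ≥ 1`, and `rr q p` is continuous in `s`; by dominated convergence
(`tendsto_tsum_of_dominated_convergence`) the sum tends to `S = ∑' log p rr q p 1`. Values at `s = 1`: for `p ≤ z < q`,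
`|rr q p 1 - rho p (ch q p)| ≤ 2 q 2^(-(q-1)) · 2` (equal to `0` if the symbol is `-1`); so
`|S - ∑_{p ≤ z} log p rho| ≤ ∑_{p ≤ z} log p 8 q 2^(-q) + ∑_{p > z} 50 log p/p^2 + log q/q ≤ 8 z^2 q 2^(-q) + C/√z + 1/√q · C ≤ C'/√z`, using `z < q`,
`log n ≤ 2 √n`, `∑_{n > z} n^(-3/2) ≤ 3/√z`, `q^4 2^(-q) ≤ C`. -/
def REM : Prop := ∃ C : ℝ, 0 < C ∧ ∀ q : ℕ, q.Prime → 5 ≤ q →
  (∀ s : ℝ, 1 < s → Summable fun p : Nat.Primes => Real.log p * rr q p s) ∧ ∃ S : ℝ,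
    Tendsto (fun s : ℝ => ∑' p : Nat.Primes, Real.log p * rr q p s) (𝓝[>] 1) (𝓝 S) ∧
    ∀ z : ℕ, 2 ≤ z → z < q → |S - ∑ p ∈ Pr z, Real.log p * rho p (ch q p)| ≤ C / √z

/-! ## B. Siegel-Walfisz -/

/-- **SWN** (45 min). Package: `theorem SWN_main : SWN`.

Proof. From `Pool.Agent.W762.EC.SSA.SS_bound A B` (the same for primitive characters modulo `q > 1`; `SS χ n = ∑ k ∈ Icc 1 n, av χ k`,
`av χ k = χ k * log k` for primes `k`, `H262R3/Lk/SWQ.lean`). Let `f = χ.conductor`, `f ∣ N`, `f ≠ 1` as `χ ≠ 1`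
(`DirichletCharacter.eq_one_iff_conductor_eq_one`), `χ' = χ.primitiveCharacter` (primitive modulo `f`). For `p` coprime to `N`: `χ p = χ' p`
(`DirichletCharacter.changeLevel_primitiveCharacter` and `changeLevel_eq_cast_of_dvd`); for `p ∣ N` (`χ p = 0`) the term of `χ'` is at most `log p`, and
`∑_{p ∣ N} log p ≤ log N ≤ B log log n ≤ n / (log n)^A` for large `n`. -/
def SWN : Prop := ∀ A B : ℕ, ∃ n₁ : ℕ, ∀ n : ℕ, n₁ ≤ n → ∀ N : ℕ, 1 ≤ N → (N : ℝ) ≤ Real.log n ^ B →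
  ∀ χ : DirichletCharacter ℂ N, χ ≠ 1 →
    ‖∑ p ∈ Pr n, χ (p : ZMod N) * ((Real.log p : ℝ) : ℂ)‖ ≤ 13 * n / Real.log n ^ A

/-- **SYA** (30 min). Package: `theorem SYA_main (h : SWN) : SYA`.

Proof. For an odd prime `q` the function `p ↦ ch q p` is the quadratic character of `ZMod q` with complex values
(`quadraticChar (ZMod q)` with `MulChar.ringHomComp`, `legendreSym`), not `1` (`quadraticChar_ne_one`). Apply `SWN` with `N = q`. -/
def SYA : Prop := ∀ A B : ℕ, ∃ n₁ : ℕ, ∀ n : ℕ, n₁ ≤ n → ∀ q : ℕ, q.Prime → Odd q → (q : ℝ) ≤ Real.log n ^ B →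
  |∑ p ∈ Pr n, ch q p * Real.log p| ≤ 13 * n / Real.log n ^ A

/-- **SYB** (20 min). Package: `theorem SYB_main (h : SWN) : SYB`.

Proof. Apply `SWN` with `N = 4 m` and the character `PVchi m` of `T2H32/RRT/PV.lean` (`PVchi_nat`: its values are `ps m q`; it is not `1`
for nonsquare `m`: copy the argument from the proof of `PV_main`). -/
def SYB : Prop := ∀ A B : ℕ, ∃ n₁ : ℕ, ∀ n : ℕ, n₁ ≤ n → ∀ m : ℕ, 1 ≤ m → ¬ IsSquare m →
  (4 * m : ℝ) ≤ Real.log n ^ B → |∑ q ∈ Pr n, ch q m * Real.log q| ≤ 13 * n / Real.log n ^ A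

/-- **TAIL** (60 min). Package: `theorem TAIL_main (h : SYA) : TAIL`.

Proof. Let `n₁` be the constant of `SYA` for `A = 2`, `B = 41`, `n₀ = max n₁ 3`. Let `V(n) = ∑_{p ≤ n} ch q p log p`; for `n ≥ X`:
`q ≤ (log X)^41 ≤ (log n)^41`, so `|V(n)| ≤ 13 n / (log n)^2`. For `1 ≤ s ≤ 2` and `X ≤ M < N`, by partial summation,
`|∑_{M < p ≤ N} ch q p log p p^(-s)| ≤ |V(N)| N^(-s) + |V(M)| M^(-s) + ∑_{M ≤ n < N} |V(n)| (n^(-s) - (n+1)^(-s))`
`≤ 26/(log M)^2 + ∑_{n ≥ M} 26 /(n (log n)^2) ≤ C / log M` (`n^(-s) - (n+1)^(-s) ≤ s n^(-s-1) ≤ 2 n^(-2)`). Hence the partial sums at `s = 1`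
converge (Cauchy) to some `P` with `|P - ∑_{p ≤ M}| ≤ C/log M` for all `M ≥ X`, and for `1 < s ≤ 2` the (absolutely convergent) sum differs from the partial sum
up to `M` by at most `C / log M`, uniformly in `s`. The partial sum up to `M` is continuous in `s`, so the limit for `s → 1+` is `P`. (The
sum over `Nat.Primes` is the limit of the sums over `Pr N`: summable for `s > 1`, `|ch| ≤ 1`.) -/
def TAIL : Prop := ∃ C : ℝ, 0 < C ∧ ∃ n₀ : ℕ, ∀ q : ℕ, q.Prime → Odd q → ∀ X : ℕ, n₀ ≤ X → (q : ℝ) ≤ Real.log X ^ 41 →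
  ∃ P : ℝ, Tendsto (fun s : ℝ => ∑' p : Nat.Primes, ch q p * Real.log p * xx p s) (𝓝[>] 1) (𝓝 P) ∧
    |P - ∑ p ∈ Pr X, ch q p * Real.log p / p| ≤ C / Real.log X

/-! ## C. Most primes `q` -/

/-- signs -/
def Sg (e : ℕ → ℝ) : Prop := ∀ p, e p = 1 ∨ e p = -1

/-- for a prime `q > z` this is `2 ^ π(z)` if `(p / q) = e p` for all `p ≤ z`, and `0` otherwise -/
noncomputable def WW (z : ℕ) (e : ℕ → ℝ) (q : ℕ) : ℝ := ∏ p ∈ Pr z, (1 + e p * ch q p)

/-- `(log Q)^8` -/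
noncomputable def Y1 (Q : ℕ) : ℕ := ⌊Real.log Q ^ 8⌋₊

/-- `Q^{1/4}` -/
noncomputable def Y2 (Q : ℕ) : ℕ := ⌊(Q : ℝ) ^ (1 / 4 : ℝ)⌋₊

/-- `exp (Q^{1/40})` -/
noncomputable def XX (Q : ℕ) : ℕ := ⌊Real.exp ((Q : ℝ) ^ (1 / 40 : ℝ))⌋₊

/-- `∑_{a < p ≤ b} (p / q) log p / p` -/
noncomputable def TT (a b q : ℕ) : ℝ := ∑ p ∈ (Pr b).filter (fun p => a < p), ch q p * Real.log p / p

/-- **CNT** (45 min). Package: `theorem CNT_main (h : SYB) : CNT`.

Proof. Expand the product (`Finset.prod_one_add`/`Finset.prod_add`): `WW z e q = ∑_{T ⊆ Pr z} ∏_{p ∈ T} (e p ch q p)`. The term `T = ∅` is `1`. For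
`T ≠ ∅` let `m = ∏ T`, squarefree and `> 1`, so not a square; `∏_{p ∈ T} ch q p = ch q m` (for odd `q` the Jacobi symbol is multiplicative in the
upper argument, `jacobiSym.mul_left`; for even `q` both are `0`), so by `SYB` (`A = 1`, `B = 1`, `Q` large) its sum is at most `13 Q / log Q`. Altogether
`|∑_{q ∈ Pr Q} log q WW z e q - θ(Q)| ≤ 2^z 13 Q / log Q ≤ Q/20` for large `Q`, and `θ(Q) ≥ Q/2` (`Chebyshev.theta_ge`),
`θ(Q) ≤ 1.39 Q` (`Chebyshev.theta_le_log4_mul_x`). -/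
def CNT : Prop := ∀ z : ℕ, ∀ e : ℕ → ℝ, Sg e → ∀ᶠ Q : ℕ in atTop,
  (Q : ℝ) / 4 ≤ ∑ q ∈ Pr Q, Real.log q * WW z e q ∧ ∑ q ∈ Pr Q, Real.log q * WW z e q ≤ 2 * Q

/-- **MED** (60 min). Package: `theorem MED_main (h : SYB) (h2 : CNT) : MED`.

Proof. Expand the square: `∑_{p, p'} (log p/p)(log p'/p') ∑_q log q WW ch q p ch q p'`. Diagonal `p = p'`: `ch^2 ≤ 1`, `WW ≥ 0` (`|ch| ≤ 1`), so at most
`∑_{p > z} (log p/p)^2 · 2 Q ≤ C Q/√z` by `CNT` (`log^2 n / n^2 ≤ C n^(-3/2)`). Off the diagonal: expand `WW` over the `T ⊆ Pr z`; for `T`, `p ≠ p'`, `p, p' > z`,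
the product `(∏ T) p p'` is squarefree and `> 1`, `≤ z^z Y1^2 ≤ (log Q)^17 / 4` for large `Q`, so by `SYB` (`A = 18`, `B = 17`) the inner sum is
at most `13 Q/(log Q)^18`; there are at most `2^z Y1^2 ≤ 2^z (log Q)^16` terms, with coefficients at most `1` (`log p ≤ p`), total at most
`2^z 13 Q/(log Q)^2 ≤ Q/√z` for large `Q`. -/
def MED : Prop := ∃ C : ℝ, 0 < C ∧ ∀ z : ℕ, 1 ≤ z → ∀ e : ℕ → ℝ, Sg e → ∀ᶠ Q : ℕ in atTop,
  ∑ q ∈ Pr Q, Real.log q * WW z e q * TT z (Y1 Q) q ^ 2 ≤ C * Q / √z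

/-- **BIGA** (50 min). Package: `theorem BIGA_main : BIGA`.

Proof. With `T = TT (Y1 Q) (Y2 Q)`: `#bad η^2 ≤ ∑_{q ≤ Q} T(q)^2` over ALL integers `1 ≤ q ≤ Q` (`ch q p = ps p q`, also `0` for even `q`; if `Y2 ≤ Y1` all is `0`).
Expand: `∑_{p, p'} (log p/p)(log p'/p') ∑_{q ≤ Q} ps p q ps p' q`. Diagonal: at most `Q ∑_{p > Y1} (log p/p)^2 ≤ C Q / √Y1 ≤ C' Q/(log Q)^4`. For
`p ≠ p'`: `ps p q ps p' q = ps (p p') q` (`jacobiSym.mul_left`), `p p'` is not a square, and `PV_main` (`T2H32/RRT/PV.lean`) bounds the inner sum by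
`8 √(p p') (1 + log (4 p p')) ≤ 8 Q^{1/4} (1 + log (4 Q))`; the coefficients are at most `1` and there are at most `Y2^2 ≤ Q^{1/2}` pairs: total at most
`Q^{4/5}`. So `#bad ≤ η^(-2) (C' Q/(log Q)^4 + Q^{4/5}) ≤ Q/(log Q)^3` for large `Q`. -/
def BIGA : Prop := ∀ η : ℝ, 0 < η → ∀ᶠ Q : ℕ in atTop,
  (((Pr Q).filter (fun q => η < |TT (Y1 Q) (Y2 Q) q|)).card : ℝ) ≤ Q / Real.log Q ^ 3

/-- **TUP** (25 min). Package: `theorem TUP_main : TUP`.

Proof. If `v, w : Fin k → ℕ` have prime values and the same product then the multisets of their values agree (unique factorization,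
`Nat.primeFactorsList_unique` for `List.ofFn`), so `w = v ∘ σ` for a permutation `σ` of `Fin k`. So the set is empty or contained in the image of
`Equiv.Perm (Fin k)`, `σ ↦ v ∘ σ`, with `k!` elements. -/
def TUP : Prop := ∀ (k n : ℕ) (E : Finset ℕ), (∀ p ∈ E, p.Prime) →
  ((Fintype.piFinset (fun _ : Fin k => E)).filter (fun v => ∏ i, v i = n)).card ≤ k.factorial

/-- **LSM** (45 min). Package: `theorem LSM_main (h : TUP) : LSM`.

Proof. As `moment_primes` in `Pool/Agent/H735CB/LSieve.lean` (which see; copy its proof): `(∑_{p ∈ E} c_p χ(p))^k = ∑_{n ≤ M^k} α_n χ(n)` with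
`α_n = ∑_{v ∈ E^k, ∏ v = n} ∏ c_{v_i}`, `∑ α_n^2 ≤ k! (∑ c_p^2)^k` by Cauchy-Schwarz and `TUP`, and `Pool.Agent.Helper112.mult_large_sieve (M^k) Q`. For an
odd prime `q`, `p ↦ ch q p` is the quadratic character modulo `q`, primitive (`prim_of_ne_one` there). -/
def LSM : Prop := ∀ (Q M k : ℕ) (E : Finset ℕ) (c : ℕ → ℝ), (∀ p ∈ E, p.Prime ∧ p ≤ M) →
  ∑ q ∈ (Pr Q).filter Odd, (∑ p ∈ E, c p * ch q p) ^ (2 * k) ≤
    6 * ((M : ℝ) ^ k + (Q : ℝ) ^ 2) * (k.factorial * (∑ p ∈ E, c p ^ 2) ^ k)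

/-- **BIGB** (60 min). Package: `theorem BIGB_main (h : LSM) : BIGB`.

Proof. Let `Y = Y2 Q`, `X = XX Q` (`Q` large, `Y ≥ 1`, `2 Y ≥ Q^{1/4}`). Blocks `E_j` = primes `p ≤ X` with `2^j Y < p ≤ 2^(j+1) Y`, `j < J = ⌈3 Q^{1/40}⌉₊ + 1`
(`2^J Y ≥ X`); `TT Y X q = ∑_{j<J} ∑_{p ∈ E_j} ch q p log p/p`. If `|TT| > η` then `|∑_{E_j}| > η/J` for some `j`. `LSM` with `k = 8`,
`M = 2^(j+1) Y`, `c_p = log p/p`: `∑_{E_j} c_p^2 ≤ 2^j Y (log M/(2^j Y))^2 = log^2 M/(2^j Y)` (at most `2^j Y` integers in the block, `log p/p` at most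
`log M/(2^j Y)`), so the moment is at most
`6 (M^8 + Q^2) 8! (log^2 M/(2^j Y))^8 ≤ C (log M)^16`, since `M = 2 · 2^j Y` and `(2^j Y)^8 ≥ Y^8 ≥ Q^2/256`. As `log M ≤ 2 + log X ≤ 3 Q^{1/40}` (if
`E_j` is not empty then `M ≤ 2X`), the number of bad `q` is at most `J · C (3 Q^{1/40})^16 (J/η)^16 ≤ C_η Q^{33/40} ≤ Q/(log Q)^3`. (`q = 2`: `TT = 0`.) -/
def BIGB : Prop := ∀ η : ℝ, 0 < η → ∀ᶠ Q : ℕ in atTop,
  (((Pr Q).filter (fun q => η < |TT (Y2 Q) (XX Q) q|)).card : ℝ) ≤ Q / Real.log Q ^ 3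

/-- **EX** (45 min). Package: `theorem EX_main (h1 : CNT) (h2 : MED) (h3 : BIGA) (h4 : BIGB) : EX`.

Proof. Let `κ = η/3`, `C` the constant of `MED`, `z₀` with `C/(√z κ^2) ≤ 1/32` for `z ≥ z₀`, `z₀ ≥ 1`. Fix `z`, `e`, `Q` large. The weight
`w(q) = log q WW z e q ≥ 0` has total mass at least `Q/4` on `Pr Q` (`CNT`), `w(q) ≤ 2^z log Q`. The mass of the `q` with `|TT z Y1 q| > κ` is at most `Q/32` (`MED`); with
`|TT Y1 Y2 q| > κ` or `|TT Y2 XX q| > κ`: at most `2 · Q/(log Q)^3 · 2^z log Q ≤ Q/32`; with `q^2 ≤ Q` or `q ≤ max z 2`: at most `(√Q + z + 2) 2^z log Q ≤ Q/32`. So there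
is `q ∈ Pr Q` with `w(q) > 0` and none of this; it is odd, and for `p ≤ z`, `p` prime, `ch q p = ±1` (`q` prime, `q > z ≥ p`) and
`1 + e p ch q p ≠ 0`, so `ch q p = e p`. For large `Q`, `z ≤ Y1 ≤ Y2 ≤ XX`, so `TT z XX = TT z Y1 + TT Y1 Y2 + TT Y2 XX`. -/
def EX : Prop := ∀ η : ℝ, 0 < η → ∃ z₀ : ℕ, ∀ z : ℕ, z₀ ≤ z → ∀ e : ℕ → ℝ, Sg e → ∀ᶠ Q : ℕ in atTop,
  ∃ q : ℕ, q.Prime ∧ Odd q ∧ q ≤ Q ∧ Q < q ^ 2 ∧ z < q ∧ (∀ p ∈ Pr z, ch q p = e p) ∧ |TT z (XX Q) q| ≤ η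

/-! ## D. Prescribed signs -/

/-- the contribution of the prime `p` with `(p / q) = e` to `γ/2 - γ_{k,q}` -/
noncomputable def tt (p : ℕ) (e : ℝ) : ℝ :=
  if e = 1 then Real.log p / (2 * ((p : ℝ) - 1)) else Real.log p * (3 - (p : ℝ)) / (2 * ((p : ℝ) ^ 2 - 1))

/-- **GRE** (50 min). Package: `theorem GRE_main : GRE`.

Proof. For primes `p ≥ 5`: `0 < 1/(8p) ≤ tt p 1`, `tt p (-1) ≤ -1/(16 p) < 0`, both tend to `0`, and `∑ 1/p` over the primes diverges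
(`Nat.Primes.not_summable_one_div`; partial sums unbounded). Greedy choice: define the sign at the next prime as `1` if the current
sum is `< c`, else `-1`. Let `p₀ ≥ max z₀ 5` be such that `|tt p (±1)| < δ` for `p ≥ p₀`. After `p₀` the sum reaches the other side of `c` at some prime
(otherwise the sign is constant from then on and the sum tends to `±∞`, contradiction), and at the first crossing it is within `δ` of `c`. Equivalent simpler version: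
signs `1` up to `p₀`; if the sum `s₀ < c` continue with `1` until it is `≥ c`, if `s₀ ≥ c` continue with `-1` until it is `≤ c`; stop there. -/
def GRE : Prop := ∀ c δ : ℝ, 0 < δ → ∀ z₀ : ℕ, ∃ z : ℕ, z₀ ≤ z ∧ ∃ e : ℕ → ℝ, Sg e ∧ |∑ p ∈ Pr z, tt p (e p) - c| < δ

end Pool.Agent.T2H32.EK
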