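import Pool.Agent.T2H32.EK.Stm

/-!
# EK, package TUP (helper55): tuples of primes with a given product
-/

set_option autoImplicit false

namespace Pool.Agent.T2H32.EK

open Finset

theorem TUP_main : TUP := by
  classical
  intro k n E hE
  set S := (Fintype.piFinset (fun _ : Fin k => E)).filter (fun v => ∏ i, v i = n) with hS
  rcases S.eq_empty_or_nonempty with h0 | ⟨v0, hv0⟩
  · rw [h0, card_empty]
    exact Nat.zero_le _
  have hperm : ∀ v ∈ S, (List.ofFn v).Perm n.primeFactorsList := by
    intro v hv
    rw [hS, mem_filter, Fintype.mem_piFinset] at hv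
    refine Nat.primeFactorsList_unique ?_ ?_
    · rw [List.prod_ofFn]
      exact hv.2
    · intro p hp
      rw [List.mem_ofFn] at hp
      obtain ⟨i, rfl⟩ := hp
      exact hE _ (hv.1 i)
  have hlen : n.primeFactorsList.length = k := by
    rw [← (hperm v0 hv0).length_eq, List.length_ofFn]
  have h1 : S.card ≤ (n.primeFactorsList.permutations.toFinset).card := by
    refine card_le_card_of_injOn (fun v => List.ofFn v) ?_ ?_
    · intro v hv
      rw [mem_coe, List.mem_toFinset, List.mem_permutations]
      exact hperm v hv
    · intro v _ w _ h
      exact List.ofFn_injective h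
  refine h1.trans ((List.toFinset_card_le _).trans ?_)
  rw [List.length_permutations, hlen]

end Pool.Agent.T2H32.EK
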